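import Pool.Agent.Lib.MP_cb4a0f_co.Sem

/-!
# Submodularity of the cut function, leaf pieces, gluing along sequences
-/

open Classical

namespace RotWqo

variable {V H V' H' : Type*}

/-! ### Submodularity -/

theorem two_cut (G : RotGraph V H) (A : Finset V) :
    2 * cut G A = ∑ h ∈ G.darts, if (G.base h ∈ A) ↔ (G.base (G.opp h) ∈ A) then 0 else 1 := by
  have h1 : cut G A = ∑ h ∈ G.darts, if G.base h ∈ A ∧ G.base (G.opp h) ∉ A then 1 else 0 := by
    rw [cut, bd, Finset.card_filter]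
  have h2 : cut G A = ∑ h ∈ G.darts, if G.base h ∉ A ∧ G.base (G.opp h) ∈ A then 1 else 0 := by
    rw [h1]
    refine Finset.sum_nbij' G.opp G.opp G.opp_mem G.opp_mem G.opp_opp G.opp_opp ?_
    intro h hh
    rw [G.opp_opp h hh]
    by_cases h1 : G.base h ∈ A <;> by_cases h2 : G.base (G.opp h) ∈ A <;> simp [h1, h2]
  rw [two_mul]
  nth_rewrite 1 [h1]
  rw [h2, ← Finset.sum_add_distrib]
  refine Finset.sum_congr rfl fun h _ => ?_
  by_cases h1 : G.base h ∈ A <;> by_cases h2 : G.base (G.opp h) ∈ A <;> simp [h1, h2]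

theorem cut_submod (G : RotGraph V H) (X Y : Finset V) :
    cut G (X ∩ Y) + cut G (X ∪ Y) ≤ cut G X + cut G Y := by
  have : 2 * cut G (X ∩ Y) + 2 * cut G (X ∪ Y) ≤ 2 * cut G X + 2 * cut G Y := by
    simp only [two_cut, ← Finset.sum_add_distrib]
    refine Finset.sum_le_sum fun h _ => ?_
    by_cases h1 : G.base h ∈ X <;> by_cases h2 : G.base (G.opp h) ∈ X <;>
      by_cases h3 : G.base h ∈ Y <;> by_cases h4 : G.base (G.opp h) ∈ Y <;>
      simp [h1, h2, h3, h4]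
  omega

theorem cut_posimod (G : RotGraph V H) (X Y : Finset V) :
    cut G (X \ Y) + cut G (Y \ X) ≤ cut G X + cut G Y := by
  have : 2 * cut G (X \ Y) + 2 * cut G (Y \ X) ≤ 2 * cut G X + 2 * cut G Y := by
    simp only [two_cut, ← Finset.sum_add_distrib]
    refine Finset.sum_le_sum fun h _ => ?_
    by_cases h1 : G.base h ∈ X <;> by_cases h2 : G.base (G.opp h) ∈ X <;>
      by_cases h3 : G.base h ∈ Y <;> by_cases h4 : G.base (G.opp h) ∈ Y <;>
      simp [h1, h2, h3, h4]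
  omega

/-! ### The empty piece -/

theorem PE.empty (r : V → V' → Prop) [Nonempty V'] [Nonempty H'] (G : RotGraph V H)
    (G' : RotGraph V' H') : PE r G ∅ G' G'.verts (fun _ => Classical.arbitrary H') := by
  have hb : bd G ∅ = ∅ := by
    ext h; simp [mem_bd]
  have hb' : bd G' G'.verts = ∅ := by
    ext h
    simp only [mem_bd, Finset.notMem_empty, iff_false, not_and, not_not]
    intro h1 _
    exact G'.base_mem _ (G'.opp_mem h h1)
  refine ⟨fun _ => Classical.arbitrary V', fun _ => Classical.arbitrary H', fun _ _ => False, ?_⟩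
  refine ⟨by simp, by simp, by simp, fun _ _ h => h, fun _ _ _ h => h.elim,
    fun _ _ h => h.elim, fun _ _ h => h.elim, fun _ _ h => h.elim, by simp, by simp, by simp,
    by simp, ?_, by simp, by simp [hb], ?_⟩
  · intro x _
    exact .done _ fun a _ b h => h
  · rw [hb, hb']
    simp [Set.BijOn, Set.SurjOn]

/-! ### Leaf pieces -/

/-- The pattern of the loops at `v`. -/
noncomputable def pat (k : ℕ) (G : RotGraph V H) (v : V) : Finset (Fin k × Fin k) :=
  Finset.univ.filter fun p => ∃ a b, (G.rot v)[(p.1 : ℕ)]? = some a ∧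
    (G.rot v)[(p.2 : ℕ)]? = some b ∧ G.opp a = b

theorem PE.leaf {r : V → V' → Prop} [Nonempty H'] (k : ℕ) (G : RotGraph V H)
    (G' : RotGraph V' H') (v : V) (v' : V') (hr : r v v') (hk : (G.rot v).length ≤ k)
    (hlen : (G.rot v).length = (G'.rot v').length) (hpat : pat k G v = pat k G' v') :
    ∃ β, PE r G {v} G' {v'} β := by
  set l := G.rot v with hl
  set l' := G'.rot v' with hl'
  have hnd : l.Nodup := G.nodup v
  have hnd' : l'.Nodup := G'.nodup v'
  set φ : H → H' := fun h => (l'[l.idxOf h]?).getD (Classical.arbitrary H') with hφ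
  have hmap : l.map φ = l' := by
    refine List.ext_getElem (by simp [hlen]) fun i h1 h2 => ?_
    have h3 : i < l.length := by simpa using h1
    simp [hφ, hnd.idxOf_getElem i h3, h2]
  have hget : ∀ (i : ℕ) (h1 : i < l.length) (h2 : i < l'.length), φ l[i] = l'[i] := by
    intro i h1 h2
    simp [hφ, hnd.idxOf_getElem i h1, h2]
  have hmem : ∀ h ∈ l, φ h ∈ l' := by
    intro h hh
    rw [← hmap]
    exact List.mem_map_of_mem hh
  have hdl : ∀ h, h ∈ l ↔ h ∈ G.darts ∧ G.base h = v := G.mem_rot v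
  have hdl' : ∀ h, h ∈ l' ↔ h ∈ G'.darts ∧ G'.base h = v' := G'.mem_rot v'
  -- loops correspond
  have key : ∀ h ∈ l, ∀ h' ∈ l, (G.opp h = h' ↔ G'.opp (φ h) = φ h') := by
    intro h hh h' hh'
    obtain ⟨i, hi, rfl⟩ := List.getElem_of_mem hh
    obtain ⟨j, hj, rfl⟩ := List.getElem_of_mem hh'
    have hi' : i < l'.length := hlen ▸ hi
    have hj' : j < l'.length := hlen ▸ hj
    have hik : i < k := lt_of_lt_of_le hi hk
    have hjk : j < k := lt_of_lt_of_le hj hk
    rw [hget i hi hi', hget j hj hj']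
    have h1 : ((⟨⟨i, hik⟩, ⟨j, hjk⟩⟩ : Fin k × Fin k) ∈ pat k G v) ↔ G.opp l[i] = l[j] := by
      simp [pat, ← hl, hi, hj, eq_comm]
    have h2 : ((⟨⟨i, hik⟩, ⟨j, hjk⟩⟩ : Fin k × Fin k) ∈ pat k G' v') ↔ G'.opp l'[i] = l'[j] := by
      simp [pat, ← hl', hi', hj', eq_comm]
    rw [← h1, ← h2, hpat]
  have hinj : ∀ h ∈ l, ∀ h' ∈ l, φ h = φ h' → h = h' := by
    intro h hh h' hh' heq
    obtain ⟨i, hi, rfl⟩ := List.getElem_of_mem hh
    obtain ⟨j, hj, rfl⟩ := List.getElem_of_mem hh'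
    have hi' : i < l'.length := hlen ▸ hi
    have hj' : j < l'.length := hlen ▸ hj
    rw [hget i hi hi', hget j hj hj'] at heq
    have := (hnd'.getElem_inj_iff).1 heq
    subst this; rfl
  have hker : ∀ a, Ker G {v} φ a ↔ a ∈ l' := by
    intro a
    rw [← hmap, List.mem_map]
    constructor
    · rintro ⟨h, h1, h2, rfl⟩
      exact ⟨h, (hdl h).2 ⟨h1, by simpa using h2⟩, rfl⟩
    · rintro ⟨h, h1, rfl⟩
      exact ⟨h, ((hdl h).1 h1).1, by simp [((hdl h).1 h1).2], rfl⟩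
  have hbd : ∀ h, h ∈ bd G {v} ↔ h ∈ l ∧ G.opp h ∉ l := by
    intro h
    rw [mem_bd, hdl, hdl]
    constructor
    · rintro ⟨h1, h2, h3⟩
      exact ⟨⟨h1, by simpa using h2⟩, fun h4 => h3 (by simp [h4.2])⟩
    · rintro ⟨⟨h1, h2⟩, h3⟩
      exact ⟨h1, by simp [h2], fun h4 => h3 ⟨G.opp_mem h h1, by simpa using h4⟩⟩
  have hbd' : ∀ h, h ∈ bd G' {v'} ↔ h ∈ l' ∧ G'.opp h ∉ l' := by
    intro h
    rw [mem_bd, hdl', hdl']
    constructor
    · rintro ⟨h1, h2, h3⟩
      exact ⟨⟨h1, by simpa using h2⟩, fun h4 => h3 (by simp [h4.2])⟩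
    · rintro ⟨⟨h1, h2⟩, h3⟩
      exact ⟨h1, by simp [h2], fun h4 => h3 ⟨G'.opp_mem h h1, by simpa using h4⟩⟩
  refine ⟨φ, fun _ => v', φ, fun _ _ => False, ?_⟩
  refine ⟨by simp, by simpa using hr, by simp, fun _ _ h => h, fun _ _ _ h => h.elim,
    fun _ _ h => h.elim, fun _ _ h => h.elim, fun _ _ h => h.elim, ?_, ?_, ?_, ?_, ?_, ?_, ?_, ?_⟩
  · intro h h1 h2
    exact ((hdl' _).1 (hmem h ((hdl h).2 ⟨h1, by simpa using h2⟩))).1
  · intro h h1 h2
    exact ((hdl' _).1 (hmem h ((hdl h).2 ⟨h1, by simpa using h2⟩))).2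
  · intro h h1 h' h1' h2 h2'
    exact hinj h ((hdl h).2 ⟨h1, by simpa using h2⟩) h' ((hdl h').2 ⟨h1', by simpa using h2'⟩)
  · intro w hw
    rw [Finset.mem_singleton] at hw
    subst hw
    rw [← hl, ← hl', hmap, List.filter_eq_self.2]
    intro a ha
    simpa using (hker a).2 ha
  · intro x _
    exact .done _ fun a _ b h => h
  · intro h h1 h2 h3
    refine ⟨φ h, .refl _, ?_⟩
    have h4 : h ∈ l := (hdl h).2 ⟨h1, by simpa using h2⟩
    have h5 : G.opp h ∈ l := (hdl _).2 ⟨G.opp_mem h h1, by simpa using h3⟩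
    exact (key h h4 _ h5).1 rfl
  · intro h _
    exact .refl _
  · refine ⟨?_, ?_, ?_⟩
    · intro h hh
      have hh' := (hbd h).1 (Finset.mem_coe.1 hh)
      refine Finset.mem_coe.2 ((hbd' _).2 ⟨hmem h hh'.1, fun h3 => hh'.2 ?_⟩)
      rw [← hmap, List.mem_map] at h3
      obtain ⟨b, hb, hb'⟩ := h3
      rw [(key h hh'.1 b hb).2 hb'.symm]
      exact hb
    · intro h hh h' hh' heq
      exact hinj h ((hbd h).1 (Finset.mem_coe.1 hh)).1 h' ((hbd h').1 (Finset.mem_coe.1 hh')).1 heq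
    · intro y hy
      have hy' := (hbd' y).1 (Finset.mem_coe.1 hy)
      have h3 := hy'.1
      rw [← hmap, List.mem_map] at h3
      obtain ⟨h, hh, rfl⟩ := h3
      refine ⟨h, Finset.mem_coe.2 ((hbd h).2 ⟨hh, fun h4 => hy'.2 ?_⟩), rfl⟩
      rw [(key h hh _ h4).1 rfl]
      exact hmem _ h4

/-- Among infinitely many one-vertex pieces of bounded degree one embeds in a later one. -/
theorem exists_PE_leaf {Q : Type*} (q : Q → Q → Prop) [IsPreorder Q q] (hq : WellQuasiOrdered q)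
    (V H : ℕ → Type*) [∀ i, Nonempty (H i)] (G : ∀ i, RotGraph (V i) (H i)) (lab : ∀ i, V i → Q)
    (k : ℕ) (v : ∀ i, V i) (hk : ∀ i, ((G i).rot (v i)).length ≤ k) :
    ∃ m n, m < n ∧ ∃ β, PE (fun a b => q (lab m a) (lab n b)) (G m) {v m} (G n) {v n} β := by
  let D := Fin (k + 1) × Finset (Fin k × Fin k)
  have hD : WellQuasiOrdered (fun a b : D => a = b) := Finite.wellQuasiOrdered _
  have hQD := hq.prod hD
  obtain ⟨m, n, hmn, h1, h2⟩ := hQD (fun i => (lab i (v i),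
    (⟨((G i).rot (v i)).length, Nat.lt_succ_of_le (hk i)⟩, pat k (G i) (v i))))
  refine ⟨m, n, hmn, ?_⟩
  have h3 := congrArg (fun p : D => (p.1 : ℕ)) h2
  have h4 := congrArg (fun p : D => p.2) h2
  exact PE.leaf k (G m) (G n) (v m) (v n) h1 (hk m) h3 h4

/-! ### Gluing along a sequence -/

/-- Composite boundary maps. -/
def compSeq {H : ℕ → Type*} (β : ∀ n, H n → H (n + 1)) : ∀ n, H 0 → H n
  | 0 => id
  | n + 1 => β n ∘ compSeq β n

theorem compSeq_bij {V H : ℕ → Type*} (G : ∀ i, RotGraph (V i) (H i)) (A : ∀ i, Finset (V i))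
    (β : ∀ n, H n → H (n + 1))
    (hβ : ∀ n, Set.BijOn (β n) (bd (G n) (A n) : Set (H n)) (bd (G (n + 1)) (A (n + 1)))) (n : ℕ) :
    Set.BijOn (compSeq β n) (bd (G 0) (A 0) : Set (H 0)) (bd (G n) (A n)) := by
  induction n with
  | zero => exact Set.bijOn_id _
  | succ n ih => exact (hβ n).comp ih

theorem exists_comp {Q : Type*} (q : Q → Q → Prop) [IsPreorder Q q]
    (V H : ℕ → Type*) (G : ∀ i, RotGraph (V i) (H i)) (lab : ∀ i, V i → Q)
    (A : ∀ i, Finset (V i)) (β : ∀ n, H n → H (n + 1))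
    (hβ : ∀ n, PE (fun a b => q (lab n a) (lab (n + 1) b)) (G n) (A n) (G (n + 1)) (A (n + 1))
      (β n)) (m n : ℕ) (hmn : m ≤ n) :
    ∃ γ : H m → H n, PE (fun a b => q (lab m a) (lab n b)) (G m) (A m) (G n) (A n) γ ∧
      ∀ a, γ (compSeq β m a) = compSeq β n a := by
  induction n, hmn using Nat.le_induction with
  | base =>
    exact ⟨id, PE.refl (fun a b => q (lab m a) (lab m b)) (fun v => _root_.refl _) _ _,
      fun a => rfl⟩
  | succ n _ ih =>
    obtain ⟨γ, h1, h2⟩ := ih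
    refine ⟨β n ∘ γ, PE.trans (r₁ := fun a b => q (lab m a) (lab n b))
      (r₂ := fun a b => q (lab n a) (lab (n + 1) b)) (r := fun a b => q (lab m a) (lab (n + 1) b))
      (fun u v w h h' => _root_.trans h h') h1 (hβ n), fun a => ?_⟩
    simp only [Function.comp_apply, h2, compSeq]

theorem PE.bij {r : V → V' → Prop} {G : RotGraph V H} {A : Finset V} {G' : RotGraph V' H'}
    {A' : Finset V'} {β : H → H'} (h : PE r G A G' A' β) :
    Set.BijOn β (bd G A : Set H) (bd G' A' : Set H') := by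
  obtain ⟨f, φ, M, E⟩ := h
  exact E.β_bij

theorem exists_PE_glue {Q : Type*} (q : Q → Q → Prop) [IsPreorder Q q]
    (V H : ℕ → Type*) (G : ∀ i, RotGraph (V i) (H i)) (lab : ∀ i, V i → Q)
    (L R : ∀ i, Finset (V i)) (hLR : ∀ i, Disjoint (L i) (R i))
    (hL : ∀ n, ∃ β, PE (fun a b => q (lab n a) (lab (n + 1) b)) (G n) (L n) (G (n + 1))
      (L (n + 1)) β)
    (hR : ∀ n, ∃ β, PE (fun a b => q (lab n a) (lab (n + 1) b)) (G n) (R n) (G (n + 1))
      (R (n + 1)) β) :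
    ∃ m n, m < n ∧ ∃ β, PE (fun a b => q (lab m a) (lab n b)) (G m) (L m ∪ R m) (G n)
      (L n ∪ R n) β := by
  choose β hβ using hL
  choose δ hδ using hR
  have hBL := compSeq_bij G L β (fun n => (hβ n).bij)
  have hBR := compSeq_bij G R δ (fun n => (hδ n).bij)
  -- the gluing patterns
  set P : ℕ → Finset (H 0 × H 0) := fun n =>
    (bd (G 0) (L 0) ×ˢ bd (G 0) (R 0)).filter
      (fun p => (G n).opp (compSeq β n p.1) = compSeq δ n p.2) with hP
  obtain ⟨m, n, hmn, hPmn⟩ : ∃ m n, m < n ∧ P m = P n := by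
    have hfin : (Set.range P).Finite := by
      refine (Finset.finite_toSet ((bd (G 0) (L 0) ×ˢ bd (G 0) (R 0)).powerset)).subset ?_
      rintro _ ⟨n, rfl⟩
      exact Finset.mem_coe.2 (Finset.mem_powerset.2 (Finset.filter_subset _ _))
    by_contra hcon
    push Not at hcon
    refine Set.infinite_range_of_injective (f := P) ?_ hfin
    intro a b hab
    rcases lt_trichotomy a b with h | h | h
    · exact (hcon a b h hab).elim
    · exact h
    · exact (hcon b a h hab.symm).elim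
  obtain ⟨γ, hγ, hγ'⟩ := exists_comp q V H G lab L β hβ m n hmn.le
  obtain ⟨η, hη, hη'⟩ := exists_comp q V H G lab R δ hδ m n hmn.le
  have hdis : ∀ i v, v ∈ L i → v ∈ R i → False := fun i v h1 h2 =>
    Finset.disjoint_left.1 (hLR i) h1 h2
  have key : ∀ a ∈ bd (G 0) (L 0), ∀ b ∈ bd (G 0) (R 0),
      ((G m).opp (compSeq β m a) = compSeq δ m b ↔ (G n).opp (compSeq β n a) = compSeq δ n b) := by
    intro a ha b hb
    have h1 : (a, b) ∈ P m ↔ (G m).opp (compSeq β m a) = compSeq δ m b := by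
      simp [hP, ha, hb]
    have h2 : (a, b) ∈ P n ↔ (G n).opp (compSeq β n a) = compSeq δ n b := by
      simp [hP, ha, hb]
    rw [← h1, ← h2, hPmn]
  refine ⟨m, n, hmn, _, PE.union (hLR m) (hLR n) hγ hη ?_ ?_ ?_⟩
  · intro h hh hR
    obtain ⟨a, ha, rfl⟩ := (hBL m).surjOn (Finset.mem_coe.2 hh)
    obtain ⟨h1, h2, h3⟩ := mem_bd.1 hh
    have hb : (G m).opp (compSeq β m a) ∈ bd (G m) (R m) := by
      rw [mem_bd, (G m).opp_opp _ h1]
      exact ⟨(G m).opp_mem _ h1, hR, fun h4 => hdis m _ h2 h4⟩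
    obtain ⟨b, hb, hb'⟩ := (hBR m).surjOn (Finset.mem_coe.2 hb)
    rw [← hb', hγ', hη']
    exact (key a (Finset.mem_coe.1 ha) b (Finset.mem_coe.1 hb)).1 hb'.symm
  · intro h hh hR hcon
    obtain ⟨a, ha, rfl⟩ := (hBL m).surjOn (Finset.mem_coe.2 hh)
    have h0 : compSeq β n a ∈ bd (G n) (L n) := Finset.mem_coe.1 ((hBL n).mapsTo ha)
    obtain ⟨h1, h2, h3⟩ := mem_bd.1 h0
    rw [hγ'] at hcon
    have hb : (G n).opp (compSeq β n a) ∈ bd (G n) (R n) := by
      rw [mem_bd, (G n).opp_opp _ h1]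
      exact ⟨(G n).opp_mem _ h1, hcon, fun h4 => hdis n _ h2 h4⟩
    obtain ⟨b, hb, hb'⟩ := (hBR n).surjOn (Finset.mem_coe.2 hb)
    have h5 := (key a (Finset.mem_coe.1 ha) b (Finset.mem_coe.1 hb)).2 hb'.symm
    apply hR
    rw [h5]
    exact (mem_bd.1 (Finset.mem_coe.1 ((hBR m).mapsTo hb))).2.1
  · intro h hh hL' hcon
    obtain ⟨b, hb, rfl⟩ := (hBR m).surjOn (Finset.mem_coe.2 hh)
    have h0 : compSeq δ n b ∈ bd (G n) (R n) := Finset.mem_coe.1 ((hBR n).mapsTo hb)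
    obtain ⟨h1, h2, h3⟩ := mem_bd.1 h0
    rw [hη'] at hcon
    have ha : (G n).opp (compSeq δ n b) ∈ bd (G n) (L n) := by
      rw [mem_bd, (G n).opp_opp _ h1]
      exact ⟨(G n).opp_mem _ h1, hcon, fun h4 => hdis n _ h4 h2⟩
    obtain ⟨a, ha, ha'⟩ := (hBL n).surjOn (Finset.mem_coe.2 ha)
    have h5 : (G n).opp (compSeq β n a) = compSeq δ n b := by
      rw [ha', (G n).opp_opp _ h1]
    have h6 := (key a (Finset.mem_coe.1 ha) b (Finset.mem_coe.1 hb)).2 h5
    apply hL'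
    have h7 : compSeq β m a ∈ bd (G m) (L m) := Finset.mem_coe.1 ((hBL m).mapsTo ha)
    rw [← h6, (G m).opp_opp _ (mem_bd.1 h7).1]
    exact (mem_bd.1 h7).2.1

end RotWqo
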