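import Pool.Agent.Lib.MP_cb4a0f_co.Defs

/-!
# Existence of linked rooted binary trees
-/

open Classical

namespace RotWqo

namespace TL

variable {V : Type*}

/-! ### Sets of nodes -/

lemma set_leaf (v : V) : (Tree.leaf v).set = {v} := by
  simp [Tree.set, Tree.leaves]

lemma set_node (l r : Tree V) : (Tree.node l r).set = l.set ∪ r.set := by
  simp [Tree.set, Tree.leaves]

lemma mem_set {t : Tree V} {v : V} : v ∈ t.set ↔ v ∈ t.leaves := by
  simp [Tree.set]

lemma set_nonempty (t : Tree V) : t.set.Nonempty := by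
  induction t with
  | leaf v => rw [set_leaf]; exact Finset.singleton_nonempty v
  | node l r ihl _ => rw [set_node]; exact ihl.mono Finset.subset_union_left

lemma sub_set {s t : Tree V} (h : IsSub s t) : s.set ⊆ t.set := by
  induction h with
  | refl => exact Finset.Subset.refl _
  | left l r _ ih => rw [set_node]; exact ih.trans Finset.subset_union_left
  | right l r _ ih => rw [set_node]; exact ih.trans Finset.subset_union_right

lemma sub_trans {s t u : Tree V} (h : IsSub s t) (h' : IsSub t u) : IsSub s u := by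
  induction h' with
  | refl => exact h
  | left l r _ ih => exact IsSub.left _ _ ih
  | right l r _ ih => exact IsSub.right _ _ ih

lemma nodup_node {l r : Tree V} : (Tree.node l r).leaves.Nodup ↔
    l.leaves.Nodup ∧ r.leaves.Nodup ∧ Disjoint l.set r.set := by
  simp only [Tree.leaves, List.nodup_append', Finset.disjoint_left, mem_set,
    List.Disjoint]

/-- The sets of two nodes are nested or disjoint. -/
lemma laminar {t : Tree V} (hnd : t.leaves.Nodup) : ∀ {s s' : Tree V}, IsSub s t → IsSub s' t →
    Disjoint s.set s'.set ∨ s.set ⊆ s'.set ∨ s'.set ⊆ s.set := by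
  induction t with
  | leaf v =>
    intro s s' h h'
    cases h
    cases h'
    exact Or.inr (Or.inl (Finset.Subset.refl _))
  | node l r ihl ihr =>
    obtain ⟨h1, h2, h3⟩ := nodup_node.mp hnd
    intro s s' h h'
    cases h with
    | refl => exact Or.inr (Or.inr (sub_set h'))
    | left _ _ h =>
      cases h' with
      | refl => exact Or.inr (Or.inl (sub_set (IsSub.left _ _ h)))
      | left _ _ h' => exact ihl h1 h h'
      | right _ _ h' => exact Or.inl (h3.mono (sub_set h) (sub_set h'))
    | right _ _ h =>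
      cases h' with
      | refl => exact Or.inr (Or.inl (sub_set (IsSub.right _ _ h)))
      | left _ _ h' => exact Or.inl (h3.symm.mono (sub_set h) (sub_set h'))
      | right _ _ h' => exact ihr h2 h h'

/-! ### Counting descending pairs -/

/-- The number of nodes reachable from the root through nodes in `p`. -/
noncomputable def cnt (p : Finset V → Prop) : Tree V → ℕ
  | .leaf v => if p (Tree.leaf v).set then 1 else 0
  | .node l r => if p (Tree.node l r).set then 1 + cnt p l + cnt p r else 0

/-- The number of descending pairs with all nodes in `p`. -/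
noncomputable def dsc (p : Finset V → Prop) : Tree V → ℕ
  | .leaf v => cnt p (.leaf v)
  | .node l r => cnt p (.node l r) + dsc p l + dsc p r

lemma cnt_leaf (p : Finset V → Prop) (v : V) :
    cnt p (.leaf v) = if p (Tree.leaf v).set then 1 else 0 := rfl

lemma cnt_node (p : Finset V → Prop) (l r : Tree V) :
    cnt p (.node l r) = if p (Tree.node l r).set then 1 + cnt p l + cnt p r else 0 := rfl

lemma dsc_leaf (p : Finset V → Prop) (v : V) : dsc p (.leaf v) = cnt p (.leaf v) := rfl

lemma dsc_node (p : Finset V → Prop) (l r : Tree V) :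
    dsc p (.node l r) = cnt p (.node l r) + dsc p l + dsc p r := rfl

lemma cnt_zero {p : Finset V → Prop} {t : Tree V} (h : ¬ p t.set) : cnt p t = 0 := by
  cases t with
  | leaf v => rw [cnt_leaf, if_neg h]
  | node l r => rw [cnt_node, if_neg h]

lemma cnt_pos {p : Finset V → Prop} {t : Tree V} (h : p t.set) : 0 < cnt p t := by
  cases t with
  | leaf v => rw [cnt_leaf, if_pos h]; norm_num
  | node l r => rw [cnt_node, if_pos h]; omega

lemma cnt_le_dsc (p : Finset V → Prop) (t : Tree V) : cnt p t ≤ dsc p t := by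
  cases t with
  | leaf v => rw [dsc_leaf]
  | node l r => rw [dsc_node]; omega

lemma cnt_mono {p q : Finset V → Prop} {t : Tree V}
    (h : ∀ s, IsSub s t → p s.set → q s.set) : cnt p t ≤ cnt q t := by
  induction t with
  | leaf v =>
    by_cases hp : p (Tree.leaf v).set
    · rw [cnt_leaf, cnt_leaf, if_pos hp, if_pos (h _ (IsSub.refl) hp)]
    · rw [cnt_zero hp]; exact Nat.zero_le _
  | node l r ihl ihr =>
    by_cases hp : p (Tree.node l r).set
    · rw [cnt_node, cnt_node, if_pos hp, if_pos (h _ (IsSub.refl) hp)]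
      have h1 := ihl fun s hs => h s (IsSub.left _ _ hs)
      have h2 := ihr fun s hs => h s (IsSub.right _ _ hs)
      omega
    · rw [cnt_zero hp]; exact Nat.zero_le _

lemma dsc_mono {p q : Finset V → Prop} {t : Tree V}
    (h : ∀ s, IsSub s t → p s.set → q s.set) : dsc p t ≤ dsc q t := by
  induction t with
  | leaf v => rw [dsc_leaf, dsc_leaf]; exact cnt_mono h
  | node l r ihl ihr =>
    rw [dsc_node, dsc_node]
    have h0 := cnt_mono h
    have h1 := ihl fun s hs => h s (IsSub.left _ _ hs)
    have h2 := ihr fun s hs => h s (IsSub.right _ _ hs)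
    omega

lemma dsc_eq_zero {p : Finset V → Prop} {t : Tree V} :
    dsc p t = 0 ↔ ∀ s, IsSub s t → ¬ p s.set := by
  induction t with
  | leaf v =>
    rw [dsc_leaf]
    constructor
    · intro h s hs hp
      cases hs
      exact absurd h (cnt_pos hp).ne'
    · intro h
      exact cnt_zero (h _ IsSub.refl)
  | node l r ihl ihr =>
    rw [dsc_node]
    constructor
    · intro h s hs hp
      have h1 : cnt p (.node l r) = 0 := by omega
      have h2 : dsc p l = 0 := by omega
      have h3 : dsc p r = 0 := by omega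
      cases hs with
      | refl => exact absurd h1 (cnt_pos hp).ne'
      | left _ _ hs => exact ihl.mp h2 s hs hp
      | right _ _ hs => exact ihr.mp h3 s hs hp
    · intro h
      rw [cnt_zero (h _ IsSub.refl), ihl.mpr fun s hs => h s (IsSub.left _ _ hs),
        ihr.mpr fun s hs => h s (IsSub.right _ _ hs)]

/-- Two disjoint predicates below a third one: counts from the root. -/
lemma cnt_add {p q g : Finset V → Prop} {t : Tree V}
    (hp : ∀ s, IsSub s t → p s.set → g s.set) (hq : ∀ s, IsSub s t → q s.set → g s.set)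
    (hd : ∀ s, IsSub s t → p s.set → ¬ q s.set) : cnt p t + cnt q t ≤ cnt g t := by
  by_cases h : p t.set
  · rw [cnt_zero (hd t IsSub.refl h), add_zero]
    exact cnt_mono hp
  · rw [cnt_zero h, zero_add]
    exact cnt_mono hq

/-- Two disjoint predicates below a third one: counts of descending pairs. -/
lemma dsc_add {p q g : Finset V → Prop} {t : Tree V}
    (hp : ∀ s, IsSub s t → p s.set → g s.set) (hq : ∀ s, IsSub s t → q s.set → g s.set)
    (hd : ∀ s, IsSub s t → p s.set → ¬ q s.set) : dsc p t + dsc q t ≤ dsc g t := by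
  induction t with
  | leaf v => rw [dsc_leaf, dsc_leaf, dsc_leaf]; exact cnt_add hp hq hd
  | node l r ihl ihr =>
    rw [dsc_node, dsc_node, dsc_node]
    have h0 := cnt_add hp hq hd
    have h1 := ihl (fun s hs => hp s (IsSub.left _ _ hs)) (fun s hs => hq s (IsSub.left _ _ hs))
      (fun s hs => hd s (IsSub.left _ _ hs))
    have h2 := ihr (fun s hs => hp s (IsSub.right _ _ hs)) (fun s hs => hq s (IsSub.right _ _ hs))
      (fun s hs => hd s (IsSub.right _ _ hs))
    omega

/-- Strict inequality if the inequality of the counts from the root is strict. -/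
lemma dsc_add_lt {p q g : Finset V → Prop} {t : Tree V}
    (hp : ∀ s, IsSub s t → p s.set → g s.set) (hq : ∀ s, IsSub s t → q s.set → g s.set)
    (hd : ∀ s, IsSub s t → p s.set → ¬ q s.set) (hlt : cnt p t + cnt q t < cnt g t) :
    dsc p t + dsc q t < dsc g t := by
  cases t with
  | leaf v => rw [dsc_leaf, dsc_leaf, dsc_leaf]; exact hlt
  | node l r =>
    rw [dsc_node, dsc_node, dsc_node]
    have h1 := dsc_add (fun s hs => hp s (IsSub.left l r hs))
      (fun s hs => hq s (IsSub.left _ _ hs)) (fun s hs => hd s (IsSub.left _ _ hs))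
    have h2 := dsc_add (fun s hs => hp s (IsSub.right l r hs))
      (fun s hs => hq s (IsSub.right _ _ hs)) (fun s hs => hd s (IsSub.right _ _ hs))
    omega

/-- Strict inequality if some node is in `g` but in neither `p` nor `q`. -/
lemma dsc_add_lt_of_node {p q g : Finset V → Prop} {s t : Tree V} (hst : IsSub s t)
    (hg : g s.set) (hnp : ¬ p s.set) (hnq : ¬ q s.set)
    (hp : ∀ s, IsSub s t → p s.set → g s.set) (hq : ∀ s, IsSub s t → q s.set → g s.set)
    (hd : ∀ s, IsSub s t → p s.set → ¬ q s.set) :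
    dsc p t + dsc q t < dsc g t := by
  induction hst with
  | refl =>
    refine dsc_add_lt hp hq hd ?_
    rw [cnt_zero hnp, cnt_zero hnq]
    exact cnt_pos hg
  | left l r hs ih =>
    rw [dsc_node, dsc_node, dsc_node]
    have h0 := cnt_add hp hq hd
    have h1 := ih (fun s hs => hp s (IsSub.left l r hs))
      (fun s hs => hq s (IsSub.left _ _ hs)) (fun s hs => hd s (IsSub.left _ _ hs))
    have h2 := dsc_add (fun s hs => hp s (IsSub.right l r hs))
      (fun s hs => hq s (IsSub.right _ _ hs)) (fun s hs => hd s (IsSub.right _ _ hs))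
    omega
  | right l r hs ih =>
    rw [dsc_node, dsc_node, dsc_node]
    have h0 := cnt_add hp hq hd
    have h1 := dsc_add (fun s hs => hp s (IsSub.left l r hs))
      (fun s hs => hq s (IsSub.left _ _ hs)) (fun s hs => hd s (IsSub.left _ _ hs))
    have h2 := ih (fun s hs => hp s (IsSub.right l r hs))
      (fun s hs => hq s (IsSub.right _ _ hs)) (fun s hs => hd s (IsSub.right _ _ hs))
    omega

/-- Strict inequality of the counts from the root, from a path. -/
lemma cnt_lt_of_path {d : Finset V → ℕ} {m : ℕ} {a b : Tree V} (h : PathGe d m a b)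
    {p : Finset V → Prop} {j : ℕ} (hj : j ≤ m) (hnp : ¬ p a.set)
    (hp : ∀ s, IsSub s b → p s.set → j ≤ d s.set) :
    cnt p b < cnt (fun S => j ≤ d S) b := by
  induction h with
  | refl h =>
    rw [cnt_zero hnp]
    exact cnt_pos (hj.trans h)
  | left l r hm _ ih =>
    have h1 := ih fun s hs => hp s (IsSub.left _ _ hs)
    have h2 : cnt p r ≤ cnt (fun S => j ≤ d S) r :=
      cnt_mono fun s hs => hp s (IsSub.right _ _ hs)
    rw [cnt_node (fun S => j ≤ d S), if_pos (hj.trans hm)]
    by_cases hpn : p (Tree.node l r).set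
    · rw [cnt_node, if_pos hpn]
      omega
    · rw [cnt_zero hpn]
      omega
  | right l r hm _ ih =>
    have h1 := ih fun s hs => hp s (IsSub.right _ _ hs)
    have h2 : cnt p l ≤ cnt (fun S => j ≤ d S) l :=
      cnt_mono fun s hs => hp s (IsSub.left _ _ hs)
    rw [cnt_node (fun S => j ≤ d S), if_pos (hj.trans hm)]
    by_cases hpn : p (Tree.node l r).set
    · rw [cnt_node, if_pos hpn]
      omega
    · rw [cnt_zero hpn]
      omega

lemma sub_of_path {d : Finset V → ℕ} {m : ℕ} {a b : Tree V} (h : PathGe d m a b) :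
    IsSub a b := by
  induction h with
  | refl h => exact IsSub.refl
  | left l r _ _ ih => exact IsSub.left _ _ ih
  | right l r _ _ ih => exact IsSub.right _ _ ih

/-! ### Restriction of a tree -/

lemma toFinset_filter (p : V → Prop) (l : List V) :
    (l.filter (fun v => decide (p v))).toFinset = l.toFinset.filter p := by
  ext v
  simp

/-- Restriction of a tree to the leaves in `p`. -/
lemma restrict (p : V → Prop) (t : Tree V) : (∀ v ∈ t.set, ¬ p v) ∨
    ∃ t' : Tree V, t'.leaves = t.leaves.filter (fun v => decide (p v)) ∧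
      ∀ g : Finset V → Prop,
        cnt g t' ≤ cnt (fun S => (S.filter p).Nonempty ∧ g (S.filter p)) t ∧
        dsc g t' ≤ dsc (fun S => (S.filter p).Nonempty ∧ g (S.filter p)) t := by
  induction t with
  | leaf v =>
    by_cases hv : p v
    · refine Or.inr ⟨.leaf v, by simp [Tree.leaves, hv], fun g => ?_⟩
      have h1 : (Finset.filter p (Tree.leaf v).set) = (Tree.leaf v).set := by
        rw [set_leaf]
        ext w
        simp only [Finset.mem_filter, Finset.mem_singleton]
        constructor
        · exact fun h => h.1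
        · rintro rfl
          exact ⟨rfl, hv⟩
      have h2 : cnt g (.leaf v) ≤
          cnt (fun S => (S.filter p).Nonempty ∧ g (S.filter p)) (.leaf v) := by
        refine cnt_mono fun s hs hg => ?_
        cases hs
        rw [h1]
        exact ⟨set_nonempty _, hg⟩
      exact ⟨h2, h2⟩
    · refine Or.inl fun w hw => ?_
      rw [set_leaf, Finset.mem_singleton] at hw
      rwa [hw]
  | node l r ihl ihr =>
    have key : ∀ (t' : Tree V), t'.leaves = (Tree.node l r).leaves.filter (fun v => decide (p v)) →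
        Finset.filter p (Tree.node l r).set = t'.set := by
      intro t' h
      rw [Tree.set, Tree.set, h, toFinset_filter]
    rcases ihl with hl | ⟨l', hl, hl'⟩
    · rcases ihr with hr | ⟨r', hr, hr'⟩
      · left
        intro v hv
        rw [set_node, Finset.mem_union] at hv
        exact hv.elim (hl v) (hr v)
      · right
        have h0 : r'.leaves = (Tree.node l r).leaves.filter (fun v => decide (p v)) := by
          rw [hr, Tree.leaves, List.filter_append]
          have : List.filter (fun v => decide (p v)) l.leaves = [] := by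
            rw [List.filter_eq_nil_iff]
            intro v hv
            simpa using hl v (mem_set.mpr hv)
          rw [this, List.nil_append]
        refine ⟨r', h0, fun g => ?_⟩
        have h1 := (hr' g).1
        have h2 := (hr' g).2
        have h3 : cnt g r' ≤
            cnt (fun S => (S.filter p).Nonempty ∧ g (S.filter p)) (.node l r) := by
          by_cases hg : g r'.set
          · rw [cnt_node, if_pos]
            · omega
            · rw [key r' h0]
              exact ⟨set_nonempty _, hg⟩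
          · rw [cnt_zero hg]
            exact Nat.zero_le _
        refine ⟨h3, ?_⟩
        rw [dsc_node]
        omega
    · rcases ihr with hr | ⟨r', hr, hr'⟩
      · right
        have h0 : l'.leaves = (Tree.node l r).leaves.filter (fun v => decide (p v)) := by
          rw [hl, Tree.leaves, List.filter_append]
          have : List.filter (fun v => decide (p v)) r.leaves = [] := by
            rw [List.filter_eq_nil_iff]
            intro v hv
            simpa using hr v (mem_set.mpr hv)
          rw [this, List.append_nil]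
        refine ⟨l', h0, fun g => ?_⟩
        have h1 := (hl' g).1
        have h2 := (hl' g).2
        have h3 : cnt g l' ≤
            cnt (fun S => (S.filter p).Nonempty ∧ g (S.filter p)) (.node l r) := by
          by_cases hg : g l'.set
          · rw [cnt_node, if_pos]
            · omega
            · rw [key l' h0]
              exact ⟨set_nonempty _, hg⟩
          · rw [cnt_zero hg]
            exact Nat.zero_le _
        refine ⟨h3, ?_⟩
        rw [dsc_node]
        omega
      · right
        have h0 : (Tree.node l' r').leaves =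
            (Tree.node l r).leaves.filter (fun v => decide (p v)) := by
          rw [Tree.leaves, Tree.leaves, hl, hr, List.filter_append]
        refine ⟨.node l' r', h0, fun g => ?_⟩
        have h1 := (hl' g).1
        have h2 := (hl' g).2
        have h4 := (hr' g).1
        have h5 := (hr' g).2
        have h3 : cnt g (.node l' r') ≤
            cnt (fun S => (S.filter p).Nonempty ∧ g (S.filter p)) (.node l r) := by
          by_cases hg : g (Tree.node l' r').set
          · rw [cnt_node, if_pos hg, cnt_node, if_pos]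
            · omega
            · rw [key _ h0]
              exact ⟨set_nonempty _, hg⟩
          · rw [cnt_zero hg]
            exact Nat.zero_le _
        refine ⟨h3, ?_⟩
        rw [dsc_node, dsc_node]
        omega

/-! ### The upper part of the new tree -/

/-- The upper version of a node. -/
def Up (A X : Finset V) (g : Finset V → Prop) (S : Finset V) : Prop :=
  (Disjoint S A ∧ (S \ X).Nonempty ∧ g (S \ X)) ∨ (A ⊆ S ∧ g (S ∪ X))

/-- One step of the construction of the upper part: `l` is the child on the path, `r` the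
sibling, `b` the parent. -/
lemma upper_step (A X : Finset V) (p : V → Prop) (hpX : ∀ v, p v ↔ v ∉ X) (low : Tree V)
    (hlow : low.set = X) {l r l' : Tree V} (hAl : A ⊆ l.set) (hrA : Disjoint r.set A)
    (hl' : l'.leaves.Perm (l.leaves.filter (fun v => decide (p v)) ++ low.leaves))
    (hc : ∀ g : Finset V → Prop, ¬ g X → cnt g l' ≤ cnt (Up A X g) l ∧
      dsc g l' ≤ dsc (Up A X g) l + dsc g low) :
    ∃ b' : Tree V, b'.leaves.Perm
        ((l.leaves ++ r.leaves).filter (fun v => decide (p v)) ++ low.leaves) ∧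
      ∀ g : Finset V → Prop, ¬ g X →
        cnt g b' ≤ (if Up A X g (l.set ∪ r.set) then 1 + cnt (Up A X g) l + cnt (Up A X g) r
          else 0) ∧
        dsc g b' ≤ (if Up A X g (l.set ∪ r.set) then 1 + cnt (Up A X g) l + cnt (Up A X g) r
          else 0) + dsc (Up A X g) l + dsc (Up A X g) r + dsc g low := by
  have hls : l'.set = l.set ∪ X := by
    rw [← hlow]
    ext v
    rw [mem_set, hl'.mem_iff, List.mem_append, List.mem_filter, Finset.mem_union, mem_set, mem_set]
    have h1 := hpX v
    rw [← hlow, mem_set] at h1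
    simp only [decide_eq_true_eq]
    tauto
  rcases restrict p r with hr | ⟨r', hr, hr'⟩
  · have hrX : r.set ⊆ X := by
      intro v hv
      by_contra hvX
      exact hr v hv ((hpX v).mpr hvX)
    refine ⟨l', ?_, fun g hg => ?_⟩
    · refine hl'.trans ?_
      rw [List.filter_append]
      have : List.filter (fun v => decide (p v)) r.leaves = [] := by
        rw [List.filter_eq_nil_iff]
        intro v hv
        simpa using hr v (mem_set.mpr hv)
      rw [this, List.append_nil]
    · have h1 := (hc g hg).1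
      have h2 := (hc g hg).2
      have h3 : cnt g l' ≤ (if Up A X g (l.set ∪ r.set) then
          1 + cnt (Up A X g) l + cnt (Up A X g) r else 0) := by
        by_cases hgl : g l'.set
        · rw [if_pos]
          · omega
          · refine Or.inr ⟨hAl.trans Finset.subset_union_left, ?_⟩
            rw [hls] at hgl
            rwa [Finset.union_assoc, Finset.union_eq_right.mpr hrX]
        · rw [cnt_zero hgl]
          exact Nat.zero_le _
      refine ⟨h3, ?_⟩
      omega
  · have hrs : r'.set = r.set \ X := by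
      ext v
      rw [mem_set, hr, List.mem_filter, Finset.mem_sdiff, mem_set, decide_eq_true_eq, hpX]
    have hbs : (Tree.node l' r').set = l.set ∪ r.set ∪ X := by
      rw [set_node, hls, hrs]
      ext v
      simp only [Finset.mem_union, Finset.mem_sdiff]
      tauto
    refine ⟨.node l' r', ?_, fun g hg => ?_⟩
    · rw [Tree.leaves, hr, List.filter_append]
      refine (hl'.append_right _).trans ?_
      rw [List.append_assoc, List.append_assoc]
      exact List.Perm.append_left _ List.perm_append_comm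
    · have h1 := (hc g hg).1
      have h2 := (hc g hg).2
      have h4 : cnt g r' ≤ cnt (Up A X g) r := by
        refine (hr' g).1.trans (cnt_mono fun s hs hsg => ?_)
        have hf : Finset.filter p s.set = s.set \ X := by
          ext v
          rw [Finset.mem_filter, Finset.mem_sdiff, hpX]
        rw [hf] at hsg
        exact Or.inl ⟨hrA.mono_left (sub_set hs), hsg.1, hsg.2⟩
      have h5 : dsc g r' ≤ dsc (Up A X g) r := by
        refine (hr' g).2.trans (dsc_mono fun s hs hsg => ?_)
        have hf : Finset.filter p s.set = s.set \ X := by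
          ext v
          rw [Finset.mem_filter, Finset.mem_sdiff, hpX]
        rw [hf] at hsg
        exact Or.inl ⟨hrA.mono_left (sub_set hs), hsg.1, hsg.2⟩
      have h3 : cnt g (.node l' r') ≤ (if Up A X g (l.set ∪ r.set) then
          1 + cnt (Up A X g) l + cnt (Up A X g) r else 0) := by
        by_cases hgl : g (Tree.node l' r').set
        · rw [cnt_node, if_pos hgl, if_pos]
          · omega
          · refine Or.inr ⟨hAl.trans Finset.subset_union_left, ?_⟩
            rwa [hbs] at hgl
        · rw [cnt_zero hgl]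
          exact Nat.zero_le _
      refine ⟨h3, ?_⟩
      rw [dsc_node]
      omega

/-- The upper part of the new tree. -/
lemma upper {d : Finset V → ℕ} {m : ℕ} {a b : Tree V} (h : PathGe d m a b)
    (hnd : b.leaves.Nodup) (X : Finset V) (haX : a.set ⊆ X) (p : V → Prop)
    (hpX : ∀ v, p v ↔ v ∉ X) (low : Tree V) (hlow : low.set = X) :
    ∃ b' : Tree V, b'.leaves.Perm (b.leaves.filter (fun v => decide (p v)) ++ low.leaves) ∧
      ∀ g : Finset V → Prop, ¬ g X →
        cnt g b' ≤ cnt (Up a.set X g) b ∧ dsc g b' ≤ dsc (Up a.set X g) b + dsc g low := by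
  induction h with
  | refl h =>
    refine ⟨low, ?_, fun g hg => ⟨?_, Nat.le_add_left _ _⟩⟩
    · have : List.filter (fun v => decide (p v)) a.leaves = [] := by
        rw [List.filter_eq_nil_iff]
        intro v hv
        have := haX (mem_set.mpr hv)
        simpa [hpX] using this
      rw [this, List.nil_append]
    · rw [← hlow] at hg
      rw [cnt_zero hg]
      exact Nat.zero_le _
  | left l r hm hp ih =>
    obtain ⟨h1, h2, h3⟩ := nodup_node.mp hnd
    obtain ⟨l', hl', hc⟩ := ih h1
    have hAl := sub_set (sub_of_path hp)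
    obtain ⟨b', hb', hcb⟩ := upper_step a.set X p hpX low hlow (r := r) hAl
      (h3.symm.mono_right hAl) hl' hc
    refine ⟨b', hb', fun g hg => ?_⟩
    have h4 := hcb g hg
    rw [dsc_node, cnt_node, set_node]
    exact h4
  | right l r hm hp ih =>
    obtain ⟨h1, h2, h3⟩ := nodup_node.mp hnd
    obtain ⟨l', hl', hc⟩ := ih h2
    have hAl := sub_set (sub_of_path hp)
    obtain ⟨b', hb', hcb⟩ := upper_step a.set X p hpX low hlow (r := l) hAl
      (h3.mono_right hAl) hl' hc
    refine ⟨b', hb'.trans ?_, fun g hg => ?_⟩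
    · refine List.Perm.append_right _ ?_
      exact (List.perm_append_comm).filter _
    have h4 := hcb g hg
    rw [dsc_node, cnt_node, set_node, Finset.union_comm l.set r.set]
    refine ⟨h4.1.trans (le_of_eq ?_), h4.2.trans (le_of_eq ?_)⟩
    · split_ifs <;> omega
    · split_ifs <;> omega

/-! ### Replacement of a subtree -/

lemma replace {b b' : Tree V} (hb : b'.leaves.Perm b.leaves) {t : Tree V} (h : IsSub b t) :
    ∃ t' : Tree V, t'.leaves.Perm t.leaves ∧ ∀ g : Finset V → Prop,
      cnt g b' ≤ cnt g b → cnt g t' ≤ cnt g t ∧ (dsc g b' ≤ dsc g b → dsc g t' ≤ dsc g t) ∧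
        (dsc g b' < dsc g b → dsc g t' < dsc g t) := by
  induction h with
  | refl => exact ⟨b', hb, fun g h => ⟨h, id, id⟩⟩
  | left l r _ ih =>
    obtain ⟨l', hl', hc⟩ := ih
    have hset : (Tree.node l' r).set = (Tree.node l r).set := by
      rw [set_node, set_node]
      congr 1
      ext v
      rw [mem_set, mem_set, hl'.mem_iff]
    refine ⟨.node l' r, hl'.append_right _, fun g hg => ?_⟩
    obtain ⟨h1, h2, h3⟩ := hc g hg
    have h4 : cnt g (.node l' r) ≤ cnt g (.node l r) := by
      rw [cnt_node, cnt_node, hset]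
      split_ifs
      · omega
      · exact le_refl _
    refine ⟨h4, fun h => ?_, fun h => ?_⟩
    · have := h2 h
      rw [dsc_node, dsc_node]
      omega
    · have := h3 h
      rw [dsc_node, dsc_node]
      omega
  | right l r _ ih =>
    obtain ⟨r', hr', hc⟩ := ih
    have hset : (Tree.node l r').set = (Tree.node l r).set := by
      rw [set_node, set_node]
      congr 1
      ext v
      rw [mem_set, mem_set, hr'.mem_iff]
    refine ⟨.node l r', hr'.append_left _, fun g hg => ?_⟩
    obtain ⟨h1, h2, h3⟩ := hc g hg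
    have h4 : cnt g (.node l r') ≤ cnt g (.node l r) := by
      rw [cnt_node, cnt_node, hset]
      split_ifs
      · omega
      · exact le_refl _
    refine ⟨h4, fun h => ?_, fun h => ?_⟩
    · have := h2 h
      rw [dsc_node, dsc_node]
      omega
    · have := h3 h
      rw [dsc_node, dsc_node]
      omega

/-! ### Lexicographic minima -/

lemma lex_min {T : Type*} (D : ℕ → T → ℕ) (k : ℕ) : ∀ (P : T → Prop) (t0 : T), P t0 →
    ∃ t, P t ∧ ∀ t', P t' → ∀ k0 ≤ k, (∀ j, k0 ≤ j → j ≤ k → D j t' ≤ D j t) →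
      ¬ D k0 t' < D k0 t := by
  induction k with
  | zero =>
    intro P t0 h0
    obtain ⟨t, ht, hmin⟩ := WellFounded.has_min (InvImage.wf (D 0) wellFounded_lt) {t | P t}
      ⟨t0, h0⟩
    refine ⟨t, ht, fun t' ht' k0 hk0 _ hlt => ?_⟩
    obtain rfl : k0 = 0 := by omega
    exact hmin t' ht' hlt
  | succ k ih =>
    intro P t0 h0
    obtain ⟨t1, ht1, hmin⟩ := WellFounded.has_min (InvImage.wf (D (k + 1)) wellFounded_lt)
      {t | P t} ⟨t0, h0⟩
    obtain ⟨t, ⟨ht, hD⟩, hmin'⟩ := ih (fun t => P t ∧ D (k + 1) t = D (k + 1) t1) t1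
      ⟨ht1, rfl⟩
    refine ⟨t, ht, fun t' ht' k0 hk0 hle hlt => ?_⟩
    have hk1 : ¬ D (k + 1) t' < D (k + 1) t1 := hmin t' ht'
    rcases Nat.lt_or_ge k k0 with h | h
    · obtain rfl : k0 = k + 1 := by omega
      rw [hD] at hlt
      exact hk1 hlt
    · have h1 := hle (k + 1) (by omega) le_rfl
      refine hmin' t' ⟨ht', ?_⟩ k0 h (fun j hj hj' => hle j hj (by omega)) hlt
      omega

/-! ### The improvement step -/

/-- The sets of the nodes. -/
noncomputable def nodes : Tree V → Finset (Finset V)
  | .leaf v => {(Tree.leaf v).set}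
  | .node l r => insert (Tree.node l r).set (nodes l ∪ nodes r)

lemma mem_nodes {t : Tree V} {S : Finset V} : S ∈ nodes t ↔ ∃ s, IsSub s t ∧ s.set = S := by
  induction t with
  | leaf v =>
    rw [nodes, Finset.mem_singleton]
    constructor
    · rintro rfl
      exact ⟨_, IsSub.refl, rfl⟩
    · rintro ⟨s, hs, rfl⟩
      cases hs
      rfl
  | node l r ihl ihr =>
    rw [nodes, Finset.mem_insert, Finset.mem_union, ihl, ihr]
    constructor
    · rintro (rfl | ⟨s, hs, rfl⟩ | ⟨s, hs, rfl⟩)
      · exact ⟨_, IsSub.refl, rfl⟩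
      · exact ⟨s, IsSub.left _ _ hs, rfl⟩
      · exact ⟨s, IsSub.right _ _ hs, rfl⟩
    · rintro ⟨s, hs, rfl⟩
      cases hs with
      | refl => exact Or.inl rfl
      | left _ _ hs => exact Or.inr (Or.inl ⟨s, hs, rfl⟩)
      | right _ _ hs => exact Or.inr (Or.inr ⟨s, hs, rfl⟩)

/-- The lower version of a node is in `g`. -/
def Low (X : Finset V) (g : Finset V → Prop) (S : Finset V) : Prop :=
  (S ∩ X).Nonempty ∧ g (S ∩ X)

/-- A node off the path which is cut by `X`. -/
def CutBy (A X S : Finset V) : Prop := Disjoint S A ∧ (S ∩ X).Nonempty ∧ (S \ X).Nonempty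

lemma choose_X (d : Finset V → ℕ) (A B X0 : Finset V) (cc : Finset V → ℕ) (h1 : A ⊆ X0)
    (h2 : X0 ⊆ B) : ∃ X, A ⊆ X ∧ X ⊆ B ∧ d X ≤ d X0 ∧ (∀ Y, A ⊆ Y → Y ⊆ B → d X ≤ d Y) ∧
      ∀ Y, A ⊆ Y → Y ⊆ B → d Y = d X → cc X ≤ cc Y := by
  obtain ⟨X1, hX1, hmin1⟩ := Finset.exists_min_image (B.powerset.filter (fun Y => A ⊆ Y)) d
    ⟨X0, Finset.mem_filter.mpr ⟨Finset.mem_powerset.mpr h2, h1⟩⟩
  obtain ⟨X, hX, hmin⟩ := Finset.exists_min_image
    ((B.powerset.filter (fun Y => A ⊆ Y)).filter (fun Y => d Y = d X1)) cc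
    ⟨X1, Finset.mem_filter.mpr ⟨hX1, rfl⟩⟩
  obtain ⟨hX, hdX⟩ := Finset.mem_filter.mp hX
  obtain ⟨hXB, hAX⟩ := Finset.mem_filter.mp hX
  refine ⟨X, hAX, Finset.mem_powerset.mp hXB, ?_, fun Y hY1 hY2 => ?_, fun Y hY1 hY2 hY3 => ?_⟩
  · rw [hdX]
    exact hmin1 X0 (Finset.mem_filter.mpr ⟨Finset.mem_powerset.mpr h2, h1⟩)
  · rw [hdX]
    exact hmin1 Y (Finset.mem_filter.mpr ⟨Finset.mem_powerset.mpr hY2, hY1⟩)
  · exact hmin Y (Finset.mem_filter.mpr
      ⟨Finset.mem_filter.mpr ⟨Finset.mem_powerset.mpr hY2, hY1⟩, hY3.trans hdX⟩)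

/-- Fact (1): both versions of a cut node off the path have smaller value. -/
lemma cut_lt (d : Finset V → ℕ)
    (hsub : ∀ X Y : Finset V, d (X ∩ Y) + d (X ∪ Y) ≤ d X + d Y)
    (hpos : ∀ X Y : Finset V, d (X \ Y) + d (Y \ X) ≤ d X + d Y)
    {b : Tree V} (hnd : b.leaves.Nodup) {A X : Finset V} (hAX : A ⊆ X) (hXB : X ⊆ b.set)
    (hmin : ∀ Y, A ⊆ Y → Y ⊆ b.set → d X ≤ d Y)
    (hcc : ∀ Y, A ⊆ Y → Y ⊆ b.set → d Y = d X →
      ((nodes b).filter (CutBy A X)).card ≤ ((nodes b).filter (CutBy A Y)).card)
    {s : Tree V} (hs : IsSub s b) (hc : CutBy A X s.set) :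
    d (s.set ∩ X) < d s.set ∧ d (s.set \ X) < d s.set := by
  obtain ⟨hdis, hne1, hne2⟩ := hc
  have hlt : ∀ Y, A ⊆ Y → Y ⊆ b.set → (∀ t, IsSub t b → CutBy A Y t.set → CutBy A X t.set) →
      ¬ CutBy A Y s.set → d X < d Y := by
    intro Y hAY hYB hsubset hnot
    refine lt_of_le_of_ne (hmin Y hAY hYB) fun heq => ?_
    have h1 := hcc Y hAY hYB heq.symm
    have h2 : (nodes b).filter (CutBy A Y) ⊂ (nodes b).filter (CutBy A X) := by
      rw [Finset.ssubset_iff_of_subset]
      · exact ⟨s.set, Finset.mem_filter.mpr ⟨mem_nodes.mpr ⟨s, hs, rfl⟩, hdis, hne1, hne2⟩,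
          fun h => hnot (Finset.mem_filter.mp h).2⟩
      · intro S hS
        obtain ⟨h3, h4⟩ := Finset.mem_filter.mp hS
        obtain ⟨t, ht, rfl⟩ := mem_nodes.mp h3
        exact Finset.mem_filter.mpr ⟨h3, hsubset t ht h4⟩
    have h3 := Finset.card_lt_card h2
    omega
  have hsB := sub_set hs
  constructor
  · have h1 : d X < d (s.set ∪ X) := by
      refine hlt _ (hAX.trans Finset.subset_union_right) (Finset.union_subset hsB hXB) ?_ ?_
      · rintro t ht ⟨h3, ⟨v, hv⟩, ⟨w, hw⟩⟩
        rw [Finset.mem_inter, Finset.mem_union] at hv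
        rw [Finset.mem_sdiff, Finset.mem_union] at hw
        push Not at hw
        refine ⟨h3, ?_, ⟨w, Finset.mem_sdiff.mpr ⟨hw.1, hw.2.2⟩⟩⟩
        rcases laminar hnd ht hs with h | h | h
        · rcases hv.2 with hv2 | hv2
          · exact absurd hv2 (Finset.disjoint_left.mp h hv.1)
          · exact ⟨v, Finset.mem_inter.mpr ⟨hv.1, hv2⟩⟩
        · exact absurd (h hw.1) hw.2.1
        · exact hne1.mono (Finset.inter_subset_inter_right h)
      · rintro ⟨_, _, ⟨w, hw⟩⟩
        rw [Finset.mem_sdiff, Finset.mem_union] at hw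
        exact hw.2 (Or.inl hw.1)
    have h2 := hsub s.set X
    omega
  · have h1 : d X < d (X \ s.set) := by
      refine hlt _ ?_ (Finset.sdiff_subset.trans hXB) ?_ ?_
      · intro v hv
        exact Finset.mem_sdiff.mpr ⟨hAX hv, fun h => Finset.disjoint_left.mp hdis h hv⟩
      · rintro t ht ⟨h3, ⟨v, hv⟩, ⟨w, hw⟩⟩
        rw [Finset.mem_inter, Finset.mem_sdiff] at hv
        rw [Finset.mem_sdiff, Finset.mem_sdiff] at hw
        refine ⟨h3, ⟨v, Finset.mem_inter.mpr ⟨hv.1, hv.2.1⟩⟩, ?_⟩
        rcases laminar hnd ht hs with h | h | h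
        · refine ⟨w, Finset.mem_sdiff.mpr ⟨hw.1, fun hwX => hw.2 ⟨hwX, ?_⟩⟩⟩
          exact fun hws => Finset.disjoint_left.mp h hw.1 hws
        · exact absurd (h hv.1) hv.2.2
        · exact hne2.mono (Finset.sdiff_subset_sdiff h (Finset.Subset.refl _))
      · rintro ⟨_, ⟨v, hv⟩, _⟩
        rw [Finset.mem_inter, Finset.mem_sdiff] at hv
        exact hv.2.2 hv.1
    have h2 := hpos s.set X
    omega

lemma improve (d : Finset V → ℕ)
    (hsub : ∀ X Y : Finset V, d (X ∩ Y) + d (X ∪ Y) ≤ d X + d Y)
    (hpos : ∀ X Y : Finset V, d (X \ Y) + d (Y \ X) ≤ d X + d Y)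
    {m : ℕ} {a b : Tree V} (hp : PathGe d m a b) (hnd : b.leaves.Nodup) (hb : d b.set = m)
    {X0 : Finset V} (h1 : a.set ⊆ X0) (h2 : X0 ⊆ b.set) (h3 : d X0 < m) :
    ∃ (b' : Tree V) (k0 : ℕ), b'.leaves.Perm b.leaves ∧ (∃ s, IsSub s b ∧ k0 ≤ d s.set) ∧
      (∀ j, k0 ≤ j → cnt (fun S => j ≤ d S) b' ≤ cnt (fun S => j ≤ d S) b ∧
        dsc (fun S => j ≤ d S) b' ≤ dsc (fun S => j ≤ d S) b) ∧
      dsc (fun S => k0 ≤ d S) b' < dsc (fun S => k0 ≤ d S) b := by
  obtain ⟨X, hAX, hXB, hdX, hmin, hcc⟩ := choose_X d a.set b.set X0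
    (fun X => ((nodes b).filter (CutBy a.set X)).card) h1 h2
  have hab := sub_of_path hp
  have hAB := sub_set hab
  have hAne := set_nonempty a
  -- the two parts
  obtain ⟨p, hpX⟩ : ∃ p : V → Prop, ∀ v, p v ↔ v ∉ X := ⟨_, fun _ => Iff.rfl⟩
  obtain ⟨p', hp'X⟩ : ∃ p' : V → Prop, ∀ v, p' v ↔ v ∈ X := ⟨_, fun _ => Iff.rfl⟩
  have hfil : ∀ S : Finset V, S.filter p' = S ∩ X := by
    intro S
    ext v
    rw [Finset.mem_filter, Finset.mem_inter, hp'X]
  obtain ⟨low, hlowl, hlowc⟩ : ∃ t' : Tree V,
      t'.leaves = b.leaves.filter (fun v => decide (p' v)) ∧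
      ∀ g : Finset V → Prop, cnt g t' ≤ cnt (Low X g) b ∧ dsc g t' ≤ dsc (Low X g) b := by
    rcases restrict p' b with h | ⟨t', h4, h5⟩
    · obtain ⟨v, hv⟩ := hAne
      exact absurd ((hp'X v).mpr (hAX hv)) (h v (hAB hv))
    · refine ⟨t', h4, fun g => ?_⟩
      have h6 := h5 g
      have h7 : (fun S : Finset V => (S.filter p').Nonempty ∧ g (S.filter p')) = Low X g := by
        funext S
        rw [hfil]
        rfl
      rw [h7] at h6
      exact h6
  have hlow : low.set = X := by
    ext v
    rw [mem_set, hlowl, List.mem_filter, decide_eq_true_eq, hp'X, ← mem_set]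
    exact ⟨fun h => h.2, fun h => ⟨hXB h, h⟩⟩
  obtain ⟨b', hb'l, hb'c⟩ := upper hp hnd X hAX p hpX low hlow
  have hperm : b'.leaves.Perm b.leaves := by
    refine hb'l.trans ?_
    rw [hlowl]
    have h4 : b.leaves.filter (fun v => decide (p' v)) =
        b.leaves.filter (fun v => !decide (p v)) := by
      refine List.filter_congr fun v _ => ?_
      rw [Bool.eq_iff_iff]
      simp [hpX, hp'X]
    rw [h4]
    exact List.filter_append_perm _ _
  -- pointwise facts
  have hcut : ∀ s, IsSub s b → CutBy a.set X s.set →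
      d (s.set ∩ X) < d s.set ∧ d (s.set \ X) < d s.set := fun s hs hc =>
    cut_lt d hsub hpos hnd hAX hXB hmin hcc hs hc
  have hpath : ∀ s, IsSub s b → a.set ⊆ s.set → d X ≤ d (s.set ∩ X) ∧ d X ≤ d (s.set ∪ X) ∧
      d (s.set ∩ X) + d (s.set ∪ X) ≤ d s.set + d X := fun s hs hc =>
    ⟨hmin _ (Finset.subset_inter hc hAX) (Finset.inter_subset_right.trans hXB),
      hmin _ (hc.trans Finset.subset_union_left) (Finset.union_subset (sub_set hs) hXB),
      hsub _ _⟩
  have hnotdis : ∀ s : Finset V, a.set ⊆ s → ¬ Disjoint s a.set := by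
    intro s hs hd
    obtain ⟨v, hv⟩ := hAne
    exact Finset.disjoint_left.mp hd (hs hv) hv
  have hLg : ∀ j s, IsSub s b → Low X (fun S => j ≤ d S) s.set → j ≤ d s.set := by
    rintro j s hs ⟨hne, hj⟩
    have hj : j ≤ d (s.set ∩ X) := hj
    rcases laminar hnd hs hab with h | h | h
    · by_cases hne2 : (s.set \ X).Nonempty
      · exact hj.trans (hcut s hs ⟨h, hne, hne2⟩).1.le
      · rw [Finset.not_nonempty_iff_eq_empty, Finset.sdiff_eq_empty_iff_subset] at hne2
        rwa [Finset.inter_eq_left.mpr hne2] at hj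
    · rwa [Finset.inter_eq_left.mpr (h.trans hAX)] at hj
    · have := hpath s hs h
      omega
  have hUg : ∀ j s, IsSub s b → Up a.set X (fun S => j ≤ d S) s.set → j ≤ d s.set := by
    rintro j s hs (⟨hdis, hne, hj⟩ | ⟨hA, hj⟩)
    · have hj : j ≤ d (s.set \ X) := hj
      by_cases hne2 : (s.set ∩ X).Nonempty
      · exact hj.trans (hcut s hs ⟨hdis, hne2, hne⟩).2.le
      · rw [Finset.not_nonempty_iff_eq_empty, ← Finset.disjoint_iff_inter_eq_empty] at hne2
        rwa [Finset.sdiff_eq_self_of_disjoint hne2] at hj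
    · have hj : j ≤ d (s.set ∪ X) := hj
      have := hpath s hs hA
      omega
  have hLU : ∀ j s, IsSub s b → d X < j → Low X (fun S => j ≤ d S) s.set →
      Up a.set X (fun S => j ≤ d S) s.set →
        d (s.set ∩ X) < d s.set ∧ ¬ Up a.set X (fun S => d s.set ≤ d S) s.set := by
    rintro j s hs hjq ⟨hne, hj⟩ (⟨hdis, hne2, hj2⟩ | ⟨hA, hj2⟩)
    · have h4 := hcut s hs ⟨hdis, hne, hne2⟩
      refine ⟨h4.1, ?_⟩
      rintro (⟨_, _, h5⟩ | ⟨h5, _⟩)
      · exact absurd h4.2 (not_lt.mpr h5)
      · exact hnotdis _ h5 hdis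
    · have hj : j ≤ d (s.set ∩ X) := hj
      have hj2 : j ≤ d (s.set ∪ X) := hj2
      have h4 := hpath s hs hA
      refine ⟨by omega, ?_⟩
      rintro (⟨h5, _, _⟩ | ⟨_, h5⟩)
      · exact hnotdis _ hA h5
      · have h5 : d s.set ≤ d (s.set ∪ X) := h5
        omega
  -- altered nodes
  obtain ⟨Alt, hAlt⟩ : ∃ Alt : Finset V → Prop, ∀ S, Alt S ↔
      ¬ Low X (fun T => d S ≤ d T) S ∧ ¬ Up a.set X (fun T => d S ≤ d T) S :=
    ⟨_, fun _ => Iff.rfl⟩
  have hnb : ∀ j s, IsSub s b → max (((nodes b).filter Alt).sup d) (d X + 1) ≤ j →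
      Up a.set X (fun S => j ≤ d S) s.set → ¬ Low X (fun S => j ≤ d S) s.set := by
    intro j s hs hj hU hL
    obtain ⟨h4, h5⟩ := hLU j s hs (by omega) hL hU
    have h6 : Alt s.set := (hAlt _).mpr ⟨fun h => absurd h4 (not_lt.mpr h.2), h5⟩
    have h7 : d s.set ≤ ((nodes b).filter Alt).sup d :=
      Finset.le_sup (f := d) (Finset.mem_filter.mpr ⟨mem_nodes.mpr ⟨s, hs, rfl⟩, h6⟩)
    have h8 : j ≤ d (s.set ∩ X) := hL.2
    omega
  have hall : ∀ j, d X + 1 ≤ j → cnt (fun S => j ≤ d S) b' ≤
      cnt (Up a.set X (fun S => j ≤ d S)) b ∧ dsc (fun S => j ≤ d S) b' ≤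
        dsc (Up a.set X (fun S => j ≤ d S)) b + dsc (Low X (fun S => j ≤ d S)) b := by
    intro j hj
    have h4 := hb'c (fun S => j ≤ d S) (by omega)
    have h5 := hlowc (fun S => j ≤ d S)
    exact ⟨h4.1, h4.2.trans (Nat.add_le_add_left h5.2 _)⟩
  refine ⟨b', max (((nodes b).filter Alt).sup d) (d X + 1), hperm, ?_, ?_, ?_⟩
  · rcases le_total (((nodes b).filter Alt).sup d) (d X + 1) with h | h
    · rw [max_eq_right h]
      exact ⟨b, IsSub.refl, by omega⟩
    · rw [max_eq_left h]
      have hne : ((nodes b).filter Alt).Nonempty := by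
        rw [Finset.nonempty_iff_ne_empty]
        intro h4
        rw [h4, Finset.sup_empty] at h
        simp at h
      obtain ⟨S, hS, hS2⟩ := Finset.exists_mem_eq_sup _ hne d
      obtain ⟨s, hs, rfl⟩ := mem_nodes.mp (Finset.mem_filter.mp hS).1
      exact ⟨s, hs, hS2.le⟩
  · intro j hj
    have h4 := hall j (by omega)
    refine ⟨h4.1.trans (cnt_mono fun s hs => hUg j s hs), h4.2.trans ?_⟩
    exact dsc_add (fun s hs => hUg j s hs) (fun s hs => hLg j s hs)
      (fun s hs => hnb j s hs hj)
  · have h4 := hall (max (((nodes b).filter Alt).sup d) (d X + 1)) (le_max_right _ _)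
    refine lt_of_le_of_lt h4.2 ?_
    rcases le_or_gt (((nodes b).filter Alt).sup d) (d X) with h | h
    · have h5 : max (((nodes b).filter Alt).sup d) (d X + 1) = d X + 1 := by omega
      rw [h5] at hnb ⊢
      refine dsc_add_lt (fun s hs => hUg _ s hs) (fun s hs => hLg _ s hs)
        (fun s hs => hnb _ s hs le_rfl) ?_
      have h6 : ¬ Low X (fun S => d X + 1 ≤ d S) b.set := by
        rintro ⟨_, h7⟩
        have h7 : d X + 1 ≤ d (b.set ∩ X) := h7
        rw [Finset.inter_eq_right.mpr hXB] at h7
        omega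
      rw [cnt_zero h6, add_zero]
      refine cnt_lt_of_path hp (by omega) ?_ (fun s hs => hUg _ s hs)
      rintro (⟨h7, _, _⟩ | ⟨_, h7⟩)
      · exact hnotdis _ (Finset.Subset.refl _) h7
      · have h7 : d X + 1 ≤ d (a.set ∪ X) := h7
        rw [Finset.union_eq_right.mpr hAX] at h7
        omega
    · have h5 : max (((nodes b).filter Alt).sup d) (d X + 1) = ((nodes b).filter Alt).sup d := by
        omega
      rw [h5] at hnb ⊢
      have hne : ((nodes b).filter Alt).Nonempty := by
        rw [Finset.nonempty_iff_ne_empty]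
        intro h4
        rw [h4, Finset.sup_empty] at h
        simp at h
      obtain ⟨S, hS, hS2⟩ := Finset.exists_mem_eq_sup _ hne d
      obtain ⟨h6, h7⟩ := Finset.mem_filter.mp hS
      obtain ⟨s, hs, rfl⟩ := mem_nodes.mp h6
      rw [hAlt] at h7
      rw [hS2] at hnb ⊢
      exact dsc_add_lt_of_node hs (le_refl _) h7.2 h7.1 (fun s hs => hUg _ s hs)
        (fun s hs => hLg _ s hs) (fun s hs => hnb _ s hs le_rfl)

end TL

/-- Existence of linked trees. -/
theorem exists_linked {V : Type*} (d : Finset V → ℕ)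
    (hsub : ∀ X Y : Finset V, d (X ∩ Y) + d (X ∪ Y) ≤ d X + d Y)
    (hpos : ∀ X Y : Finset V, d (X \ Y) + d (Y \ X) ≤ d X + d Y)
    (k : ℕ) (t : Tree V) (hnd : t.leaves.Nodup) (hk : ∀ s, IsSub s t → d s.set ≤ k) :
    ∃ t' : Tree V, t'.leaves.Nodup ∧ t'.set = t.set ∧ (∀ s, IsSub s t' → d s.set ≤ k) ∧
      Linked d t' := by
  obtain ⟨t', ⟨h1, h2, h3⟩, hmin⟩ := TL.lex_min
    (fun (j : ℕ) (s : Tree V) => TL.dsc (fun S => j ≤ d S) s) k
    (fun s => s.leaves.Nodup ∧ s.set = t.set ∧ ∀ u, IsSub u s → d u.set ≤ k) t ⟨hnd, rfl, hk⟩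
  refine ⟨t', h1, h2, h3, ?_⟩
  intro b a m hb hp hbm ham X hX1 hX2
  by_contra hlt
  have hbnd : b.leaves.Nodup := by
    clear hmin hp hbm hX2 h2 h3
    induction hb with
    | refl => exact h1
    | left l r _ ih => exact ih (TL.nodup_node.mp h1).1
    | right l r _ ih => exact ih (TL.nodup_node.mp h1).2.1
  obtain ⟨b', k0, hperm, ⟨s, hs, hks⟩, hle, hlt'⟩ :=
    TL.improve d hsub hpos hp hbnd hbm hX1 hX2 (not_le.mp hlt)
  obtain ⟨t'', hperm', hc⟩ := TL.replace hperm hb
  have hk0 : k0 ≤ k := hks.trans (h3 s (TL.sub_trans hs hb))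
  refine hmin t'' ⟨?_, ?_, ?_⟩ k0 hk0 (fun j hj hjk => ?_) ?_
  · exact hperm'.nodup_iff.mpr h1
  · rw [← h2]
    ext v
    rw [TL.mem_set, TL.mem_set, hperm'.mem_iff]
  · have h4 : TL.dsc (fun S => k + 1 ≤ d S) t' = 0 := by
      rw [TL.dsc_eq_zero]
      intro s hs
      have := h3 s hs
      omega
    have h5 := hle (k + 1) (by omega)
    have h6 := (hc _ h5.1).2.1 h5.2
    rw [h4, Nat.le_zero, TL.dsc_eq_zero] at h6
    intro u hu
    have := h6 u hu
    omega
  · exact (hc _ (hle j hj).1).2.1 (hle j hj).2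
  · exact (hc _ (hle k0 le_rfl).1).2.2 hlt'

end RotWqo
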