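import Pool.Agent.Lib.MP_cb4a0f_co.Defs

/-!
# Module Gen: an embedding of the full pieces is an immersion
-/

open Classical

namespace RotWqo

namespace GenAux

variable {V H V' H' : Type*}

/-- the half-edges used by the branch vertices -/
def Kr (G : RotGraph V H) (φ : H → H') (a : H') : Prop := ∃ h ∈ G.darts, φ h = a

/-- the data of an embedding of full pieces -/
structure Emb (r : V → V' → Prop) (G : RotGraph V H) (G' : RotGraph V' H')
    (f : V → V') (φ : H → H') (M : H' → H' → Prop) : Prop where
  f_mem : ∀ v ∈ G.verts, f v ∈ G'.verts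
  f_rel : ∀ v ∈ G.verts, r v (f v)
  f_inj : Set.InjOn f (G.verts : Set V)
  M_symm : ∀ a b, M a b → M b a
  M_fun : ∀ a b c, M a b → M a c → b = c
  M_mem : ∀ a b, M a b → a ∈ G'.darts
  M_base : ∀ a b, M a b → G'.base b = G'.base a
  M_ker : ∀ a b, M a b → ¬ Kr G φ a
  φ_mem : ∀ h ∈ G.darts, φ h ∈ G'.darts
  φ_base : ∀ h ∈ G.darts, G'.base (φ h) = f (G.base h)
  φ_inj : Set.InjOn φ (G.darts : Set H)
  rot_eq : ∀ v ∈ G.verts, (G'.rot (f v)).filter (fun a => Kr G φ a) ~r (G.rot v).map φ
  nc : ∀ x ∈ G'.verts, NC M ((G'.rot x).filter (fun a => Kr G φ a ∨ ∃ b, M a b))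
  run_in : ∀ h ∈ G.darts, ∃ y, Run G'.opp M (φ h) y ∧ G'.opp y = φ (G.opp h)

lemma ker_iff (G : RotGraph V H) (φ : H → H') (a : H') : Ker G G.verts φ a ↔ Kr G φ a := by
  constructor
  · rintro ⟨h, h1, _, h3⟩; exact ⟨h, h1, h3⟩
  · rintro ⟨h, h1, h3⟩; exact ⟨h, h1, G.base_mem h h1, h3⟩

lemma emb_of_data {r : V → V' → Prop} {G : RotGraph V H} {G' : RotGraph V' H'}
    {β : H → H'} {f : V → V'} {φ : H → H'} {M : H' → H' → Prop}
    (h : PEData r G G.verts G' G'.verts β f φ M) : Emb r G G' f φ M := by
  have e : ∀ a, Ker G G.verts φ a = Kr G φ a := fun a => propext (ker_iff G φ a)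
  refine ⟨h.f_mem, h.f_rel, h.f_inj, h.M_symm, h.M_fun, h.M_mem,
    fun a b hab => (h.M_base a b hab).2, fun a b hab => ?_,
    fun x hx => h.φ_mem x hx (G.base_mem x hx), fun x hx => h.φ_base x hx (G.base_mem x hx),
    fun x hx y hy hxy => h.φ_inj x hx y hy (G.base_mem x hx) (G.base_mem y hy) hxy,
    fun v hv => ?_, fun x hx => ?_,
    fun x hx => h.run_in x hx (G.base_mem x hx) (G.base_mem _ (G.opp_mem x hx))⟩
  · rw [← e]; exact h.M_ker a b hab
  · have := h.rot_eq v hv
    simp only [e] at this
    exact this
  · have := h.nc x hx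
    simp only [e] at this
    exact this

/-! ### Noncrossing lists -/

lemma nc_rot {M : H → H → Prop} {l l' : List H} (hl : NC M l) (h : l' ~r l) : NC M l' := by
  cases hl with
  | done _ h1 => exact NC.done _ (fun a ha => h1 a (h.mem_iff.1 ha))
  | pair _ a b l1 h1 h2 h3 => exact NC.pair _ a b l1 (h.trans h1) h2 h3

lemma rot_filter (p : H → Bool) {l l' : List H} (h : l ~r l') : l.filter p ~r l'.filter p := by
  obtain ⟨n, rfl⟩ := h
  rw [List.rotate_eq_drop_append_take_mod, List.filter_append]
  conv_lhs => rw [← List.take_append_drop (n % l.length) l, List.filter_append]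
  exact List.isRotated_append

lemma nc_filter {M M' : H → H → Prop} (P : H → Prop) [DecidablePred P] (hsub : ∀ a b, M' a b → M a b)
    (hP : ∀ a b, M a b → (M' a b ∧ P a ∧ P b) ∨ (¬ P a ∧ ¬ P b)) {l : List H} (hl : NC M l) :
    NC M' (l.filter (fun a => P a)) := by
  induction hl with
  | done l h1 =>
    refine NC.done _ (fun a ha b hab => ?_)
    exact h1 a (List.mem_of_mem_filter ha) b (hsub a b hab)
  | pair l a b l' h1 h2 h3 ih =>
    have h4 : l.filter (fun a => P a) ~r (a :: b :: l').filter (fun a => P a) := rot_filter _ h1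
    rcases hP a b h2 with ⟨h5, h6, h7⟩ | ⟨h6, h7⟩
    · have e : (a :: b :: l').filter (fun a => P a) = a :: b :: l'.filter (fun a => P a) := by
        rw [List.filter_cons_of_pos (by simpa using h6), List.filter_cons_of_pos (by simpa using h7)]
      rw [e] at h4
      exact NC.pair _ a b _ h4 h5 ih
    · have e : (a :: b :: l').filter (fun a => P a) = l'.filter (fun a => P a) := by
        rw [List.filter_cons_of_neg (by simpa using h6), List.filter_cons_of_neg (by simpa using h7)]
      rw [e] at h4
      exact nc_rot ih h4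

/-! ### Smaller graphs -/

/-- the graph with half-edges `D` and involution `o` -/
noncomputable def sub (G : RotGraph V H) (D : Finset H) (o : H → H) (hD : D ⊆ G.darts)
    (h1 : ∀ h ∈ D, o h ∈ D) (h2 : ∀ h ∈ D, o (o h) = h) (h3 : ∀ h ∈ D, o h ≠ h) :
    RotGraph V H where
  verts := G.verts
  darts := D
  base := G.base
  opp := o
  rot v := (G.rot v).filter (fun x => x ∈ D)
  base_mem h hh := G.base_mem h (hD hh)
  opp_mem := h1
  opp_opp := h2
  opp_ne := h3
  nodup v := (G.nodup v).filter _
  mem_rot v h := by
    rw [List.mem_filter, G.mem_rot]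
    constructor
    · rintro ⟨⟨_, h5⟩, h6⟩; exact ⟨by simpa using h6, h5⟩
    · rintro ⟨h5, h6⟩; exact ⟨⟨hD h5, h6⟩, by simpa using h5⟩

lemma emb_sub {r : V → V' → Prop} {G : RotGraph V H} {G' : RotGraph V' H'}
    {f : V → V'} {φ : H → H'} {M : H' → H' → Prop} (E : Emb r G G' f φ M)
    (D : Finset H') (o : H' → H') (hD : D ⊆ G'.darts)
    (h1 : ∀ h ∈ D, o h ∈ D) (h2 : ∀ h ∈ D, o (o h) = h) (h3 : ∀ h ∈ D, o h ≠ h)
    (hK : ∀ a, Kr G φ a → a ∈ D)
    (hrun : ∀ h ∈ G.darts, ∃ y, Run o (fun a b => M a b ∧ a ∈ D ∧ b ∈ D) (φ h) y ∧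
      o y = φ (G.opp h)) :
    Emb r G (sub G' D o hD h1 h2 h3) f φ (fun a b => M a b ∧ a ∈ D ∧ b ∈ D) := by
  refine ⟨E.f_mem, E.f_rel, E.f_inj, fun a b h => ⟨E.M_symm a b h.1, h.2.2, h.2.1⟩,
    fun a b c h h' => E.M_fun a b c h.1 h'.1, fun a b h => h.2.1,
    fun a b h => E.M_base a b h.1, fun a b h => E.M_ker a b h.1, fun h hh => hK _ ⟨h, hh, rfl⟩,
    E.φ_base, E.φ_inj, fun v hv => ?_, fun x hx => ?_, hrun⟩
  · have e : (((G'.rot (f v)).filter (fun x => x ∈ D)).filter (fun a => Kr G φ a)) =
        (G'.rot (f v)).filter (fun a => Kr G φ a) := by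
      rw [List.filter_filter]
      apply List.filter_congr
      intro a _
      by_cases h : Kr G φ a
      · simp [h, hK a h]
      · simp [h]
    show ((G'.rot (f v)).filter (fun x => x ∈ D)).filter (fun a => Kr G φ a) ~r _
    rw [e]
    exact E.rot_eq v hv
  · show NC _ (((G'.rot x).filter (fun x => x ∈ D)).filter
      (fun a => Kr G φ a ∨ ∃ b, M a b ∧ a ∈ D ∧ b ∈ D))
    have e : (((G'.rot x).filter (fun x => x ∈ D)).filter
        (fun a => Kr G φ a ∨ ∃ b, M a b ∧ a ∈ D ∧ b ∈ D)) =
        ((G'.rot x).filter (fun a => Kr G φ a ∨ ∃ b, M a b)).filter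
          (fun a => Kr G φ a ∨ ∃ b, M a b ∧ a ∈ D ∧ b ∈ D) := by
      rw [List.filter_filter, List.filter_filter]
      apply List.filter_congr
      intro a _
      by_cases h : Kr G φ a ∨ ∃ b, M a b ∧ a ∈ D ∧ b ∈ D
      · have h5 : a ∈ D := by
          rcases h with h | ⟨b, _, h, _⟩
          · exact hK a h
          · exact h
        have h6 : Kr G φ a ∨ ∃ b, M a b := by
          rcases h with h | ⟨b, h, _, _⟩
          · exact Or.inl h
          · exact Or.inr ⟨b, h⟩
        simp only [h5, h6, decide_true]
      · simp only [h, decide_false, Bool.false_and]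
    rw [e]
    refine nc_filter (M := M) (M' := fun a b => M a b ∧ a ∈ D ∧ b ∈ D) (fun a => Kr G φ a ∨ ∃ b, M a b ∧ a ∈ D ∧ b ∈ D)
      (fun a b h => h.1) (fun a b hab => ?_) (E.nc x hx)
    by_cases h : a ∈ D ∧ b ∈ D
    · left
      exact ⟨⟨hab, h⟩, Or.inr ⟨b, hab, h⟩, Or.inr ⟨a, E.M_symm a b hab, h.2, h.1⟩⟩
    · right
      constructor
      · rintro (h5 | ⟨c, h5, h6, h7⟩)
        · exact E.M_ker a b hab h5
        · rw [E.M_fun a c b h5 hab] at h7
          exact h ⟨h6, h7⟩
      · rintro (h5 | ⟨c, h5, h6, h7⟩)
        · exact E.M_ker b a (E.M_symm a b hab) h5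
        · rw [E.M_fun b c a h5 (E.M_symm a b hab)] at h7
          exact h ⟨h7, h6⟩

/-! ### Runs -/

/-- runs after the deletion of an edge with an unused half-edge `z` -/
lemma run_unused {G' : RotGraph V' H'} {M : H' → H' → Prop} (hs : ∀ a b, M a b → M b a)
    (hm : ∀ a b, M a b → a ∈ G'.darts) {z : H'} (hz : z ∈ G'.darts) (hzM : ∀ b, ¬ M z b)
    {x y : H'} (hr : Run G'.opp M x y) :
    x ∈ G'.darts → x ≠ z → G'.opp y ≠ z →
    Run G'.opp (fun a b => M a b ∧ a ∈ (G'.darts.erase z).erase (G'.opp z) ∧
      b ∈ (G'.darts.erase z).erase (G'.opp z)) x y := by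
  induction hr with
  | refl x => intro _ _ _; exact Run.refl x
  | step x z1 y h1 h2 ih =>
    intro hx hxz hyz
    have hz1 : z1 ∈ G'.darts := hm z1 _ (hs _ _ h1)
    have hz1z : z1 ≠ z := by
      rintro rfl
      exact hzM _ (hs _ _ h1)
    have hz1z' : z1 ≠ G'.opp z := by
      intro h
      subst h
      cases h2 with
      | refl => exact hyz (G'.opp_opp z hz)
      | step _ z2 _ h3 _ =>
        rw [G'.opp_opp z hz] at h3
        exact hzM _ h3
    have hox : G'.opp x ∈ G'.darts := G'.opp_mem x hx
    have hox1 : G'.opp x ≠ z := by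
      intro h
      rw [h] at h1
      exact hzM _ h1
    have hox2 : G'.opp x ≠ G'.opp z := by
      intro h
      have := congrArg G'.opp h
      rw [G'.opp_opp x hx, G'.opp_opp z hz] at this
      exact hxz this
    refine Run.step x z1 y ⟨h1, ?_, ?_⟩ (ih hz1 hz1z hyz)
    · simp [hox, hox1, hox2]
    · simp [hz1, hz1z, hz1z']

/-- runs after the deletion of an edge whose two half-edges are matched -/
lemma run_loop {G' : RotGraph V' H'} {M : H' → H' → Prop} (hs : ∀ a b, M a b → M b a)
    (hm : ∀ a b, M a b → a ∈ G'.darts) (hf : ∀ a b c, M a b → M a c → b = c)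
    {a b : H'} (hab : M a b) (ho : G'.opp a = b) {x y : H'} (hr : Run G'.opp M x y) :
    x ∈ G'.darts → x ≠ a → x ≠ b →
    Run G'.opp (fun c d => M c d ∧ c ∈ (G'.darts.erase a).erase (G'.opp a) ∧
      d ∈ (G'.darts.erase a).erase (G'.opp a)) x y := by
  have ha : a ∈ G'.darts := hm _ _ hab
  have hba : M b a := hs _ _ hab
  have ho' : G'.opp b = a := by rw [← ho, G'.opp_opp a ha]
  have hb : b ∈ G'.darts := hm _ _ hba
  induction hr with
  | refl x => intro _ _ _; exact Run.refl x
  | step x z1 y h1 h2 ih =>
    intro hx hxa hxb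
    have hz1 : z1 ∈ G'.darts := hm z1 _ (hs _ _ h1)
    have hox : G'.opp x ∈ G'.darts := G'.opp_mem x hx
    have hoxa : G'.opp x ≠ a := by
      intro h
      have := congrArg G'.opp h
      rw [G'.opp_opp x hx, ho] at this
      exact hxb this
    have hoxb : G'.opp x ≠ b := by
      intro h
      have := congrArg G'.opp h
      rw [G'.opp_opp x hx, ho'] at this
      exact hxa this
    have hz1a : z1 ≠ a := by
      rintro rfl
      exact hoxb (hf z1 _ _ (hs _ _ h1) hab)
    have hz1b : z1 ≠ b := by
      rintro rfl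
      exact hoxa (hf z1 _ _ (hs _ _ h1) hba)
    refine Run.step x z1 y ⟨h1, ?_, ?_⟩ (ih hz1 hz1a hz1b)
    · simp [hox, hoxa, hoxb, ho]
    · simp [hz1, hz1a, hz1b, ho]

/-- the involution after splitting off `a`, `b` -/
noncomputable def so (o : H → H) (a b : H) (x : H) : H :=
  if x = o a then o b else if x = o b then o a else o x

/-- runs after splitting off -/
lemma run_split {G' : RotGraph V' H'} {M : H' → H' → Prop} (hs : ∀ a b, M a b → M b a)
    (hm : ∀ a b, M a b → a ∈ G'.darts) (hf : ∀ a b c, M a b → M a c → b = c)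
    {a b : H'} (hne : a ≠ b) (hab : M a b) (ho : G'.opp a ≠ b) {x y : H'}
    (hr : Run G'.opp M x y) :
    x ∈ G'.darts → G'.opp y ≠ a → G'.opp y ≠ b →
    (x ≠ a → x ≠ b → ∃ y', Run (so G'.opp a b) (fun c d => M c d ∧
      c ∈ (G'.darts.erase a).erase b ∧ d ∈ (G'.darts.erase a).erase b) x y' ∧
      so G'.opp a b y' = G'.opp y) ∧
    (x = b → ∃ y', Run (so G'.opp a b) (fun c d => M c d ∧
      c ∈ (G'.darts.erase a).erase b ∧ d ∈ (G'.darts.erase a).erase b) (G'.opp a) y' ∧
      so G'.opp a b y' = G'.opp y) ∧
    (x = a → ∃ y', Run (so G'.opp a b) (fun c d => M c d ∧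
      c ∈ (G'.darts.erase a).erase b ∧ d ∈ (G'.darts.erase a).erase b) (G'.opp b) y' ∧
      so G'.opp a b y' = G'.opp y) := by
  have ha : a ∈ G'.darts := hm _ _ hab
  have hba : M b a := hs _ _ hab
  have hb : b ∈ G'.darts := hm _ _ hba
  have ho' : G'.opp b ≠ a := by
    intro h
    apply ho
    rw [← h, G'.opp_opp b hb]
  have hoo : G'.opp b ≠ G'.opp a := by
    intro h
    have := congrArg G'.opp h
    rw [G'.opp_opp b hb, G'.opp_opp a ha] at this
    exact hne this.symm
  have so1 : so G'.opp a b (G'.opp a) = G'.opp b := by simp [so]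
  have so2 : so G'.opp a b (G'.opp b) = G'.opp a := by simp [so, hoo]
  have so3 : ∀ x ∈ G'.darts, G'.opp x ≠ a → G'.opp x ≠ b → so G'.opp a b x = G'.opp x := by
    intro x hx h1 h2
    have h3 : x ≠ G'.opp a := by
      rintro rfl
      exact h1 (G'.opp_opp a ha)
    have h4 : x ≠ G'.opp b := by
      rintro rfl
      exact h2 (G'.opp_opp b hb)
    simp [so, h3, h4]
  induction hr with
  | refl x =>
    intro hx h1 h2
    refine ⟨fun _ _ => ⟨x, Run.refl x, so3 x hx h1 h2⟩, fun h => ?_, fun h => ?_⟩
    · subst h
      exact ⟨_, Run.refl _, so1⟩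
    · subst h
      exact ⟨_, Run.refl _, so2⟩
  | step x z1 y h1 h2 ih =>
    intro hx hya hyb
    have hz1 : z1 ∈ G'.darts := hm z1 _ (hs _ _ h1)
    have ih' := ih hz1 hya hyb
    -- a step from a half-edge which is not `a` or `b`
    have key : ∀ c, M c z1 → c ≠ a → c ≠ b → z1 ≠ a ∧ z1 ≠ b ∧ (M c z1 ∧
        c ∈ (G'.darts.erase a).erase b ∧ z1 ∈ (G'.darts.erase a).erase b) := by
      intro c hc hca hcb
      have hz1a : z1 ≠ a := by
        rintro rfl
        exact hcb (hf z1 _ _ (hs _ _ hc) hab)
      have hz1b : z1 ≠ b := by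
        rintro rfl
        exact hca (hf z1 _ _ (hs _ _ hc) hba)
      refine ⟨hz1a, hz1b, hc, ?_, ?_⟩
      · simp [hca, hcb, hm _ _ hc]
      · simp [hz1a, hz1b, hz1]
    refine ⟨fun hxa hxb => ?_, fun h => ?_, fun h => ?_⟩
    · by_cases h3 : G'.opp x = a
      · have e : z1 = b := hf a _ _ (h3 ▸ h1) hab
        have e2 : x = G'.opp a := by rw [← h3, G'.opp_opp x hx]
        rw [e2]
        exact ih'.2.1 e
      · by_cases h4 : G'.opp x = b
        · have e : z1 = a := hf b _ _ (h4 ▸ h1) hba
          have e2 : x = G'.opp b := by rw [← h4, G'.opp_opp x hx]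
          rw [e2]
          exact ih'.2.2 e
        · obtain ⟨k1, k2, k3⟩ := key _ h1 h3 h4
          obtain ⟨y', hy1, hy2⟩ := ih'.1 k1 k2
          refine ⟨y', Run.step x z1 y' ?_ hy1, hy2⟩
          rw [so3 x hx h3 h4]
          exact k3
    · subst h
      obtain ⟨k1, k2, k3⟩ := key _ h1 ho' (G'.opp_ne x hx)
      obtain ⟨y', hy1, hy2⟩ := ih'.1 k1 k2
      refine ⟨y', Run.step _ z1 y' ?_ hy1, hy2⟩
      rw [so1]
      exact k3
    · subst h
      obtain ⟨k1, k2, k3⟩ := key _ h1 (G'.opp_ne x hx) ho
      obtain ⟨y', hy1, hy2⟩ := ih'.1 k1 k2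
      refine ⟨y', Run.step _ z1 y' ?_ hy1, hy2⟩
      rw [so2]
      exact k3

/-- runs stay in the set of half-edges, and end at the start or at a matched half-edge -/
lemma run_end {o : H → H} {M : H → H → Prop} {x y : H} (hr : Run o M x y) :
    y = x ∨ ∃ w, M w y := by
  induction hr with
  | refl x => exact Or.inl rfl
  | step x z1 y h1 h2 ih =>
    rcases ih with rfl | h
    · exact Or.inr ⟨_, h1⟩
    · exact Or.inr h

/-- delete an isolated vertex -/
noncomputable def delV (G : RotGraph V H) (v : V) (hv : G.rot v = []) : RotGraph V H where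
  verts := G.verts.erase v
  darts := G.darts
  base := G.base
  opp := G.opp
  rot := G.rot
  base_mem h hh := by
    rw [Finset.mem_erase]
    refine ⟨?_, G.base_mem h hh⟩
    rintro e
    have := (G.mem_rot v h).2 ⟨hh, e⟩
    rw [hv] at this
    simp at this
  opp_mem := G.opp_mem
  opp_opp := G.opp_opp
  opp_ne := G.opp_ne
  nodup := G.nodup
  mem_rot := G.mem_rot

lemma imm_head {r : V → V' → Prop} {G : RotGraph V H} {G' K : RotGraph V' H'}
    (h : Step G' K) (hK : Imm r G K) : Imm r G G' := by
  obtain ⟨K', h1, h2⟩ := hK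
  exact ⟨K', Relation.ReflTransGen.head h h1, h2⟩

lemma card_erase2 {D : Finset H} {a b : H} (ha : a ∈ D) :
    ((D.erase a).erase b).card < D.card :=
  lt_of_le_of_lt (Finset.card_le_card (Finset.erase_subset _ _)) (Finset.card_erase_lt_of_mem ha)

lemma imm_of_emb {r : V → V' → Prop} {G : RotGraph V H} {f : V → V'} {φ : H → H'} (n : ℕ) :
    ∀ (G' : RotGraph V' H') (M : H' → H' → Prop), G'.darts.card + G'.verts.card < n →
      Emb r G G' f φ M → Imm r G G' := by
  induction n with
  | zero =>
    intro G' M hn E
    exact absurd hn (Nat.not_lt_zero _)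
  | succ n ih =>
    intro G' M hn E
    by_cases hun : ∃ z ∈ G'.darts, ¬ Kr G φ z ∧ ∀ b, ¬ M z b
    · -- an unused half-edge
      obtain ⟨z, hz, hzK, hzM⟩ := hun
      have hKz : ∀ a, Kr G φ a → a ∈ (G'.darts.erase z).erase (G'.opp z) := by
        rintro a ⟨h, hh, rfl⟩
        rw [Finset.mem_erase, Finset.mem_erase]
        refine ⟨?_, fun e => hzK ⟨h, hh, e⟩, E.φ_mem h hh⟩
        intro e
        obtain ⟨y, h1, h2⟩ := E.run_in (G.opp h) (G.opp_mem h hh)
        rw [G.opp_opp h hh, e] at h2
        have hy : y ∈ G'.darts := by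
          rcases run_end h1 with rfl | ⟨w, hw⟩
          · exact E.φ_mem _ (G.opp_mem h hh)
          · exact E.M_mem y w (E.M_symm _ _ hw)
        have hyz : y = z := by
          have := congrArg G'.opp h2
          rwa [G'.opp_opp y hy, G'.opp_opp z hz] at this
        rcases run_end h1 with h3 | ⟨w, hw⟩
        · exact hzK ⟨G.opp h, G.opp_mem h hh, h3.symm.trans hyz⟩
        · exact hzM w (hyz ▸ E.M_symm _ _ hw)
      have hD : (G'.darts.erase z).erase (G'.opp z) ⊆ G'.darts :=
        (Finset.erase_subset _ _).trans (Finset.erase_subset _ _)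
      have h1 : ∀ h ∈ (G'.darts.erase z).erase (G'.opp z),
          G'.opp h ∈ (G'.darts.erase z).erase (G'.opp z) := by
        intro h hh
        rw [Finset.mem_erase, Finset.mem_erase] at hh ⊢
        obtain ⟨k1, k2, k3⟩ := hh
        refine ⟨fun e => k2 ?_, fun e => k1 ?_, G'.opp_mem h k3⟩
        · have := congrArg G'.opp e
          rwa [G'.opp_opp h k3, G'.opp_opp z hz] at this
        · rw [← e, G'.opp_opp h k3]
      have E' := emb_sub E _ G'.opp hD h1 (fun h hh => G'.opp_opp h (hD hh))
        (fun h hh => G'.opp_ne h (hD hh)) hKz (fun h hh => by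
          obtain ⟨y, h1, h2⟩ := E.run_in h hh
          refine ⟨y, run_unused E.M_symm E.M_mem hz hzM h1 (E.φ_mem h hh)
            (fun e => hzK ⟨h, hh, e⟩) ?_, h2⟩
          rw [h2]
          exact fun e => hzK ⟨_, G.opp_mem h hh, e⟩)
      refine imm_head ?_ (ih _ _ ?_ E')
      · exact Step.delEdge z hz rfl rfl ⟨fun _ _ => rfl, fun _ => rfl⟩ (fun _ _ => rfl)
      · have := card_erase2 (b := G'.opp z) hz
        show ((G'.darts.erase z).erase (G'.opp z)).card + G'.verts.card < n
        omega
    · push Not at hun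
      by_cases hM : ∃ a b, M a b
      · -- a matched pair
        obtain ⟨a0, b0, hab0⟩ := hM
        have hx := G'.base_mem a0 (E.M_mem _ _ hab0)
        have hrot : (G'.rot (G'.base a0)).filter (fun a => Kr G φ a ∨ ∃ b, M a b) =
            G'.rot (G'.base a0) := by
          rw [List.filter_eq_self]
          intro a ha
          have ha' := ((G'.mem_rot _ a).1 ha).1
          by_cases hK : Kr G φ a
          · simp [hK]
          · have := hun a ha' hK
            simp [this]
        have hnc := E.nc _ hx
        rw [hrot] at hnc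
        cases hnc with
        | done _ h1 =>
          exact absurd hab0 (h1 a0 ((G'.mem_rot _ _).2 ⟨E.M_mem _ _ hab0, rfl⟩) b0)
        | pair _ a b l' h1 hab _ =>
          have ha : a ∈ G'.darts := E.M_mem _ _ hab
          have hba := E.M_symm _ _ hab
          have hb : b ∈ G'.darts := E.M_mem _ _ hba
          have hne : a ≠ b := by
            have h2 := (h1.nodup_iff).1 (G'.nodup _)
            intro e
            rw [e] at h2
            simp at h2
          have hbase : G'.base a = G'.base a0 := by
            have : a ∈ G'.rot (G'.base a0) := h1.mem_iff.2 (by simp)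
            exact ((G'.mem_rot _ _).1 this).2
          by_cases ho : G'.opp a = b
          · -- delete the loop
            have hKz : ∀ c, Kr G φ c → c ∈ (G'.darts.erase a).erase (G'.opp a) := by
              rintro c ⟨h, hh, rfl⟩
              rw [Finset.mem_erase, Finset.mem_erase]
              refine ⟨fun e => E.M_ker _ _ hba ⟨h, hh, e.trans ho⟩,
                fun e => E.M_ker _ _ hab ⟨h, hh, e⟩, E.φ_mem h hh⟩
            have hD : (G'.darts.erase a).erase (G'.opp a) ⊆ G'.darts :=
              (Finset.erase_subset _ _).trans (Finset.erase_subset _ _)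
            have h1 : ∀ h ∈ (G'.darts.erase a).erase (G'.opp a),
                G'.opp h ∈ (G'.darts.erase a).erase (G'.opp a) := by
              intro h hh
              rw [Finset.mem_erase, Finset.mem_erase] at hh ⊢
              obtain ⟨k1, k2, k3⟩ := hh
              refine ⟨fun e => k2 ?_, fun e => k1 ?_, G'.opp_mem h k3⟩
              · have := congrArg G'.opp e
                rwa [G'.opp_opp h k3, G'.opp_opp a ha] at this
              · rw [← e, G'.opp_opp h k3]
            have E' := emb_sub E _ G'.opp hD h1 (fun h hh => G'.opp_opp h (hD hh))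
              (fun h hh => G'.opp_ne h (hD hh)) hKz (fun h hh => by
                obtain ⟨y, h1, h2⟩ := E.run_in h hh
                refine ⟨y, run_loop E.M_symm E.M_mem E.M_fun hab ho h1 (E.φ_mem h hh)
                  (fun e => E.M_ker _ _ hab ⟨h, hh, e⟩)
                  (fun e => E.M_ker _ _ hba ⟨h, hh, e⟩), h2⟩)
            refine imm_head ?_ (ih _ _ ?_ E')
            · exact Step.delEdge a ha rfl rfl ⟨fun _ _ => rfl, fun _ => rfl⟩ (fun _ _ => rfl)
            · have := card_erase2 (b := G'.opp a) ha
              show ((G'.darts.erase a).erase (G'.opp a)).card + G'.verts.card < n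
              omega
          · -- split off `a` and `b`
            have ho' : G'.opp b ≠ a := by
              intro h
              apply ho
              rw [← h, G'.opp_opp b hb]
            have hoo : G'.opp b ≠ G'.opp a := by
              intro h
              have := congrArg G'.opp h
              rw [G'.opp_opp b hb, G'.opp_opp a ha] at this
              exact hne this.symm
            have so1 : so G'.opp a b (G'.opp a) = G'.opp b := by simp [so]
            have so2 : so G'.opp a b (G'.opp b) = G'.opp a := by simp [so, hoo]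
            have so3 : ∀ x, x ≠ G'.opp a → x ≠ G'.opp b → so G'.opp a b x = G'.opp x := by
              intro x h3 h4
              simp [so, h3, h4]
            have hoa := G'.opp_ne a ha
            have hob := G'.opp_ne b hb
            have hoam := G'.opp_mem a ha
            have hobm := G'.opp_mem b hb
            have hKz : ∀ c, Kr G φ c → c ∈ (G'.darts.erase a).erase b := by
              rintro c ⟨h, hh, rfl⟩
              rw [Finset.mem_erase, Finset.mem_erase]
              refine ⟨fun e => E.M_ker _ _ hba ⟨h, hh, e⟩,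
                fun e => E.M_ker _ _ hab ⟨h, hh, e⟩, E.φ_mem h hh⟩
            have hD : (G'.darts.erase a).erase b ⊆ G'.darts :=
              (Finset.erase_subset _ _).trans (Finset.erase_subset _ _)
            have hcase : ∀ h ∈ (G'.darts.erase a).erase b,
                (h = G'.opp a) ∨ (h = G'.opp b) ∨ (h ≠ G'.opp a ∧ h ≠ G'.opp b ∧
                  h ∈ G'.darts ∧ G'.opp h ≠ a ∧ G'.opp h ≠ b ∧
                  G'.opp h ≠ G'.opp a ∧ G'.opp h ≠ G'.opp b) := by
              intro h hh
              rw [Finset.mem_erase, Finset.mem_erase] at hh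
              obtain ⟨k1, k2, k3⟩ := hh
              by_cases e1 : h = G'.opp a
              · exact Or.inl e1
              by_cases e2 : h = G'.opp b
              · exact Or.inr (Or.inl e2)
              refine Or.inr (Or.inr ⟨e1, e2, k3, ?_, ?_, ?_, ?_⟩)
              · intro e; apply e1; rw [← e, G'.opp_opp h k3]
              · intro e; apply e2; rw [← e, G'.opp_opp h k3]
              · intro e
                have := congrArg G'.opp e
                rw [G'.opp_opp h k3, G'.opp_opp a ha] at this
                exact k2 this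
              · intro e
                have := congrArg G'.opp e
                rw [G'.opp_opp h k3, G'.opp_opp b hb] at this
                exact k1 this
            have h1' : ∀ h ∈ (G'.darts.erase a).erase b,
                so G'.opp a b h ∈ (G'.darts.erase a).erase b := by
              intro h hh
              rcases hcase h hh with rfl | rfl | ⟨e1, e2, k3, e3, e4, e5, e6⟩
              · rw [so1]; simp [hob, ho', hobm]
              · rw [so2]; simp [ho, hoa, hoam]
              · rw [so3 h e1 e2]; simp [e3, e4, G'.opp_mem h k3]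
            have h2' : ∀ h ∈ (G'.darts.erase a).erase b,
                so G'.opp a b (so G'.opp a b h) = h := by
              intro h hh
              rcases hcase h hh with rfl | rfl | ⟨e1, e2, k3, e3, e4, e5, e6⟩
              · rw [so1, so2]
              · rw [so2, so1]
              · rw [so3 h e1 e2, so3 _ e5 e6, G'.opp_opp h k3]
            have h3' : ∀ h ∈ (G'.darts.erase a).erase b, so G'.opp a b h ≠ h := by
              intro h hh
              rcases hcase h hh with rfl | rfl | ⟨e1, e2, k3, e3, e4, e5, e6⟩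
              · rw [so1]; exact hoo
              · rw [so2]; exact hoo.symm
              · rw [so3 h e1 e2]; exact G'.opp_ne h k3
            have E' := emb_sub E _ (so G'.opp a b) hD h1' h2' h3' hKz (fun h hh => by
                obtain ⟨y, h1, h2⟩ := E.run_in h hh
                rw [← h2]
                refine (run_split E.M_symm E.M_mem E.M_fun hne hab ho h1 (E.φ_mem h hh)
                  ?_ ?_).1 (fun e => E.M_ker _ _ hab ⟨h, hh, e⟩)
                  (fun e => E.M_ker _ _ hba ⟨h, hh, e⟩)
                · rw [h2]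
                  exact fun e => E.M_ker _ _ hab ⟨_, G.opp_mem h hh, e⟩
                · rw [h2]
                  exact fun e => E.M_ker _ _ hba ⟨_, G.opp_mem h hh, e⟩)
            refine imm_head ?_ (ih _ _ ?_ E')
            · refine Step.split a b l' ha ?_ ho rfl rfl ⟨fun _ _ => rfl, fun _ => rfl⟩
                so1 so2 (fun x _ e1 e2 => so3 x e1 e2)
              rw [hbase]
              exact h1
            · have := card_erase2 (b := b) ha
              show ((G'.darts.erase a).erase b).card + G'.verts.card < n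
              omega
      · -- all half-edges are used by branch vertices
        push Not at hM
        have hall : ∀ z ∈ G'.darts, Kr G φ z := by
          intro z hz
          by_contra hK
          obtain ⟨b, hb⟩ := hun z hz hK
          exact hM z b hb
        by_cases hv : ∃ v ∈ G'.verts, ∀ u ∈ G.verts, f u ≠ v
        · -- an isolated vertex
          obtain ⟨v, hv, hvf⟩ := hv
          have hiso : G'.rot v = [] := by
            rw [List.eq_nil_iff_forall_not_mem]
            intro a ha
            obtain ⟨ha1, ha2⟩ := (G'.mem_rot v a).1 ha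
            obtain ⟨h, hh, rfl⟩ := hall a ha1
            rw [E.φ_base h hh] at ha2
            exact hvf _ (G.base_mem h hh) ha2
          have E' : Emb r G (delV G' v hiso) f φ M := by
            refine ⟨fun u hu => ?_, E.f_rel, E.f_inj, E.M_symm, E.M_fun, E.M_mem, E.M_base,
              E.M_ker, E.φ_mem, E.φ_base, E.φ_inj, E.rot_eq,
              fun x hx => E.nc x (Finset.mem_of_mem_erase hx), E.run_in⟩
            show f u ∈ G'.verts.erase v
            exact Finset.mem_erase.2 ⟨hvf u hu, E.f_mem u hu⟩
          refine imm_head ?_ (ih _ _ ?_ E')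
          · refine Step.delVertex v hiso rfl rfl ⟨fun _ _ => rfl, fun w => ?_⟩ (fun _ _ => rfl)
            show G'.rot w = (G'.rot w).filter (fun x => x ∈ G'.darts)
            symm
            rw [List.filter_eq_self]
            intro a ha
            simpa using ((G'.mem_rot w a).1 ha).1
          · have := Finset.card_erase_lt_of_mem hv
            show G'.darts.card + (G'.verts.erase v).card < n
            omega
        · -- isomorphism
          push Not at hv
          refine ⟨G', Relation.ReflTransGen.refl, f, φ, ⟨fun v hv => E.f_mem v hv, E.f_inj, ?_⟩,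
            ⟨fun h hh => E.φ_mem h hh, E.φ_inj, ?_⟩, fun h hh => ⟨E.φ_base h hh, ?_⟩,
            fun v hv' => ?_, E.f_rel⟩
          · intro v hv'
            obtain ⟨u, hu, e⟩ := hv v hv'
            exact ⟨u, hu, e⟩
          · intro z hz
            obtain ⟨h, hh, e⟩ := hall z hz
            exact ⟨h, hh, e⟩
          · obtain ⟨y, h1, h2⟩ := E.run_in h hh
            cases h1 with
            | refl => exact h2
            | step _ z _ h3 _ => exact absurd h3 (hM _ _)
          · have h1 := E.rot_eq v hv'
            have h2 : (G'.rot (f v)).filter (fun a => Kr G φ a) = G'.rot (f v) := by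
              rw [List.filter_eq_self]
              intro a ha
              simpa using hall a ((G'.mem_rot _ a).1 ha).1
            rwa [h2] at h1

end GenAux

/-- An embedding of the full pieces is an immersion. -/
theorem imm_of_PE {V H V' H' : Type*} (r : V → V' → Prop) (G : RotGraph V H)
    (G' : RotGraph V' H') (β : H → H') (h : PE r G G.verts G' G'.verts β) : Imm r G G' := by
  obtain ⟨f, φ, M, h⟩ := h
  exact GenAux.imm_of_emb _ G' M (Nat.lt_succ_self _) (GenAux.emb_of_data h)

end RotWqo
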