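import Pool.Agent.Lib.MP_cb4a0f_co.Defs

/-!
# MP_cb4a0f_co: linked pieces embed

Edge version of Menger's theorem by tight sets, noncrossing transitions at the inner vertices.
-/

open Classical

namespace RotWqo

variable {V H : Type*}

/-! ## Noncrossing matchings of balanced words -/

theorem NC.congr {M M' : H → H → Prop} {l : List H} (h : NC M l)
    (he : ∀ x ∈ l, ∀ y, M x y ↔ M' x y) : NC M' l := by
  induction h with
  | done l h1 => exact NC.done l fun a ha b hab => h1 a ha b ((he a ha b).2 hab)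
  | pair l a b l' hr hM _ ih =>
    have hmem : ∀ x, x ∈ l ↔ x ∈ a :: b :: l' := fun x => hr.mem_iff
    refine NC.pair l a b l' hr ((he a ((hmem a).2 (by simp)) b).1 hM) (ih fun x hx y => ?_)
    exact he x ((hmem x).2 (by simp [hx])) y

theorem lk_adj (p : H → Prop) : ∀ l : List H, (∃ a ∈ l, p a) → (∃ a ∈ l, ¬ p a) →
    ∃ l₁ a b l₂, l = l₁ ++ a :: b :: l₂ ∧ (p a ↔ ¬ p b) := by
  intro l
  induction l with
  | nil => rintro ⟨a, ha, -⟩; simp at ha
  | cons a t ih =>
    rintro ⟨u, hu, hpu⟩ ⟨v, hv, hpv⟩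
    cases t with
    | nil =>
      simp only [List.mem_singleton] at hu hv
      subst hu; subst hv
      exact absurd hpu hpv
    | cons b t =>
      by_cases hab : p a ↔ ¬ p b
      · exact ⟨[], a, b, t, rfl, hab⟩
      · have h1 : ∃ c ∈ b :: t, p c := by
          rcases List.mem_cons.1 hu with rfl | hu
          · refine ⟨b, by simp, ?_⟩
            by_contra hb
            exact hab ⟨fun _ => hb, fun _ => hpu⟩
          · exact ⟨u, hu, hpu⟩
        have h2 : ∃ c ∈ b :: t, ¬ p c := by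
          rcases List.mem_cons.1 hv with rfl | hv
          · refine ⟨b, by simp, fun hb => ?_⟩
            exact hab ⟨fun h => absurd h hpv, fun h => absurd hb h⟩
          · exact ⟨v, hv, hpv⟩
        obtain ⟨l₁, c, d, l₂, e, hcd⟩ := ih h1 h2
        exact ⟨a :: l₁, c, d, l₂, by rw [e]; rfl, hcd⟩

theorem exists_ncm (p : H → Prop) : ∀ (n : ℕ) (l : List H), l.length = n → l.Nodup →
    (l.filter (fun a => p a)).length = (l.filter (fun a => ¬ p a)).length →
    ∃ M : H → H → Prop, (∀ a b, M a b → M b a) ∧ (∀ a b c, M a b → M a c → b = c) ∧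
      (∀ a b, M a b → a ∈ l ∧ b ∈ l ∧ (p a ↔ ¬ p b)) ∧ (∀ a ∈ l, ∃ b, M a b) ∧ NC M l := by
  intro n
  induction n using Nat.strong_induction_on with
  | _ n ih =>
    intro l hl hnd hbal
    by_cases hnil : l = []
    · subst hnil
      refine ⟨fun _ _ => False, by simp, by simp, by simp, by simp, NC.done _ (by simp)⟩
    · obtain ⟨a0, ha0⟩ := List.exists_mem_of_ne_nil l hnil
      have h12 : (∃ a ∈ l, p a) ∧ (∃ a ∈ l, ¬ p a) := by
        by_cases hp : p a0
        · refine ⟨⟨a0, ha0, hp⟩, ?_⟩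
          have h1 : 0 < (l.filter (fun a => p a)).length :=
            List.length_pos_of_mem (List.mem_filter.2 ⟨ha0, by simpa using hp⟩)
          rw [hbal] at h1
          obtain ⟨b, hb⟩ := List.exists_mem_of_length_pos h1
          rw [List.mem_filter] at hb
          exact ⟨b, hb.1, by simpa using hb.2⟩
        · refine ⟨?_, ⟨a0, ha0, hp⟩⟩
          have h1 : 0 < (l.filter (fun a => ¬ p a)).length :=
            List.length_pos_of_mem (List.mem_filter.2 ⟨ha0, by simpa using hp⟩)
          rw [← hbal] at h1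
          obtain ⟨b, hb⟩ := List.exists_mem_of_length_pos h1
          rw [List.mem_filter] at hb
          exact ⟨b, hb.1, by simpa using hb.2⟩
      obtain ⟨l₁, a, b, l₂, rfl, hab⟩ := lk_adj p l h12.1 h12.2
      have hrot : l₁ ++ a :: b :: l₂ ~r a :: b :: (l₂ ++ l₁) := by
        have := List.isRotated_append (l := l₁) (l' := a :: b :: l₂)
        simpa using this
      have hnd2 : (a :: b :: (l₂ ++ l₁)).Nodup := hrot.nodup_iff.1 hnd
      rw [List.nodup_cons, List.nodup_cons] at hnd2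
      obtain ⟨ha, hb, hnd'⟩ := hnd2
      have hbal' : ((l₂ ++ l₁).filter (fun a => p a)).length =
          ((l₂ ++ l₁).filter (fun a => ¬ p a)).length := by
        by_cases hpa : p a
        · have hpb : ¬ p b := hab.1 hpa
          simp [List.filter_append, hpa, hpb] at hbal ⊢
          omega
        · have hpb : p b := by
            by_contra h
            exact hpa (hab.2 h)
          simp [List.filter_append, hpa, hpb] at hbal ⊢
          omega
      have hlen : (l₂ ++ l₁).length < n := by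
        rw [← hl]; simp; omega
      obtain ⟨M, hs, hf, hm, he, hnc⟩ := ih _ hlen (l₂ ++ l₁) rfl hnd' hbal'
      have hab' : a ≠ b := fun h => ha (by rw [h]; simp)
      have ha' : a ∉ l₂ ++ l₁ := fun h => ha (List.mem_cons_of_mem _ h)
      have hMa : ∀ x, ¬ M a x := fun x h => ha' (hm _ _ h).1
      have hMb : ∀ x, ¬ M b x := fun x h => hb (hm _ _ h).1
      have hMa' : ∀ x, ¬ M x a := fun x h => ha' (hm _ _ h).2.1
      have hMb' : ∀ x, ¬ M x b := fun x h => hb (hm _ _ h).2.1
      have hmem : ∀ x, x ∈ l₁ ++ a :: b :: l₂ ↔ x = a ∨ x = b ∨ x ∈ l₂ ++ l₁ := by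
        intro x; rw [hrot.mem_iff]; simp
      refine ⟨fun x y => M x y ∨ (x = a ∧ y = b) ∨ (x = b ∧ y = a), ?_, ?_, ?_, ?_, ?_⟩
      · rintro x y (h | ⟨rfl, rfl⟩ | ⟨rfl, rfl⟩)
        · exact Or.inl (hs _ _ h)
        · exact Or.inr (Or.inr ⟨rfl, rfl⟩)
        · exact Or.inr (Or.inl ⟨rfl, rfl⟩)
      · rintro x y z (h | ⟨rfl, rfl⟩ | ⟨rfl, rfl⟩) (h' | ⟨h1, h2⟩ | ⟨h1, h2⟩)
        · exact hf _ _ _ h h'
        · subst h1; exact absurd h (hMa _)
        · subst h1; exact absurd h (hMb _)
        · exact absurd h' (hMa _)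
        · exact h2.symm
        · exact absurd h1 hab'
        · exact absurd h' (hMb _)
        · exact absurd h1.symm hab'
        · exact h2.symm
      · rintro x y (h | ⟨rfl, rfl⟩ | ⟨rfl, rfl⟩)
        · obtain ⟨h1, h2, h3⟩ := hm _ _ h
          exact ⟨(hmem x).2 (Or.inr (Or.inr h1)), (hmem y).2 (Or.inr (Or.inr h2)), h3⟩
        · exact ⟨(hmem _).2 (Or.inl rfl), (hmem _).2 (Or.inr (Or.inl rfl)), hab⟩
        · refine ⟨(hmem _).2 (Or.inr (Or.inl rfl)), (hmem _).2 (Or.inl rfl), ?_⟩
          tauto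
      · intro x hx
        rcases (hmem x).1 hx with rfl | rfl | hx
        · exact ⟨b, Or.inr (Or.inl ⟨rfl, rfl⟩)⟩
        · exact ⟨a, Or.inr (Or.inr ⟨rfl, rfl⟩)⟩
        · obtain ⟨y, hy⟩ := he x hx
          exact ⟨y, Or.inl hy⟩
      · refine NC.pair _ a b (l₂ ++ l₁) hrot (Or.inr (Or.inl ⟨rfl, rfl⟩)) (hnc.congr ?_)
        intro x hx y
        have hxa : x ≠ a := fun h => ha' (h ▸ hx)
        have hxb : x ≠ b := fun h => hb (h ▸ hx)
        constructor
        · exact Or.inl
        · rintro (h | ⟨h, -⟩ | ⟨h, -⟩)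
          · exact h
          · exact absurd h hxa
          · exact absurd h hxb

/-! ## Cuts of a symmetric set of half-edges -/

/-- The half-edges of `U` leaving `X`. -/
noncomputable def lkOut (G : RotGraph V H) (U : Finset H) (X : Finset V) : Finset H :=
  U.filter (fun h => G.base h ∈ X ∧ G.base (G.opp h) ∉ X)

theorem mem_lkOut {G : RotGraph V H} {U : Finset H} {X : Finset V} {h : H} :
    h ∈ lkOut G U X ↔ h ∈ U ∧ G.base h ∈ X ∧ G.base (G.opp h) ∉ X := by
  simp [lkOut]

theorem lk_submod (G : RotGraph V H) (U : Finset H) (X Y : Finset V) :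
    (lkOut G U (X ∩ Y)).card + (lkOut G U (X ∪ Y)).card
      + (U.filter (fun h => (G.base h ∈ X ∧ G.base h ∉ Y) ∧
          G.base (G.opp h) ∈ Y ∧ G.base (G.opp h) ∉ X)).card
      + (U.filter (fun h => (G.base h ∈ Y ∧ G.base h ∉ X) ∧
          G.base (G.opp h) ∈ X ∧ G.base (G.opp h) ∉ Y)).card
      = (lkOut G U X).card + (lkOut G U Y).card := by
  simp only [lkOut, Finset.card_filter, ← Finset.sum_add_distrib]
  refine Finset.sum_congr rfl fun h _ => ?_
  by_cases h1 : G.base h ∈ X <;> by_cases h2 : G.base h ∈ Y <;>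
    by_cases h3 : G.base (G.opp h) ∈ X <;> by_cases h4 : G.base (G.opp h) ∈ Y <;>
    simp [h1, h2, h3, h4]

theorem lk_erase (G : RotGraph V H) (U : Finset H) (I : Finset V) (x : V) (hx : x ∈ I) :
    (lkOut G U (I.erase x)).card
      + (U.filter (fun h => G.base h = x ∧ G.base (G.opp h) ∉ I)).card
      = (lkOut G U I).card
      + (U.filter (fun h => (G.base h ∈ I ∧ G.base h ≠ x) ∧ G.base (G.opp h) = x)).card := by
  simp only [lkOut, Finset.card_filter, ← Finset.sum_add_distrib]
  refine Finset.sum_congr rfl fun h _ => ?_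
  by_cases h1 : G.base h = x
  · by_cases h2 : G.base (G.opp h) = x
    · simp [h1, h2, hx]
    · by_cases h3 : G.base (G.opp h) ∈ I <;> simp [h1, h2, h3, hx]
  · by_cases h0 : G.base h ∈ I
    · by_cases h2 : G.base (G.opp h) = x
      · simp [h0, h1, h2, hx]
      · by_cases h3 : G.base (G.opp h) ∈ I <;> simp [h0, h1, h2, h3]
    · simp [h0, h1]

theorem lk_insert (G : RotGraph V H) (U : Finset H) (J : Finset V) (x : V) (hx : x ∉ J) :
    (lkOut G U (insert x J)).card
      + (U.filter (fun h => G.base h ∈ J ∧ G.base (G.opp h) = x)).card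
      = (lkOut G U J).card
      + (U.filter (fun h => G.base h = x ∧ (G.base (G.opp h) ∉ J ∧ G.base (G.opp h) ≠ x))).card := by
  simp only [lkOut, Finset.card_filter, ← Finset.sum_add_distrib]
  refine Finset.sum_congr rfl fun h _ => ?_
  by_cases h1 : G.base h = x
  · by_cases h2 : G.base (G.opp h) = x
    · simp [h1, h2, hx]
    · by_cases h3 : G.base (G.opp h) ∈ J <;> simp [h1, h2, h3, hx]
  · by_cases h0 : G.base h ∈ J
    · by_cases h2 : G.base (G.opp h) = x
      · simp [h0, h1, h2, hx]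
      · by_cases h3 : G.base (G.opp h) ∈ J <;> simp [h0, h1, h2, h3]
    · simp [h0, h1]

/-- Tight sets. -/
def LkTg (G : RotGraph V H) (A B : Finset V) (m : ℕ) (U : Finset H) (X : Finset V) : Prop :=
  A ⊆ X ∧ X ⊆ B ∧ (lkOut G U X).card = m

/-- A minimal system of half-edges joining `A` to the complement of `B`. -/
structure LkSys (G : RotGraph V H) (A B : Finset V) (m : ℕ) (U : Finset H) : Prop where
  sub : U ⊆ G.darts
  opp_mem : ∀ h ∈ U, G.opp h ∈ U
  ge : ∀ X, A ⊆ X → X ⊆ B → m ≤ (lkOut G U X).card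
  tgA : LkTg G A B m U A
  tgB : LkTg G A B m U B
  bdA : bd G A ⊆ U
  bdB : bd G B ⊆ U
  sep : ∀ h ∈ U, ∃ X, LkTg G A B m U X ∧
    ((G.base h ∈ X ∧ G.base (G.opp h) ∉ X) ∨ (G.base (G.opp h) ∈ X ∧ G.base h ∉ X))

theorem exists_lkSys (G : RotGraph V H) (A B : Finset V) (hAB : A ⊆ B) (m : ℕ)
    (hA : cut G A = m) (hBm : cut G B = m)
    (hX : ∀ X : Finset V, A ⊆ X → X ⊆ B → m ≤ cut G X) : ∃ U, LkSys G A B m U := by
  classical
  set S : Finset (Finset H) := G.darts.powerset.filter (fun U => (∀ h ∈ U, G.opp h ∈ U) ∧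
    ∀ X : Finset V, A ⊆ X → X ⊆ B → m ≤ (lkOut G U X).card) with hS
  have hmemS : ∀ U, U ∈ S ↔ U ⊆ G.darts ∧ (∀ h ∈ U, G.opp h ∈ U) ∧
      ∀ X : Finset V, A ⊆ X → X ⊆ B → m ≤ (lkOut G U X).card := by
    intro U
    rw [hS, Finset.mem_filter, Finset.mem_powerset]
  have hne : S.Nonempty := ⟨G.darts, (hmemS _).2 ⟨fun _ h => h, G.opp_mem, hX⟩⟩
  obtain ⟨U, hUS, hmin⟩ := Finset.exists_min_image S Finset.card hne
  obtain ⟨h1, h2, h3⟩ := (hmemS U).1 hUS
  have hsubA : lkOut G U A ⊆ bd G A := Finset.filter_subset_filter _ h1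
  have hsubB : lkOut G U B ⊆ bd G B := Finset.filter_subset_filter _ h1
  have hA' : (bd G A).card = m := hA
  have hB' : (bd G B).card = m := hBm
  have heA : lkOut G U A = bd G A := by
    refine Finset.eq_of_subset_of_card_le hsubA ?_
    rw [hA']
    exact h3 A (fun _ h => h) hAB
  have heB : lkOut G U B = bd G B := by
    refine Finset.eq_of_subset_of_card_le hsubB ?_
    rw [hB']
    exact h3 B hAB (fun _ h => h)
  refine ⟨U, h1, h2, h3, ⟨fun _ h => h, hAB, by rw [heA, hA']⟩,
    ⟨hAB, fun _ h => h, by rw [heB, hB']⟩, ?_, ?_, ?_⟩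
  · rw [← heA]; exact Finset.filter_subset _ _
  · rw [← heB]; exact Finset.filter_subset _ _
  · intro h hh
    by_contra hcon
    push Not at hcon
    have hdart : h ∈ G.darts := h1 hh
    set U' : Finset H := (U.erase h).erase (G.opp h) with hU'
    have hsub : U' ⊆ U := (Finset.erase_subset _ _).trans (Finset.erase_subset _ _)
    have hU'S : U' ∈ S := by
      refine (hmemS U').2 ⟨hsub.trans h1, ?_, ?_⟩
      · intro x hx
        rw [hU', Finset.mem_erase, Finset.mem_erase] at hx ⊢
        obtain ⟨hx1, hx2, hx3⟩ := hx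
        have hxd : x ∈ G.darts := h1 hx3
        refine ⟨fun he => hx2 ?_, fun he => hx1 ?_, h2 x hx3⟩
        · rw [← G.opp_opp x hxd, he, G.opp_opp h hdart]
        · rw [← G.opp_opp x hxd, he]
      · intro X hAX hXB
        have hout : lkOut G U' X = ((lkOut G U X).erase h).erase (G.opp h) := by
          ext y
          simp only [mem_lkOut, hU', Finset.mem_erase]
          tauto
        rw [hout]
        by_cases htg : (lkOut G U X).card = m
        · obtain ⟨c1, c2⟩ := hcon X ⟨hAX, hXB, htg⟩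
          have n1 : h ∉ lkOut G U X := fun hm => (mem_lkOut.1 hm).2.2 (c1 (mem_lkOut.1 hm).2.1)
          have n2 : G.opp h ∉ lkOut G U X := by
            intro hm
            obtain ⟨-, m1, m2⟩ := mem_lkOut.1 hm
            rw [G.opp_opp h hdart] at m2
            exact m2 (c2 m1)
          rw [Finset.erase_eq_of_notMem n1, Finset.erase_eq_of_notMem n2, htg]
        · have hge : m + 1 ≤ (lkOut G U X).card := by
            have := h3 X hAX hXB
            omega
          by_cases n1 : h ∈ lkOut G U X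
          · have n2 : G.opp h ∉ (lkOut G U X).erase h := by
              intro hm
              rw [Finset.mem_erase, mem_lkOut] at hm
              exact (mem_lkOut.1 n1).2.2 hm.2.2.1
            rw [Finset.erase_eq_of_notMem n2, Finset.card_erase_of_mem n1]
            omega
          · rw [Finset.erase_eq_of_notMem n1]
            have := Finset.pred_card_le_card_erase (s := lkOut G U X) (a := G.opp h)
            omega
    have hlt : U'.card < U.card := by
      refine Finset.card_lt_card ⟨hsub, fun hle => ?_⟩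
      have := hle hh
      rw [hU', Finset.mem_erase, Finset.mem_erase] at this
      exact this.2.1 rfl
    exact absurd (hmin U' hU'S) (not_le.2 hlt)

/-- The forward half-edges. -/
def LkF (G : RotGraph V H) (A B : Finset V) (m : ℕ) (U : Finset H) (h : H) : Prop :=
  h ∈ U ∧ ∃ X, LkTg G A B m U X ∧ G.base h ∈ X ∧ G.base (G.opp h) ∉ X

section Sys

variable {G : RotGraph V H} {A B : Finset V} {m : ℕ} {U : Finset H}

theorem LkSys.inter_union (S : LkSys G A B m U) {X Y : Finset V} (hX : LkTg G A B m U X)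
    (hY : LkTg G A B m U Y) : LkTg G A B m U (X ∩ Y) ∧ LkTg G A B m U (X ∪ Y) ∧
    ∀ h ∈ U, ¬ ((G.base h ∈ X ∧ G.base h ∉ Y) ∧ G.base (G.opp h) ∈ Y ∧ G.base (G.opp h) ∉ X) := by
  obtain ⟨x1, x2, x3⟩ := hX
  obtain ⟨y1, y2, y3⟩ := hY
  have a1 : A ⊆ X ∩ Y := Finset.subset_inter x1 y1
  have a2 : X ∩ Y ⊆ B := Finset.inter_subset_left.trans x2
  have a3 : A ⊆ X ∪ Y := x1.trans Finset.subset_union_left
  have a4 : X ∪ Y ⊆ B := Finset.union_subset x2 y2
  have g1 := S.ge _ a1 a2
  have g2 := S.ge _ a3 a4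
  have key := lk_submod G U X Y
  refine ⟨⟨a1, a2, by omega⟩, ⟨a3, a4, by omega⟩, ?_⟩
  have h0 : (U.filter (fun h => (G.base h ∈ X ∧ G.base h ∉ Y) ∧
          G.base (G.opp h) ∈ Y ∧ G.base (G.opp h) ∉ X)).card = 0 := by omega
  rw [Finset.card_eq_zero, Finset.filter_eq_empty_iff] at h0
  exact fun h hh => h0 hh

theorem LkSys.F_or (S : LkSys G A B m U) {h : H} (hh : h ∈ U) :
    LkF G A B m U h ∨ LkF G A B m U (G.opp h) := by
  obtain ⟨X, hX, h1 | h1⟩ := S.sep h hh
  · exact Or.inl ⟨hh, X, hX, h1⟩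
  · refine Or.inr ⟨S.opp_mem h hh, X, hX, h1.1, ?_⟩
    rw [G.opp_opp h (S.sub hh)]
    exact h1.2

theorem LkSys.not_both (S : LkSys G A B m U) {h : H} (h1 : LkF G A B m U h)
    (h2 : LkF G A B m U (G.opp h)) : False := by
  obtain ⟨hh, X, hX, p1, p2⟩ := h1
  obtain ⟨-, Y, hY, q1, q2⟩ := h2
  rw [G.opp_opp h (S.sub hh)] at q2
  exact (S.inter_union hX hY).2.2 h hh ⟨⟨p1, q2⟩, q1, p2⟩

theorem LkSys.enter (S : LkSys G A B m U) {h : H} (h1 : LkF G A B m U h) {Z : Finset V}
    (hZ : LkTg G A B m U Z) (h2 : G.base (G.opp h) ∈ Z) : G.base h ∈ Z := by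
  by_contra h3
  refine S.not_both h1 ⟨S.opp_mem h h1.1, Z, hZ, h2, ?_⟩
  rw [G.opp_opp h (S.sub h1.1)]
  exact h3

theorem LkSys.card_opp (S : LkSys G A B m U) (p q : H → Prop) [DecidablePred p]
    [DecidablePred q] (hpq : ∀ h ∈ U, p h ↔ q (G.opp h)) : (U.filter (fun h => p h)).card =
      (U.filter (fun h => q h)).card := by
  refine Finset.card_bij' (fun h _ => G.opp h) (fun h _ => G.opp h) ?_ ?_ ?_ ?_
  · intro h hh
    rw [Finset.mem_filter] at hh ⊢
    exact ⟨S.opp_mem h hh.1, (hpq h hh.1).1 hh.2⟩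
  · intro h hh
    rw [Finset.mem_filter] at hh ⊢
    refine ⟨S.opp_mem h hh.1, (hpq _ (S.opp_mem h hh.1)).2 ?_⟩
    rw [G.opp_opp h (S.sub hh.1)]
    exact hh.2
  · intro h hh
    exact G.opp_opp h (S.sub (Finset.mem_filter.1 hh).1)
  · intro h hh
    exact G.opp_opp h (S.sub (Finset.mem_filter.1 hh).1)

theorem LkSys.conserve (S : LkSys G A B m U) {x : V} (hxB : x ∈ B) (hxA : x ∉ A) :
    (U.filter (fun h => G.base h = x ∧ LkF G A B m U h)).card =
      (U.filter (fun h => G.base h = x ∧ ¬ LkF G A B m U h)).card := by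
  classical
  apply le_antisymm
  · have hne : (B.powerset.filter (fun X => LkTg G A B m U X ∧ x ∈ X)).Nonempty :=
      ⟨B, by simp [S.tgB, hxB]⟩
    obtain ⟨I, hI, hmin⟩ := Finset.exists_min_image _ Finset.card hne
    rw [Finset.mem_filter] at hI
    obtain ⟨-, hIt, hxI⟩ := hI
    have hsub : ∀ X, LkTg G A B m U X → x ∈ X → I ⊆ X := by
      intro X hX hxX
      have h1 := (S.inter_union hIt hX).1
      have h2 := hmin (I ∩ X) (by
        rw [Finset.mem_filter, Finset.mem_powerset]
        exact ⟨h1.2.1, h1, Finset.mem_inter.2 ⟨hxI, hxX⟩⟩)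
      have h3 : I ∩ X = I := Finset.eq_of_subset_of_card_le Finset.inter_subset_left h2
      rw [← h3]
      exact Finset.inter_subset_right
    have hF : ∀ h, G.base h = x → LkF G A B m U h → G.base (G.opp h) ∉ I := by
      rintro h hb ⟨-, X, hX, p1, p2⟩ h3
      exact p2 (hsub X hX (hb ▸ p1) h3)
    have key := lk_erase G U I x hxI
    have hge : m ≤ (lkOut G U (I.erase x)).card := by
      refine S.ge _ ?_ ((Finset.erase_subset _ _).trans hIt.2.1)
      intro a ha
      exact Finset.mem_erase.2 ⟨fun h => hxA (h ▸ ha), hIt.1 ha⟩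
    have hIm := hIt.2.2
    have c1 : (U.filter (fun h => G.base h = x ∧ LkF G A B m U h)).card ≤
        (U.filter (fun h => G.base h = x ∧ G.base (G.opp h) ∉ I)).card := by
      refine Finset.card_le_card ?_
      intro h hh
      rw [Finset.mem_filter] at hh ⊢
      exact ⟨hh.1, hh.2.1, hF h hh.2.1 hh.2.2⟩
    have c2 : (U.filter (fun h => (G.base h ∈ I ∧ G.base h ≠ x) ∧ G.base (G.opp h) = x)).card =
        (U.filter (fun h => G.base h = x ∧ (G.base (G.opp h) ∈ I ∧ G.base (G.opp h) ≠ x))).card := by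
      refine S.card_opp _ _ ?_
      intro h hh
      rw [G.opp_opp h (S.sub hh)]
      tauto
    have c3 : (U.filter (fun h => G.base h = x ∧
        (G.base (G.opp h) ∈ I ∧ G.base (G.opp h) ≠ x))).card ≤
        (U.filter (fun h => G.base h = x ∧ ¬ LkF G A B m U h)).card := by
      refine Finset.card_le_card ?_
      intro h hh
      rw [Finset.mem_filter] at hh ⊢
      exact ⟨hh.1, hh.2.1, fun hf => hF h hh.2.1 hf hh.2.2.1⟩
    omega
  · have hne : (B.powerset.filter (fun X => LkTg G A B m U X ∧ x ∉ X)).Nonempty :=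
      ⟨A, by simp [S.tgA, hxA, S.tgA.2.1]⟩
    obtain ⟨J, hJ, hmax⟩ := Finset.exists_max_image _ Finset.card hne
    rw [Finset.mem_filter] at hJ
    obtain ⟨-, hJt, hxJ⟩ := hJ
    have hsub : ∀ X, LkTg G A B m U X → x ∉ X → X ⊆ J := by
      intro X hX hxX
      have h1 := (S.inter_union hJt hX).2.1
      have h2 := hmax (J ∪ X) (by
        rw [Finset.mem_filter, Finset.mem_powerset]
        exact ⟨h1.2.1, h1, by rw [Finset.mem_union]; tauto⟩)
      have h3 : J = J ∪ X := Finset.eq_of_subset_of_card_le Finset.subset_union_left h2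
      rw [h3]
      exact Finset.subset_union_right
    have hF : ∀ h ∈ U, G.base h = x → ¬ LkF G A B m U h → G.base (G.opp h) ∈ J := by
      intro h hh hb hf
      obtain ⟨-, X, hX, p1, p2⟩ := (S.F_or hh).resolve_left hf
      rw [G.opp_opp h (S.sub hh), hb] at p2
      exact hsub X hX p2 p1
    have key := lk_insert G U J x hxJ
    have hge : m ≤ (lkOut G U (insert x J)).card := by
      refine S.ge _ (hJt.1.trans (Finset.subset_insert _ _)) ?_
      intro a ha
      rcases Finset.mem_insert.1 ha with rfl | ha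
      · exact hxB
      · exact hJt.2.1 ha
    have hJm := hJt.2.2
    have c1 : (U.filter (fun h => G.base h = x ∧ ¬ LkF G A B m U h)).card ≤
        (U.filter (fun h => G.base h = x ∧ G.base (G.opp h) ∈ J)).card := by
      refine Finset.card_le_card ?_
      intro h hh
      rw [Finset.mem_filter] at hh ⊢
      exact ⟨hh.1, hh.2.1, hF h hh.1 hh.2.1 hh.2.2⟩
    have c2 : (U.filter (fun h => G.base h ∈ J ∧ G.base (G.opp h) = x)).card =
        (U.filter (fun h => G.base h = x ∧ G.base (G.opp h) ∈ J)).card := by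
      refine S.card_opp _ _ ?_
      intro h hh
      rw [G.opp_opp h (S.sub hh)]
      tauto
    have c3 : (U.filter (fun h => G.base h = x ∧
        (G.base (G.opp h) ∉ J ∧ G.base (G.opp h) ≠ x))).card ≤
        (U.filter (fun h => G.base h = x ∧ LkF G A B m U h)).card := by
      refine Finset.card_le_card ?_
      intro h hh
      rw [Finset.mem_filter] at hh ⊢
      refine ⟨hh.1, hh.2.1, ?_⟩
      by_contra hf
      exact hh.2.2.1 (hF h hh.1 hh.2.1 hf)
    omega

end Sys

/-! ## Runs -/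

theorem Run.snoc {opp : H → H} {M : H → H → Prop} {x w y : H} (h : Run opp M x w)
    (hM : M (opp w) y) : Run opp M x y := by
  induction h with
  | refl x => exact Run.step x y y hM (Run.refl y)
  | step x z w h1 _ ih => exact Run.step x z y h1 (ih hM)

theorem Run.tail {opp : H → H} {M : H → H → Prop} {x y : H} (h : Run opp M x y) :
    x = y ∨ ∃ w, Run opp M x w ∧ M (opp w) y := by
  induction h with
  | refl x => exact Or.inl rfl
  | step x z y h1 _ ih =>
    rcases ih with rfl | ⟨w, h2, h3⟩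
    · exact Or.inr ⟨x, Run.refl x, h1⟩
    · exact Or.inr ⟨w, Run.step x z w h1 h2, h3⟩

theorem Run.stay {opp : H → H} {M : H → H → Prop} {P : H → Prop}
    (hM : ∀ a b, M a b → P b) {x y : H} (h : Run opp M x y) (hx : P x) : P y := by
  induction h with
  | refl x => exact hx
  | step x z y h1 _ ih => exact ih (hM _ _ h1)

theorem Run.compare {opp : H → H} {M : H → H → Prop} {D : Finset H}
    (hopp : ∀ h ∈ D, opp (opp h) = h) (hs : ∀ a b, M a b → M b a)
    (hf : ∀ a b c, M a b → M a c → b = c) (hm : ∀ a b, M a b → b ∈ D)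
    {x y : H} (h : Run opp M x y) : x ∈ D → ∀ x' ∈ D, Run opp M x' y →
      Run opp M x x' ∨ Run opp M x' x := by
  induction h with
  | refl x => exact fun _ x' _ h' => Or.inr h'
  | step x z y h1 _ ih =>
    intro hx x' hx' h'
    rcases ih (hm _ _ h1) x' hx' h' with h2 | h2
    · exact Or.inl (Run.step x z x' h1 h2)
    · rcases h2.tail with rfl | ⟨w, h3, h4⟩
      · exact Or.inl (Run.step x _ _ h1 (Run.refl _))
      · have hwD : w ∈ D := h3.stay hm hx'
        have e : opp x = opp w := hf _ _ _ (hs _ _ h1) (hs _ _ h4)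
        have e' : x = w := by rw [← hopp x hx, e, hopp w hwD]
        rw [e']
        exact Or.inr h3

theorem lk_count (G : RotGraph V H) (U : Finset H) (hU : U ⊆ G.darts) (x : V) (p : H → Prop)
    [DecidablePred p] :
    (((G.rot x).filter (fun a => a ∈ U)).filter (fun a => p a)).length =
      (U.filter (fun h => G.base h = x ∧ p h)).card := by
  classical
  have hnd : (((G.rot x).filter (fun a => a ∈ U)).filter (fun a => p a)).Nodup :=
    ((G.nodup x).filter _).filter _
  rw [← List.toFinset_card_of_nodup hnd]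
  congr 1
  ext a
  simp only [List.mem_toFinset, List.mem_filter, decide_eq_true_eq, Finset.mem_filter, G.mem_rot]
  constructor
  · rintro ⟨⟨⟨_, h2⟩, h3⟩, h4⟩
    exact ⟨h3, h2, h4⟩
  · rintro ⟨h1, h2, h3⟩
    exact ⟨⟨⟨hU h1, h2⟩, h1⟩, h3⟩

/-- The turning relation. -/
theorem LkSys.exists_turn {G : RotGraph V H} {A B : Finset V} {m : ℕ} {U : Finset H}
    (S : LkSys G A B m U) : ∃ M : H → H → Prop, (∀ a b, M a b → M b a) ∧
      (∀ a b c, M a b → M a c → b = c) ∧
      (∀ a b, M a b → a ∈ U ∧ b ∈ U ∧ G.base a ∈ B ∧ G.base a ∉ A ∧ G.base b = G.base a ∧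
        (LkF G A B m U a ↔ ¬ LkF G A B m U b)) ∧
      (∀ a ∈ U, G.base a ∈ B → G.base a ∉ A → ∃ b, M a b) ∧
      ∀ x ∈ B, x ∉ A → NC M ((G.rot x).filter (fun a => a ∈ U)) := by
  classical
  have hex : ∀ x : V, ∃ M : H → H → Prop, (∀ a b, M a b → M b a) ∧
      (∀ a b c, M a b → M a c → b = c) ∧
      (∀ a b, M a b → (a ∈ U ∧ G.base a = x) ∧ (b ∈ U ∧ G.base b = x) ∧ x ∈ B ∧ x ∉ A ∧
        (LkF G A B m U a ↔ ¬ LkF G A B m U b)) ∧
      (x ∈ B → x ∉ A → ∀ a ∈ U, G.base a = x → ∃ b, M a b) ∧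
      (x ∈ B → x ∉ A → NC M ((G.rot x).filter (fun a => a ∈ U))) := by
    intro x
    by_cases hx : x ∈ B ∧ x ∉ A
    · obtain ⟨M, m1, m2, m3, m4, m5⟩ := exists_ncm (LkF G A B m U) _
        ((G.rot x).filter (fun a => a ∈ U)) rfl ((G.nodup x).filter _) (by
          rw [lk_count G U S.sub x (LkF G A B m U),
            lk_count G U S.sub x (fun a => ¬ LkF G A B m U a)]
          exact S.conserve hx.1 hx.2)
      have hmem : ∀ a, a ∈ (G.rot x).filter (fun a => a ∈ U) ↔ a ∈ U ∧ G.base a = x := by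
        intro a
        simp only [List.mem_filter, decide_eq_true_eq, G.mem_rot]
        constructor
        · rintro ⟨⟨_, h2⟩, h3⟩
          exact ⟨h3, h2⟩
        · rintro ⟨h1, h2⟩
          exact ⟨⟨S.sub h1, h2⟩, h1⟩
      refine ⟨M, m1, m2, ?_, ?_, fun _ _ => m5⟩
      · intro a b hab
        obtain ⟨p1, p2, p3⟩ := m3 a b hab
        exact ⟨(hmem a).1 p1, (hmem b).1 p2, hx.1, hx.2, p3⟩
      · intro _ _ a ha hb
        exact m4 a ((hmem a).2 ⟨ha, hb⟩)
    · refine ⟨fun _ _ => False, by simp, by simp, by simp, ?_, ?_⟩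
      · intro h1 h2; exact absurd ⟨h1, h2⟩ hx
      · intro h1 h2; exact absurd ⟨h1, h2⟩ hx
  choose M m1 m2 m3 m4 m5 using hex
  refine ⟨fun a b => M (G.base a) a b, ?_, ?_, ?_, ?_, ?_⟩
  · intro a b hab
    have h := m3 _ a b hab
    rw [h.2.1.2]
    exact m1 _ _ _ hab
  · intro a b c hab hac
    exact m2 _ _ _ _ hab hac
  · intro a b hab
    have h := m3 _ a b hab
    exact ⟨h.1.1, h.2.1.1, h.2.2.1, h.2.2.2.1, h.2.1.2, h.2.2.2.2⟩
  · intro a ha h1 h2
    exact m4 _ h1 h2 a ha rfl
  · intro x hx hxA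
    refine (m5 x hx hxA).congr ?_
    intro y hy z
    rw [List.mem_filter, G.mem_rot] at hy
    rw [hy.1.2]

/-- Linked pieces embed. -/
theorem exists_link (r : V → V → Prop) (hr : ∀ v, r v v) (G : RotGraph V H)
    (A B : Finset V) (hAB : A ⊆ B) (_hB : B ⊆ G.verts) (m : ℕ) (hA : cut G A = m)
    (hBm : cut G B = m) (hX : ∀ X : Finset V, A ⊆ X → X ⊆ B → m ≤ cut G X) :
    ∃ β, PE r G A G B β := by
  classical
  obtain ⟨U, S⟩ := exists_lkSys G A B hAB m hA hBm hX
  obtain ⟨M, m1, m2, m3, m4, m5⟩ := S.exists_turn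
  have hMU : ∀ a b, M a b → b ∈ U := fun a b h => (m3 a b h).2.1
  -- the next half-edge
  have hnext : ∀ a, LkF G A B m U a → G.base (G.opp a) ∈ B → G.base (G.opp a) ∉ A →
      ∃ b, M (G.opp a) b ∧ LkF G A B m U b ∧ G.base b = G.base (G.opp a) := by
    intro a ha h1 h2
    obtain ⟨b, hb⟩ := m4 (G.opp a) (S.opp_mem a ha.1) h1 h2
    obtain ⟨-, -, -, -, h3, h4⟩ := m3 _ _ hb
    refine ⟨b, hb, ?_, h3⟩
    by_contra hcon
    exact S.not_both ha (h4.2 hcon)
  -- every run starting at the boundary of `A` comes to the boundary of `B`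
  have hend : ∀ h ∈ bd G A, ∃ y ∈ bd G B, Run G.opp M h y := by
    intro a0 ha0
    by_contra hcon
    push Not at hcon
    have hb0 : a0 ∈ G.darts ∧ G.base a0 ∈ A ∧ G.base (G.opp a0) ∉ A := by
      simpa [bd] using ha0
    set R : Finset H := U.filter (fun y => Run G.opp M a0 y ∧ LkF G A B m U y ∧
      G.base y ∈ B ∧ G.base (G.opp y) ∉ A) with hR
    have ha0R : a0 ∈ R := by
      rw [hR, Finset.mem_filter]
      exact ⟨S.bdA ha0, Run.refl _, ⟨S.bdA ha0, A, S.tgA, hb0.2.1, hb0.2.2⟩, hAB hb0.2.1,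
        hb0.2.2⟩
    have hstep : ∀ y ∈ R, ∃ z ∈ R.erase a0, M (G.opp y) z := by
      intro y hy
      rw [hR, Finset.mem_filter] at hy
      obtain ⟨hyU, hrun, hF, hyB, hyA⟩ := hy
      have h1 : G.base (G.opp y) ∈ B := by
        by_contra h
        refine hcon y ?_ hrun
        rw [bd, Finset.mem_filter]
        exact ⟨S.sub hyU, hyB, h⟩
      obtain ⟨z, hz1, hz2, hz3⟩ := hnext y hF h1 hyA
      have hzA : G.base z ∉ A := by rw [hz3]; exact hyA
      refine ⟨z, ?_, hz1⟩
      rw [Finset.mem_erase, hR, Finset.mem_filter]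
      refine ⟨?_, hMU _ _ hz1, hrun.snoc hz1, hz2, by rw [hz3]; exact h1, ?_⟩
      · rintro rfl
        exact hzA hb0.2.1
      · intro h
        exact hzA (S.enter hz2 S.tgA h)
    choose! nx hnx1 hnx2 using hstep
    have hle : R.card ≤ (R.erase a0).card := by
      refine Finset.card_le_card_of_injOn nx hnx1 ?_
      intro y hy y' hy' he
      have h1 := hnx2 y hy
      have h2 := hnx2 y' hy'
      have he' : nx y = nx y' := he
      rw [he'] at h1
      have h3 : G.opp y = G.opp y' := m2 _ _ _ (m1 _ _ h1) (m1 _ _ h2)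
      have hyd : y ∈ G.darts := S.sub (Finset.mem_filter.1 (Finset.mem_coe.1 hy)).1
      have hyd' : y' ∈ G.darts := S.sub (Finset.mem_filter.1 (Finset.mem_coe.1 hy')).1
      rw [← G.opp_opp y hyd, h3, G.opp_opp y' hyd']
    have hlt := Finset.card_erase_lt_of_mem ha0R
    omega
  choose! β hβ1 hβ2 using hend
  have hinj : Set.InjOn β (bd G A : Set H) := by
    intro a ha a' ha' he
    have hba : a ∈ G.darts ∧ G.base a ∈ A ∧ G.base (G.opp a) ∉ A := by
      simpa [bd] using ha
    have hba' : a' ∈ G.darts ∧ G.base a' ∈ A ∧ G.base (G.opp a') ∉ A := by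
      simpa [bd] using ha'
    have h1 := hβ2 a ha
    have h2 := hβ2 a' ha'
    rw [← he] at h2
    have hMd : ∀ a b, M a b → b ∈ G.darts := fun a b h => S.sub (hMU a b h)
    rcases h1.compare G.opp_opp m1 m2 hMd hba.1 a' hba'.1 h2 with h3 | h3
    · rcases h3.tail with h4 | ⟨w, -, h4⟩
      · exact h4
      · obtain ⟨-, -, -, h5, h6, -⟩ := m3 _ _ h4
        rw [← h6] at h5
        exact absurd hba'.2.1 h5
    · rcases h3.tail with h4 | ⟨w, -, h4⟩
      · exact h4.symm
      · obtain ⟨-, -, -, h5, h6, -⟩ := m3 _ _ h4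
        rw [← h6] at h5
        exact absurd hba.2.1 h5
  have himg : (bd G A).image β = bd G B := by
    refine Finset.eq_of_subset_of_card_le ?_ ?_
    · intro y hy
      obtain ⟨a, ha, rfl⟩ := Finset.mem_image.1 hy
      exact hβ1 a ha
    · rw [Finset.card_image_of_injOn hinj]
      exact le_of_eq (hBm.trans hA.symm)
  have hKer : ∀ a, Ker G A (id : H → H) a ↔ a ∈ G.darts ∧ G.base a ∈ A := by
    intro a
    constructor
    · rintro ⟨h, h1, h2, rfl⟩
      exact ⟨h1, h2⟩
    · rintro ⟨h1, h2⟩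
      exact ⟨a, h1, h2, rfl⟩
  refine ⟨β, id, id, M, ?_⟩
  refine
    { f_mem := fun v hv => hAB hv
      f_rel := fun v _ => hr v
      f_inj := fun _ _ _ _ h => h
      M_symm := m1
      M_fun := m2
      M_mem := fun a b h => S.sub (m3 a b h).1
      M_base := fun a b h => ⟨(m3 a b h).2.2.1, (m3 a b h).2.2.2.2.1⟩
      M_ker := fun a b h hk => (m3 a b h).2.2.2.1 ((hKer a).1 hk).2
      φ_mem := fun h hh _ => hh
      φ_base := fun _ _ _ => rfl
      φ_inj := fun _ _ _ _ _ _ h => h
      rot_eq := ?_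
      nc := ?_
      run_in := fun h _ _ _ => ⟨h, Run.refl h, rfl⟩
      run_out := fun h hh => hβ2 h hh
      β_bij := ?_ }
  · intro v hv
    have : (G.rot v).filter (fun a => Ker G A (id : H → H) a) = G.rot v := by
      rw [List.filter_eq_self]
      intro a ha
      rw [G.mem_rot] at ha
      simp only [decide_eq_true_eq]
      exact (hKer a).2 ⟨ha.1, by rw [ha.2]; exact hv⟩
    rw [List.map_id]
    exact (congrArg (· ~r G.rot v) this).mpr (List.IsRotated.refl _)
  · intro x hx
    by_cases hxA : x ∈ A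
    · refine NC.done _ ?_
      intro a ha b hab
      rw [List.mem_filter, G.mem_rot] at ha
      have := (m3 a b hab).2.2.2.1
      rw [ha.1.2] at this
      exact this hxA
    · have : (G.rot x).filter (fun a => Ker G A (id : H → H) a ∨ ∃ b, M a b) =
          (G.rot x).filter (fun a => a ∈ U) := by
        refine List.filter_congr ?_
        intro a ha
        rw [G.mem_rot] at ha
        rw [decide_eq_decide, hKer a]
        constructor
        · rintro (⟨-, h⟩ | ⟨b, hb⟩)
          · rw [ha.2] at h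
            exact absurd h hxA
          · exact (m3 a b hb).1
        · intro h
          exact Or.inr (m4 a h (by rw [ha.2]; exact hx) (by rw [ha.2]; exact hxA))
      rw [this]
      exact m5 x hx hxA
  · refine ⟨fun a ha => hβ1 a ha, hinj, ?_⟩
    intro y hy
    have : y ∈ (bd G A).image β := by rw [himg]; exact hy
    obtain ⟨a, ha, rfl⟩ := Finset.mem_image.1 this
    exact ⟨a, ha, rfl⟩

end RotWqo
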