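import Pool.Agent.Lib.MP_cb4a0f_co.Levels
import Pool.Agent.Lib.MP_cb4a0f_co.Parts
import Pool.Agent.Lib.MP_cb4a0f_co.Gen
import Pool.Agent.Lib.MP_cb4a0f_co.Linked
import Pool.Agent.Lib.MP_cb4a0f_co.Link

/-!
# Rotated graphs of bounded carving width are well-quasi-ordered by immersion
-/

open Classical

namespace RotWqo

section Trees

variable {V : Type*}

theorem IsSub.trans' {s t u : Tree V} (h : IsSub s t) (h' : IsSub t u) : IsSub s u := by
  induction h' with
  | refl => exact h
  | left l r _ ih => exact .left l r ih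
  | right l r _ ih => exact .right l r ih

theorem IsSub.leaves_nodup {s t : Tree V} (h : IsSub s t) (ht : t.leaves.Nodup) :
    s.leaves.Nodup := by
  induction h with
  | refl => exact ht
  | left l r _ ih => exact ih (List.nodup_append.1 ht).1
  | right l r _ ih => exact ih (List.nodup_append.1 ht).2.1

theorem IsSub.set_subset {s t : Tree V} (h : IsSub s t) : s.set ⊆ t.set := by
  induction h with
  | refl => exact subset_rfl
  | left l r _ ih => rw [TL.set_node]; exact ih.trans Finset.subset_union_left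
  | right l r _ ih => rw [TL.set_node]; exact ih.trans Finset.subset_union_right

theorem PathGe.set_subset {d : Finset V → ℕ} {m : ℕ} {a b : Tree V} (h : PathGe d m a b) :
    a.set ⊆ b.set := by
  induction h with
  | refl _ => exact subset_rfl
  | left l r _ _ ih => rw [TL.set_node]; exact ih.trans Finset.subset_union_left
  | right l r _ _ ih => rw [TL.set_node]; exact ih.trans Finset.subset_union_right

theorem leaves_pos (t : Tree V) : 0 < t.leaves.length := by
  induction t with
  | leaf v => simp [Tree.leaves]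
  | node l r ihl _ => simp only [Tree.leaves, List.length_append]; omega

theorem disjoint_of_nodup {l r : Tree V} (h : (Tree.node l r).leaves.Nodup) :
    Disjoint l.set r.set := by
  rw [Finset.disjoint_left]
  intro v h1 h2
  rw [TL.mem_set] at h1 h2
  exact (List.nodup_append.1 h).2.2 v h1 v h2 rfl

end Trees

/-- The pieces: subtrees of the carvings. -/
structure Elt (V : ℕ → Type*) (T : ∀ i, Tree (V i)) where
  /-- index of the rotated graph -/
  i : ℕ
  /-- the subtree -/
  t : Tree (V i)
  h : IsSub t (T i)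

variable {V : ℕ → Type*} {T : ∀ i, Tree (V i)}

/-- Children. -/
def Ch (x y : Elt V T) : Prop :=
  ∃ l r, x.t = .node l r ∧ ((∃ h, y = ⟨x.i, l, h⟩) ∨ ∃ h, y = ⟨x.i, r, h⟩)

/-- The value of a piece. -/
noncomputable def val {H : ℕ → Type*} (G : ∀ i, RotGraph (V i) (H i)) (x : Elt V T) : ℕ :=
  cut (G x.i) x.t.set

theorem Desc.pathGe {H : ℕ → Type*} (G : ∀ i, RotGraph (V i) (H i)) {m : ℕ} {x y : Elt V T}
    (h : Desc Ch (val G) m x y) :
    ∃ i, ∃ b a : Tree (V i), ∃ hb ha, x = ⟨i, b, hb⟩ ∧ y = ⟨i, a, ha⟩ ∧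
      PathGe (cut (G i)) m a b := by
  induction h with
  | refl x hx => exact ⟨x.i, x.t, x.t, x.h, x.h, rfl, rfl, .refl hx⟩
  | step x z y hx hxz _ ih =>
    obtain ⟨i, b, a, hb, ha, hz0, hy0, hp⟩ := ih
    obtain ⟨l, r, hlr, hz⟩ := hxz
    have hx' : m ≤ cut (G x.i) x.t.set := hx
    rcases hz with ⟨h, hz⟩ | ⟨h, hz⟩
    · rw [hz0] at hz
      cases hz
      refine ⟨x.i, x.t, a, x.h, ha, rfl, hy0, ?_⟩
      rw [hlr] at hx' ⊢
      exact .left _ _ hx' hp
    · rw [hz0] at hz
      cases hz
      refine ⟨x.i, x.t, a, x.h, ha, rfl, hy0, ?_⟩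
      rw [hlr] at hx' ⊢
      exact .right _ _ hx' hp

/-- For every `k`, the rotated graphs of carving width at most `k` and maximum degree at most `k`,
with vertices labelled from a well-quasi-order, are well-quasi-ordered by immersion. -/
theorem wqo_carving (k : ℕ) {Q : Type*} (q : Q → Q → Prop) [IsPreorder Q q]
    (hq : WellQuasiOrdered q) (V H : ℕ → Type*) [∀ i, Nonempty (V i)] [∀ i, Nonempty (H i)]
    (G : ∀ i, RotGraph (V i) (H i)) (lab : ∀ i, V i → Q) (hG : ∀ i, CarvingWidthLE k (G i)) :
    ∃ i j, i < j ∧ Imm (fun v w => q (lab i v) (lab j w)) (G i) (G j) := by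
  by_cases hne : ∃ i, (G i).verts = ∅
  · obtain ⟨i, hi⟩ := hne
    refine ⟨i, i + 1, Nat.lt_succ_self i, imm_of_PE _ _ _ (fun _ => Classical.arbitrary _) ?_⟩
    rw [hi]
    exact PE.empty _ _ _
  push Not at hne
  -- linked carvings
  have hT : ∀ i, ∃ t : Tree (V i), t.leaves.Nodup ∧ t.set = (G i).verts ∧
      (∀ s, IsSub s t → cut (G i) s.set ≤ k) ∧ Linked (cut (G i)) t := by
    intro i
    obtain ⟨t, h1, h2, h3⟩ := (hG i).1.resolve_left (hne i).ne_empty
    obtain ⟨t', h4, h5, h6, h7⟩ := exists_linked (cut (G i)) (cut_submod _) (cut_posimod _) k t h1 h3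
    exact ⟨t', h4, h5.trans h2, h6, h7⟩
  choose T hT1 hT2 hT3 hT4 using hT
  set le : Elt V T → Elt V T → Prop := fun x y =>
    ∃ β, PE (fun v w => q (lab x.i v) (lab y.i w)) (G x.i) x.t.set (G y.i) y.t.set β with hle
  have : IsPreorder (Elt V T) le :=
    { refl := fun x => ⟨id, PE.refl (fun v w => q (lab x.i v) (lab x.i w))
        (fun v => _root_.refl _) _ _⟩
      trans := fun x y z ⟨β, h⟩ ⟨β', h'⟩ => ⟨β' ∘ β,
        PE.trans (r₁ := fun v w => q (lab x.i v) (lab y.i w))
          (r₂ := fun v w => q (lab y.i v) (lab z.i w))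
          (r := fun v w => q (lab x.i v) (lab z.i w))
          (fun u v w h h' => _root_.trans h h') h h'⟩ }
  have main : (Set.univ : Set (Elt V T)).PartiallyWellOrderedOn le := by
    refine wqo_of_levels le (fun x => x.t.leaves.length) (val G) k Ch ?_ ?_ ?_ ?_
    · rintro x y ⟨l, r, hlr, ⟨h, rfl⟩ | ⟨h, rfl⟩⟩
      · have := leaves_pos r
        simp only [hlr, Tree.leaves, List.length_append]
        omega
      · have := leaves_pos l
        simp only [hlr, Tree.leaves, List.length_append]
        omega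
    · intro x
      exact hT3 x.i x.t x.h
    · intro m x y hx hy hd
      obtain ⟨i, b, a, hb, ha, rfl, rfl, hp⟩ := hd.pathGe G
      exact exists_link (fun v w => q (lab i v) (lab i w)) (fun v => _root_.refl _) (G i)
        a.set b.set hp.set_subset
        (hT2 i ▸ hb.set_subset) m hy hx (hT4 i b a m hb hp hx hy)
    · intro X hC
      set C : Set (Elt V T) := {y | ∃ x ∈ X, Ch x y} with hCdef
      have h1 : {x | x ∈ X ∧ ∃ v, x.t = .leaf v}.PartiallyWellOrderedOn le := by
        rw [Set.partiallyWellOrderedOn_iff_exists_lt]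
        intro f hf
        choose v hv using fun n => (hf n).2
        obtain ⟨m, n, hmn, β, hβ⟩ := exists_PE_leaf q hq (fun n => V (f n).i) (fun n => H (f n).i)
          (fun n => G (f n).i) (fun n => lab (f n).i) k v (fun n => (hG _).2 _)
        refine ⟨m, n, hmn, β, ?_⟩
        simpa only [hv, TL.set_leaf] using hβ
      have h2 : {x | x ∈ X ∧ ∃ l r, x.t = .node l r}.PartiallyWellOrderedOn le := by
        rw [Set.partiallyWellOrderedOn_iff_exists_lt]
        intro f hf
        choose l r hlr using fun n => (hf n).2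
        have hsub : ∀ n, IsSub (.node (l n) (r n)) (T (f n).i) := fun n => hlr n ▸ (f n).h
        have hl : ∀ n, IsSub (l n) (T (f n).i) := fun n =>
          IsSub.trans' (.left _ _ .refl) (hsub n)
        have hr : ∀ n, IsSub (r n) (T (f n).i) := fun n =>
          IsSub.trans' (.right _ _ .refl) (hsub n)
        have hlC : ∀ n, (⟨(f n).i, l n, hl n⟩ : Elt V T) ∈ C := fun n =>
          ⟨f n, (hf n).1, l n, r n, hlr n, Or.inl ⟨hl n, rfl⟩⟩
        have hrC : ∀ n, (⟨(f n).i, r n, hr n⟩ : Elt V T) ∈ C := fun n =>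
          ⟨f n, (hf n).1, l n, r n, hlr n, Or.inr ⟨hr n, rfl⟩⟩
        obtain ⟨g, hg⟩ := hC.exists_monotone_subseq hlC
        obtain ⟨g', hg'⟩ := hC.exists_monotone_subseq (fun n => hrC (g n))
        obtain ⟨m, n, hmn, β, hβ⟩ := exists_PE_glue q (fun n => V (f (g (g' n))).i)
          (fun n => H (f (g (g' n))).i) (fun n => G (f (g (g' n))).i)
          (fun n => lab (f (g (g' n))).i) (fun n => (l (g (g' n))).set)
          (fun n => (r (g (g' n))).set)
          (fun n => disjoint_of_nodup ((hsub _).leaves_nodup (hT1 _)))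
          (fun n => hg _ _ (g'.monotone (Nat.le_succ n)))
          (fun n => hg' _ _ (Nat.le_succ n))
        refine ⟨g (g' m), g (g' n), g.strictMono (g'.strictMono hmn), β, ?_⟩
        simpa only [hlr, TL.set_node] using hβ
      refine (h1.union h2).mono fun x hx => ?_
      rcases ht : x.t with v | ⟨l, r⟩
      · exact Or.inl ⟨hx, v, ht⟩
      · exact Or.inr ⟨hx, l, r, ht⟩
  obtain ⟨m, n, hmn, β, hβ⟩ := main.exists_lt
    (f := fun n => (⟨n, T n, .refl⟩ : Elt V T)) (fun n => Set.mem_univ _)
  refine ⟨m, n, hmn, imm_of_PE _ _ _ β ?_⟩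
  simpa only [hT2] using hβ

end RotWqo
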