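import Mathlib

/-!
# MP_cb4a0f_co: rotated graphs of bounded carving width are well-quasi-ordered by immersion

Definitions and the (semantic) notion of a piece embedding.
-/

open Classical

namespace RotWqo

universe u

/-- A finite rotated graph with vertices in `V` and half-edges in `H`: `base h` is the end of the
half-edge `h`, `opp h` the other half of the edge containing `h`, and `rot v` lists the half-edges
at `v` in their cyclic order (lists that are rotations of each other describe the same rotation). -/
structure RotGraph (V H : Type*) where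
  /-- the vertices -/
  verts : Finset V
  /-- the half-edges -/
  darts : Finset H
  /-- the end of a half-edge -/
  base : H → V
  /-- the other half of the edge containing a half-edge -/
  opp : H → H
  /-- the half-edges at a vertex in their cyclic order -/
  rot : V → List H
  base_mem : ∀ h ∈ darts, base h ∈ verts
  opp_mem : ∀ h ∈ darts, opp h ∈ darts
  opp_opp : ∀ h ∈ darts, opp (opp h) = h
  opp_ne : ∀ h ∈ darts, opp h ≠ h
  nodup : ∀ v, (rot v).Nodup
  mem_rot : ∀ v h, h ∈ rot v ↔ h ∈ darts ∧ base h = v

variable {V H V' H' V'' H'' : Type*}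

/-- `G'` has the half-edges `G'.darts` of `G`, with the same ends and with the induced rotations. -/
def Restricts (G G' : RotGraph V H) : Prop :=
  (∀ x ∈ G'.darts, G'.base x = G.base x) ∧ ∀ v, G'.rot v = (G.rot v).filter (fun x => x ∈ G'.darts)

/-- One step: deletion of an edge, deletion of an isolated vertex, or splitting off two distinct
edges whose half-edges `h₁`, `h₂` are consecutive in the rotation at their common end. -/
inductive Step (G G' : RotGraph V H) : Prop
  | delEdge (h : H) (hh : h ∈ G.darts) (hv : G'.verts = G.verts)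
      (hd : G'.darts = (G.darts.erase h).erase (G.opp h)) (hr : Restricts G G')
      (ho : ∀ x ∈ G'.darts, G'.opp x = G.opp x) : Step G G'
  | delVertex (v : V) (hiso : G.rot v = []) (hv : G'.verts = G.verts.erase v)
      (hd : G'.darts = G.darts) (hr : Restricts G G')
      (ho : ∀ x ∈ G'.darts, G'.opp x = G.opp x) : Step G G'
  | split (h₁ h₂ : H) (l : List H) (hh : h₁ ∈ G.darts)
      (hcons : G.rot (G.base h₁) ~r h₁ :: h₂ :: l) (hne : G.opp h₁ ≠ h₂)
      (hv : G'.verts = G.verts) (hd : G'.darts = (G.darts.erase h₁).erase h₂)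
      (hr : Restricts G G')
      (ho₁ : G'.opp (G.opp h₁) = G.opp h₂) (ho₂ : G'.opp (G.opp h₂) = G.opp h₁)
      (ho : ∀ x ∈ G'.darts, x ≠ G.opp h₁ → x ≠ G.opp h₂ → G'.opp x = G.opp x) : Step G G'

/-- `G` and `K` are isomorphic by an isomorphism that relates vertices by `r`. -/
def IsoRel (r : V → V' → Prop) (G : RotGraph V H) (K : RotGraph V' H') : Prop :=
  ∃ (f : V → V') (φ : H → H'),
    Set.BijOn f (G.verts : Set V) (K.verts : Set V') ∧
    Set.BijOn φ (G.darts : Set H) (K.darts : Set H') ∧
    (∀ h ∈ G.darts, K.base (φ h) = f (G.base h) ∧ K.opp (φ h) = φ (G.opp h)) ∧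
    (∀ v ∈ G.verts, K.rot (f v) ~r (G.rot v).map φ) ∧
    ∀ v ∈ G.verts, r v (f v)

/-- Immersion: `G` is isomorphic to a rotated graph obtained from `G'` by a finite sequence of
deletions of edges, deletions of isolated vertices and splitting-off operations. -/
def Imm (r : V → V' → Prop) (G : RotGraph V H) (G' : RotGraph V' H') : Prop :=
  ∃ K : RotGraph V' H', Relation.ReflTransGen Step G' K ∧ IsoRel r G K

/-- The half-edges at `A` whose other half is not at `A`. -/
noncomputable def bd (G : RotGraph V H) (A : Finset V) : Finset H :=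
  G.darts.filter (fun h => G.base h ∈ A ∧ G.base (G.opp h) ∉ A)

/-- The number of edges between `A` and its complement. -/
noncomputable def cut (G : RotGraph V H) (A : Finset V) : ℕ := (bd G A).card

/-- Rooted binary trees with leaves in `V`. -/
inductive Tree (V : Type*)
  | leaf : V → Tree V
  | node : Tree V → Tree V → Tree V

/-- The list of leaves. -/
def Tree.leaves : Tree V → List V
  | .leaf v => [v]
  | .node l r => l.leaves ++ r.leaves

/-- The set of leaves. -/
noncomputable def Tree.set (t : Tree V) : Finset V := t.leaves.toFinset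

/-- `IsSub s t`: `s` is a subtree of `t` hanging at a node of `t`. -/
inductive IsSub (s : Tree V) : Tree V → Prop
  | refl : IsSub s s
  | left (l r : Tree V) : IsSub s l → IsSub s (.node l r)
  | right (l r : Tree V) : IsSub s r → IsSub s (.node l r)

/-- `t` is a carving of `G` of width at most `k`: its leaves are the vertices of `G`, each once,
and at most `k` edges of `G` leave the set of leaves below any node. -/
def IsCarving (k : ℕ) (G : RotGraph V H) (t : Tree V) : Prop :=
  t.leaves.Nodup ∧ t.set = G.verts ∧ ∀ s, IsSub s t → cut G s.set ≤ k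

/-- Carving width at most `k` and at most `k` half-edges at each vertex (for loopless graphs the
second condition follows from the first one). -/
def CarvingWidthLE (k : ℕ) (G : RotGraph V H) : Prop :=
  (G.verts = ∅ ∨ ∃ t, IsCarving k G t) ∧ ∀ v, (G.rot v).length ≤ k

/-! ## Piece embeddings -/

/-- A cyclic word can be emptied of the matched letters by removing adjacent matched pairs. -/
inductive NC {H : Type*} (M : H → H → Prop) : List H → Prop
  | done (l : List H) : (∀ a ∈ l, ∀ b, ¬ M a b) → NC M l
  | pair (l : List H) (a b : H) (l' : List H) : l ~r a :: b :: l' → M a b → NC M l' → NC M l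

/-- `Run opp M x y`: starting by traversing the edge of `x` away from `base x` and turning at
every vertex by the matching `M` one comes to traverse the edge of `y` away from `base y`. -/
inductive Run {H : Type*} (opp : H → H) (M : H → H → Prop) : H → H → Prop
  | refl (x : H) : Run opp M x x
  | step (x z y : H) : M (opp x) z → Run opp M z y → Run opp M x y

/-- The half-edges used by the branch vertices. -/
def Ker (G : RotGraph V H) (A : Finset V) (φ : H → H') (a : H') : Prop :=
  ∃ h ∈ G.darts, G.base h ∈ A ∧ φ h = a

/-- Data of an embedding of the piece `(G, A)` in the piece `(G', A')`. -/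
structure PEData (r : V → V' → Prop) (G : RotGraph V H) (A : Finset V) (G' : RotGraph V' H')
    (A' : Finset V') (β : H → H') (f : V → V') (φ : H → H') (M : H' → H' → Prop) : Prop where
  f_mem : ∀ v ∈ A, f v ∈ A'
  f_rel : ∀ v ∈ A, r v (f v)
  f_inj : Set.InjOn f (A : Set V)
  M_symm : ∀ a b, M a b → M b a
  M_fun : ∀ a b c, M a b → M a c → b = c
  M_mem : ∀ a b, M a b → a ∈ G'.darts
  M_base : ∀ a b, M a b → G'.base a ∈ A' ∧ G'.base b = G'.base a
  M_ker : ∀ a b, M a b → ¬ Ker G A φ a
  φ_mem : ∀ h ∈ G.darts, G.base h ∈ A → φ h ∈ G'.darts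
  φ_base : ∀ h ∈ G.darts, G.base h ∈ A → G'.base (φ h) = f (G.base h)
  φ_inj : ∀ h ∈ G.darts, ∀ h' ∈ G.darts, G.base h ∈ A → G.base h' ∈ A → φ h = φ h' → h = h'
  rot_eq : ∀ v ∈ A, (G'.rot (f v)).filter (fun a => Ker G A φ a) ~r (G.rot v).map φ
  nc : ∀ x ∈ A', NC M ((G'.rot x).filter (fun a => Ker G A φ a ∨ ∃ b, M a b))
  run_in : ∀ h ∈ G.darts, G.base h ∈ A → G.base (G.opp h) ∈ A →
    ∃ y, Run G'.opp M (φ h) y ∧ G'.opp y = φ (G.opp h)
  run_out : ∀ h ∈ bd G A, Run G'.opp M (φ h) (β h)
  β_bij : Set.BijOn β (bd G A : Set H) (bd G' A' : Set H')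

/-- The piece `(G, A)` embeds in the piece `(G', A')` with boundary map `β`. -/
def PE (r : V → V' → Prop) (G : RotGraph V H) (A : Finset V) (G' : RotGraph V' H')
    (A' : Finset V') (β : H → H') : Prop :=
  ∃ f φ M, PEData r G A G' A' β f φ M

/-- Descent through nodes of value at least `m`. -/
inductive PathGe (d : Finset V → ℕ) (m : ℕ) (a : Tree V) : Tree V → Prop
  | refl : m ≤ d a.set → PathGe d m a a
  | left (l r : Tree V) : m ≤ d (Tree.node l r).set → PathGe d m a l → PathGe d m a (.node l r)
  | right (l r : Tree V) : m ≤ d (Tree.node l r).set → PathGe d m a r → PathGe d m a (.node l r)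

/-- A linked tree. -/
def Linked (d : Finset V → ℕ) (t : Tree V) : Prop :=
  ∀ b a : Tree V, ∀ m, IsSub b t → PathGe d m a b → d b.set = m → d a.set = m →
    ∀ X : Finset V, a.set ⊆ X → X ⊆ b.set → m ≤ d X

end RotWqo
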