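import Mathlib

/-!
# Minimal bad sequences over levels

The well-quasi-ordering lemma for decompositions with linked levels (a set version of the lemma
on trees of Robertson and Seymour).
-/

open Classical

namespace RotWqo

variable {α : Type*}

/-- Descent through elements of level at least `m`. -/
inductive Desc (ch : α → α → Prop) (lab : α → ℕ) (m : ℕ) : α → α → Prop
  | refl (x : α) : m ≤ lab x → Desc ch lab m x x
  | step (x z y : α) : m ≤ lab x → ch x z → Desc ch lab m z y → Desc ch lab m x y

theorem Desc.snoc {ch : α → α → Prop} {lab : α → ℕ} {m : ℕ} {a x y : α}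
    (h : Desc ch lab m a x) (hc : ch x y) (hy : m ≤ lab y) : Desc ch lab m a y := by
  induction h with
  | refl x hx => exact .step _ _ _ hx hc (.refl _ hy)
  | step x z w hx hxz _ ih => exact .step _ _ _ hx hxz (ih hc)

/-- Elements reachable from `R` by descending through elements outside `W`. -/
inductive Reach (ch : α → α → Prop) (R W : Set α) : α → Prop
  | base (x : α) : x ∈ R → Reach ch R W x
  | step (x y : α) : Reach ch R W x → x ∉ W → ch x y → Reach ch R W y

theorem Reach.mono {ch : α → α → Prop} {R R' W W' : Set α}
    (hR : ∀ x ∈ R', Reach ch R W x) (hW : W ⊆ W') {x : α} (h : Reach ch R' W' x) :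
    Reach ch R W x := by
  induction h with
  | base x hx => exact hR x hx
  | step x y _ hxW hxy ih => exact .step x y ih (fun hw => hxW (hW hw)) hxy

theorem wqo_of_levels_aux (le : α → α → Prop) [IsPreorder α le] (rk lab : α → ℕ) (n : ℕ)
    (ch : α → α → Prop) (hrk : ∀ x y, ch x y → rk y < rk x) (hlab : ∀ x, lab x ≤ n)
    (hlink : ∀ m x y, lab x = m → lab y = m → Desc ch lab m x y → le y x)
    (hstep : ∀ X : Set α, {y | ∃ x ∈ X, ch x y}.PartiallyWellOrderedOn le →
      X.PartiallyWellOrderedOn le) :
    ∀ j m : ℕ, m + j = n + 1 → ∀ R W : Set α, W.PartiallyWellOrderedOn le →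
      (∀ x, Reach ch R W x → x ∉ W → m ≤ lab x) → R.PartiallyWellOrderedOn le := by
  intro j
  induction j with
  | zero =>
    intro m hm R W hW hlow
    refine hW.mono fun x hx => ?_
    by_contra hxW
    have := hlow x (.base x hx) hxW
    have := hlab x
    omega
  | succ j ih =>
    intro m hm R W hW hlow
    set X : Set α := {x | Reach ch R W x ∧ x ∉ W ∧ lab x = m} with hXdef
    have hX : X.PartiallyWellOrderedOn le := by
      by_contra hbad
      rw [Set.PartiallyWellOrderedOn.iff_not_exists_isMinBadSeq rk, not_not] at hbad
      obtain ⟨f, hf, hmin⟩ := hbad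
      have hfX : ∀ i, f i ∈ X := hf.1
      -- descendants of `f i`
      have hRW : ∀ i y, Reach ch {y | ch (f i) y} W y → Reach ch R W y := by
        intro i y hy
        refine Reach.mono (fun x hx => ?_) subset_rfl hy
        exact .step (f i) x (hfX i).1 (hfX i).2.1 hx
      have hrank : ∀ i y, Reach ch {y | ch (f i) y} W y → rk y < rk (f i) := by
        intro i y hy
        induction hy with
        | base x hx => exact hrk _ _ hx
        | step x y _ _ hxy ih' => exact (hrk _ _ hxy).trans ih'
      have hdesc : ∀ i y, Reach ch {y | ch (f i) y} W y → y ∉ W → Desc ch lab m (f i) y := by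
        intro i y hy
        induction hy with
        | base x hx =>
          intro hxW
          refine .step _ _ _ (hfX i).2.2.ge hx (.refl _ ?_)
          exact hlow x (hRW i x (.base x hx)) hxW
        | step x y hx hxW hxy ih' =>
          intro hyW
          refine (ih' hxW).snoc hxy ?_
          exact hlow y (hRW i y (.step x y hx hxW hxy)) hyW
      set Y : Set α := {y | y ∈ X ∧ ∃ i, Reach ch {y | ch (f i) y} W y} with hYdef
      have hY : Y.PartiallyWellOrderedOn le := by
        rw [Set.PartiallyWellOrderedOn.iff_forall_not_isBadSeq]
        intro g hg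
        have hgY : ∀ j, g j ∈ Y := hg.1
        choose i hi using fun j => (hgY j).2
        obtain ⟨j0, hj0⟩ : ∃ j0, ∀ j, i j0 ≤ i j := by
          have hne : ∃ v, ∃ j, i j = v := ⟨i 0, 0, rfl⟩
          obtain ⟨j0, hj0⟩ := Nat.find_spec hne
          exact ⟨j0, fun j => by rw [hj0]; exact Nat.find_min' hne ⟨j, rfl⟩⟩
        set p := i j0 with hp
        have hle : ∀ j, le (g j) (f (i j)) := fun j =>
          hlink m (f (i j)) (g j) (hfX _).2.2 (hgY j).1.2.2 (hdesc _ _ (hi j) (hgY j).1.2.1)
        refine hmin p (fun n => if n < p then f n else g (j0 + (n - p))) ?_ ?_ ?_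
        · intro a ha
          simp [ha]
        · simpa using hrank p (g j0) (hi j0)
        · constructor
          · intro a
            by_cases ha : a < p
            · simpa [ha] using hfX a
            · simpa [ha] using (hgY _).1
          · intro a b hab
            by_cases hb : b < p
            · have ha : a < p := hab.trans hb
              simpa [ha, hb] using hf.2 a b hab
            · by_cases ha : a < p
              · simp only [ha, hb, if_true, if_false]
                intro hab'
                refine hf.2 a (i (j0 + (b - p))) (lt_of_lt_of_le ha (hj0 _)) ?_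
                exact _root_.trans hab' (hle _)
              · simp only [ha, hb, if_false]
                exact hg.2 _ _ (by omega)
      have hR1 : {y | ∃ x ∈ Set.range f, ch x y}.PartiallyWellOrderedOn le := by
        refine ih (m + 1) (by omega) _ (W ∪ Y) (hW.union hY) ?_
        intro x hx hxW
        have h1 : Reach ch R W x := by
          refine Reach.mono (fun z hz => ?_) Set.subset_union_left hx
          obtain ⟨_, ⟨i, rfl⟩, hz⟩ := hz
          exact .step (f i) z (hfX i).1 (hfX i).2.1 hz
        have h2 : ∃ i, Reach ch {y | ch (f i) y} W x := by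
          clear hxW h1
          induction hx with
          | base z hz =>
            obtain ⟨_, ⟨i, rfl⟩, hz⟩ := hz
            exact ⟨i, .base z hz⟩
          | step z y _ hzW hzy ih' =>
            obtain ⟨i, hi⟩ := ih'
            exact ⟨i, .step z y hi (fun h => hzW (Or.inl h)) hzy⟩
        have hxW' : x ∉ W := fun h => hxW (Or.inl h)
        have h3 := hlow x h1 hxW'
        by_contra hlt
        have h4 : lab x = m := by omega
        exact hxW (Or.inr ⟨⟨h1, hxW', h4⟩, h2⟩)
      obtain ⟨a, b, hab, hle⟩ := (hstep _ hR1).exists_lt (f := f) (fun i => ⟨i, rfl⟩)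
      exact hf.2 a b hab hle
    refine ih (m + 1) (by omega) R (W ∪ X) (hW.union hX) ?_
    intro x hx hxW
    have h1 : Reach ch R W x := Reach.mono (fun z hz => .base z hz) Set.subset_union_left hx
    have hxW' : x ∉ W := fun h => hxW (Or.inl h)
    have h3 := hlow x h1 hxW'
    by_contra hlt
    exact hxW (Or.inr ⟨h1, hxW', by omega⟩)

/-- If children decrease a rank, levels are bounded, linked descendants of the same level are
smaller, and a set is partially well ordered as soon as its set of children is, then everything is
well-quasi-ordered. -/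
theorem wqo_of_levels (le : α → α → Prop) [IsPreorder α le] (rk lab : α → ℕ) (n : ℕ)
    (ch : α → α → Prop) (hrk : ∀ x y, ch x y → rk y < rk x) (hlab : ∀ x, lab x ≤ n)
    (hlink : ∀ m x y, lab x = m → lab y = m → Desc ch lab m x y → le y x)
    (hstep : ∀ X : Set α, {y | ∃ x ∈ X, ch x y}.PartiallyWellOrderedOn le →
      X.PartiallyWellOrderedOn le) :
    (Set.univ : Set α).PartiallyWellOrderedOn le :=
  wqo_of_levels_aux le rk lab n ch hrk hlab hlink hstep (n + 1) 0 (by omega) Set.univ ∅
    (by simp) (by simp)

end RotWqo
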