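import Pool.Agent.Lib.MP_cb4a0f_co.Defs

/-!
# Piece embeddings: cyclic words, runs, reflexivity, transitivity, gluing
-/

open Classical

namespace RotWqo

variable {V H V' H' V'' H'' : Type*}

/-! ### Cyclic words -/

theorem IsRotated.filter' {α : Type*} {l l' : List α} (h : l ~r l') (p : α → Bool) :
    l.filter p ~r l'.filter p := by
  obtain ⟨n, rfl⟩ := h
  rw [← List.rotate_mod, List.rotate_eq_drop_append_take_mod, Nat.mod_mod]
  have h1 : l.filter p = (l.take (n % l.length)).filter p ++ (l.drop (n % l.length)).filter p := by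
    rw [← List.filter_append, List.take_append_drop]
  rw [List.filter_append, h1]
  exact List.isRotated_append

theorem NC.of_isRotated {M : H → H → Prop} {l l' : List H} (h : NC M l) (hr : l ~r l') :
    NC M l' := by
  cases h with
  | done _ h => exact .done _ fun a ha => h a (hr.symm.mem_iff.1 ha)
  | pair _ a b l'' h1 h2 h3 => exact .pair _ a b l'' (hr.symm.trans h1) h2 h3

theorem NC.filter {M : H → H → Prop} {l : List H} (h : NC M l) (p : H → Bool)
    (hp : ∀ a ∈ l, (∃ b, M a b ∨ M b a) → p a = true) : NC M (l.filter p) := by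
  induction h with
  | done l h =>
    exact .done _ fun a ha => h a (List.mem_of_mem_filter ha)
  | pair l a b l' h1 h2 h3 ih =>
    have ha : p a = true := hp a (h1.symm.mem_iff.1 (by simp)) ⟨b, Or.inl h2⟩
    have hb : p b = true := hp b (h1.symm.mem_iff.1 (by simp)) ⟨a, Or.inr h2⟩
    refine .pair _ a b (l'.filter p) ?_ h2 (ih fun c hc => hp c (h1.symm.mem_iff.1 (by simp [hc])))
    have := IsRotated.filter' h1 p
    simpa [List.filter_cons, ha, hb] using this

theorem NC.weaken {M M' : H → H → Prop} {l : List H} (h : NC M' l)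
    (h1 : ∀ a b, M' a b → M a b) (h2 : ∀ a ∈ l, ∀ b, M a b → ∃ c, M' a c) : NC M l := by
  induction h with
  | done l h =>
    refine .done _ fun a ha b hab => ?_
    obtain ⟨c, hc⟩ := h2 a ha b hab
    exact h a ha c hc
  | pair l a b l' h3 h4 h5 ih =>
    exact .pair _ a b l' h3 (h1 _ _ h4)
      (ih fun c hc => h2 c (h3.symm.mem_iff.1 (by simp [hc])))

theorem NC.trans {M M₁ M₂ : H → H → Prop} {l : List H} (hM : ∀ a b, M a b ↔ M₁ a b ∨ M₂ a b)
    (hs : ∀ a b, M₂ a b → M₂ b a) (h2 : NC M₂ l)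
    (h1 : NC M₁ (l.filter fun a => decide (∀ b, ¬ M₂ a b))) : NC M l := by
  induction h2 with
  | done l h =>
    have : (l.filter fun a => decide (∀ b, ¬ M₂ a b)) = l := by
      rw [List.filter_eq_self]
      intro a ha
      simpa using h a ha
    rw [this] at h1
    refine h1.weaken (fun a b hab => (hM a b).2 (Or.inl hab)) fun a ha b hab => ?_
    rcases (hM a b).1 hab with h' | h'
    · exact ⟨b, h'⟩
    · exact absurd h' (h a ha b)
  | pair l a b l' h3 h4 h5 ih =>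
    refine .pair _ a b l' h3 ((hM a b).2 (Or.inr h4)) (ih ?_)
    refine h1.of_isRotated ?_
    have := IsRotated.filter' h3 (fun a => decide (∀ b, ¬ M₂ a b))
    have ha : ¬ ∀ c, ¬ M₂ a c := fun h => h b h4
    have hb : ¬ ∀ c, ¬ M₂ b c := fun h => h a (hs _ _ h4)
    simpa [List.filter_cons, ha, hb] using this

theorem NC.map {M : H → H → Prop} {M' : H' → H' → Prop} {φ : H → H'} {l : List H} (h : NC M l)
    (h1 : ∀ a b, M a b → M' (φ a) (φ b)) (h2 : ∀ a ∈ l, ∀ c, M' (φ a) c → ∃ b, M a b) :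
    NC M' (l.map φ) := by
  induction h with
  | done l h =>
    refine .done _ fun a ha b hab => ?_
    obtain ⟨a', ha', rfl⟩ := List.mem_map.1 ha
    obtain ⟨c, hc⟩ := h2 a' ha' b hab
    exact h a' ha' c hc
  | pair l a b l' h3 h4 h5 ih =>
    exact .pair _ (φ a) (φ b) (l'.map φ) (by simpa using h3.map φ) (h1 _ _ h4)
      (ih fun c hc => h2 c (h3.symm.mem_iff.1 (by simp [hc])))

/-! ### Runs -/

theorem Run.trans {opp : H → H} {M : H → H → Prop} {x y z : H} (h : Run opp M x y)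
    (h' : Run opp M y z) : Run opp M x z := by
  induction h with
  | refl x => exact h'
  | step x w y h1 _ ih => exact .step _ _ _ h1 (ih h')

theorem Run.mono {opp : H → H} {M M' : H → H → Prop} {x y : H} (h : Run opp M x y)
    (hM : ∀ a b, M a b → M' a b) : Run opp M' x y := by
  induction h with
  | refl x => exact .refl x
  | step x w y h1 _ ih => exact .step _ _ _ (hM _ _ h1) ih

theorem Run.reverse {opp : H → H} {M : H → H → Prop} {x y : H} (h : Run opp M x y)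
    (hs : ∀ a b, M a b → M b a) (ho : ∀ a b, M a b → opp (opp a) = a) :
    Run opp M (opp y) (opp x) := by
  induction h with
  | refl x => exact .refl _
  | step x w y h1 _ ih =>
    refine ih.trans (.step _ _ _ ?_ (.refl _))
    rw [ho _ _ (hs _ _ h1)]
    exact hs _ _ h1

/-! ### Boundary -/

theorem mem_bd {G : RotGraph V H} {A : Finset V} {h : H} :
    h ∈ bd G A ↔ h ∈ G.darts ∧ G.base h ∈ A ∧ G.base (G.opp h) ∉ A := by
  simp [bd]

/-! ### Reflexivity -/

theorem Ker_id {G : RotGraph V H} {A : Finset V} {a : H} :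
    Ker G A id a ↔ a ∈ G.darts ∧ G.base a ∈ A := by
  constructor
  · rintro ⟨h, h1, h2, rfl⟩
    exact ⟨h1, h2⟩
  · rintro ⟨h1, h2⟩
    exact ⟨a, h1, h2, rfl⟩

theorem PE.refl (r : V → V → Prop) (hr : ∀ v, r v v) (G : RotGraph V H) (A : Finset V) :
    PE r G A G A id := by
  refine ⟨id, id, fun _ _ => False, ?_⟩
  refine ⟨fun v hv => hv, fun v _ => hr v, fun _ _ _ _ h => h, fun _ _ h => h.elim,
    fun _ _ _ h => h.elim, fun _ _ h => h.elim, fun _ _ h => h.elim, fun _ _ h => h.elim,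
    fun h hh _ => hh, fun h _ _ => rfl, fun _ _ _ _ _ _ h => h, ?_, ?_, ?_, ?_, ?_⟩
  · intro v hv
    simp only [List.map_id, id]
    rw [List.filter_eq_self.2]
    intro a ha
    have := (G.mem_rot v a).1 ha
    simpa [Ker_id, this.1, this.2] using hv
  · intro x _
    exact .done _ fun a _ b h => h
  · intro h hh _ _
    exact ⟨h, .refl _, rfl⟩
  · intro h _
    exact .refl _
  · exact Set.bijOn_id _

/-! ### Transitivity -/

theorem PE.lift_run {r₁ : V → V' → Prop} {r₂ : V' → V'' → Prop}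
    {G : RotGraph V H} {A : Finset V} {G' : RotGraph V' H'} {A' : Finset V'}
    {G'' : RotGraph V'' H''} {A'' : Finset V''} {β : H → H'} {β' : H' → H''}
    {f : V → V'} {φ : H → H'} {M : H' → H' → Prop} (E : PEData r₁ G A G' A' β f φ M)
    {f' : V' → V''} {φ' : H' → H''} {M' : H'' → H'' → Prop}
    (E' : PEData r₂ G' A' G'' A'' β' f' φ' M') {x y : H'} (hx : x ∈ G'.darts)
    (hxA : G'.base x ∈ A') (h : Run G'.opp M x y) :
    Run G''.opp (fun a c => (∃ x y, M x y ∧ φ' x = a ∧ φ' y = c) ∨ M' a c) (φ' x) (φ' y) ∧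
      y ∈ G'.darts ∧ G'.base y ∈ A' := by
  induction h with
  | refl x => exact ⟨.refl _, hx, hxA⟩
  | step x z y h1 _ ih =>
    have h2 := E.M_symm _ _ h1
    obtain ⟨h3, h4, h5⟩ := ih (E.M_mem _ _ h2) (E.M_base _ _ h2).1
    obtain ⟨w, hw, hw'⟩ := E'.run_in x hx hxA (E.M_base _ _ h1).1
    refine ⟨(hw.mono fun a b h => Or.inr h).trans (.step _ _ _ ?_ h3), h4, h5⟩
    rw [hw']
    exact Or.inl ⟨_, _, h1, rfl, rfl⟩

theorem PE.trans {r₁ : V → V' → Prop} {r₂ : V' → V'' → Prop} {r : V → V'' → Prop}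
    (hr : ∀ u v w, r₁ u v → r₂ v w → r u w)
    {G : RotGraph V H} {A : Finset V} {G' : RotGraph V' H'} {A' : Finset V'}
    {G'' : RotGraph V'' H''} {A'' : Finset V''} {β : H → H'} {β' : H' → H''}
    (h : PE r₁ G A G' A' β) (h' : PE r₂ G' A' G'' A'' β') : PE r G A G'' A'' (β' ∘ β) := by
  obtain ⟨f, φ, M, E⟩ := h
  obtain ⟨f', φ', M', E'⟩ := h'
  -- the image of the matching `M`
  set N : H'' → H'' → Prop := fun a c => ∃ x y, M x y ∧ φ' x = a ∧ φ' y = c with hN
  set P : H'' → H'' → Prop := fun a c => N a c ∨ M' a c with hP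
  have Mker : ∀ x y, M x y → x ∈ G'.darts ∧ G'.base x ∈ A' := fun x y h =>
    ⟨E.M_mem x y h, (E.M_base x y h).1⟩
  have Nker : ∀ a c, N a c → Ker G' A' φ' a := by
    rintro a c ⟨x, y, h, rfl, rfl⟩
    exact ⟨x, (Mker x y h).1, (Mker x y h).2, rfl⟩
  have Nsymm : ∀ a c, N a c → N c a := by
    rintro a c ⟨x, y, h, rfl, rfl⟩
    exact ⟨y, x, E.M_symm _ _ h, rfl, rfl⟩
  have kk : ∀ a, Ker G A (φ' ∘ φ) a → Ker G' A' φ' a := by
    rintro a ⟨h, h1, h2, rfl⟩
    refine ⟨φ h, E.φ_mem h h1 h2, ?_, rfl⟩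
    rw [E.φ_base h h1 h2]
    exact E.f_mem _ h2
  have kk' : ∀ x ∈ G'.darts, G'.base x ∈ A' → (Ker G A (φ' ∘ φ) (φ' x) ↔ Ker G A φ x) := by
    intro x hx hxA
    constructor
    · rintro ⟨h, h1, h2, h3⟩
      refine ⟨h, h1, h2, ?_⟩
      refine E'.φ_inj _ (E.φ_mem h h1 h2) _ hx ?_ hxA h3
      rw [E.φ_base h h1 h2]
      exact E.f_mem _ h2
    · rintro ⟨h, h1, h2, rfl⟩
      exact ⟨h, h1, h2, rfl⟩
  have NM : ∀ x ∈ G'.darts, G'.base x ∈ A' → ∀ c, N (φ' x) c → ∃ y, M x y := by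
    rintro x hx hxA c ⟨x', y, h, h1, rfl⟩
    have := E'.φ_inj _ (Mker _ _ h).1 _ hx (Mker _ _ h).2 hxA h1
    subst this
    exact ⟨y, h⟩
  refine ⟨f' ∘ f, φ' ∘ φ, P, ?_⟩
  refine ⟨?_, ?_, ?_, ?_, ?_, ?_, ?_, ?_, ?_, ?_, ?_, ?_, ?_, ?_, ?_, ?_⟩
  · intro v hv
    exact E'.f_mem _ (E.f_mem v hv)
  · intro v hv
    exact hr _ _ _ (E.f_rel v hv) (E'.f_rel _ (E.f_mem v hv))
  · intro v hv w hw hvw
    exact E.f_inj hv hw (E'.f_inj (E.f_mem v hv) (E.f_mem w hw) hvw)
  · rintro a b (h | h)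
    · exact Or.inl (Nsymm _ _ h)
    · exact Or.inr (E'.M_symm _ _ h)
  · rintro a b c (h | h) (h' | h')
    · obtain ⟨x, y, h1, rfl, rfl⟩ := h
      obtain ⟨x', y', h2, h3, rfl⟩ := h'
      have := E'.φ_inj _ (Mker _ _ h2).1 _ (Mker _ _ h1).1 (Mker _ _ h2).2 (Mker _ _ h1).2 h3
      subst this
      rw [E.M_fun _ _ _ h1 h2]
    · exact absurd (Nker _ _ h) (E'.M_ker _ _ h')
    · exact absurd (Nker _ _ h') (E'.M_ker _ _ h)
    · exact E'.M_fun _ _ _ h h'
  · rintro a b (h | h)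
    · obtain ⟨x, y, h1, rfl, rfl⟩ := h
      exact E'.φ_mem _ (Mker _ _ h1).1 (Mker _ _ h1).2
    · exact E'.M_mem _ _ h
  · rintro a b (h | h)
    · obtain ⟨x, y, h1, rfl, rfl⟩ := h
      have h2 := Mker _ _ h1
      have h3 := Mker _ _ (E.M_symm _ _ h1)
      rw [E'.φ_base _ h2.1 h2.2, E'.φ_base _ h3.1 h3.2, (E.M_base _ _ h1).2]
      exact ⟨E'.f_mem _ h2.2, rfl⟩
    · exact E'.M_base _ _ h
  · rintro a b (h | h) hk
    · obtain ⟨x, y, h1, rfl, rfl⟩ := h
      have h2 := Mker _ _ h1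
      exact E.M_ker _ _ h1 ((kk' _ h2.1 h2.2).1 hk)
    · exact E'.M_ker _ _ h (kk _ hk)
  · intro h h1 h2
    refine E'.φ_mem _ (E.φ_mem h h1 h2) ?_
    rw [E.φ_base h h1 h2]
    exact E.f_mem _ h2
  · intro h h1 h2
    have h3 : G'.base (φ h) ∈ A' := by
      rw [E.φ_base h h1 h2]
      exact E.f_mem _ h2
    simp only [Function.comp]
    rw [E'.φ_base _ (E.φ_mem h h1 h2) h3, E.φ_base h h1 h2]
  · intro h h1 k k1 h2 k2 hk
    have h3 : G'.base (φ h) ∈ A' := by
      rw [E.φ_base h h1 h2]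
      exact E.f_mem _ h2
    have k3 : G'.base (φ k) ∈ A' := by
      rw [E.φ_base k k1 k2]
      exact E.f_mem _ k2
    exact E.φ_inj _ h1 _ k1 h2 k2
      (E'.φ_inj _ (E.φ_mem h h1 h2) _ (E.φ_mem k k1 k2) h3 k3 hk)
  · intro v hv
    have h1 := E'.rot_eq (f v) (E.f_mem v hv)
    have h2 := E.rot_eq v hv
    have h3 := IsRotated.filter' h1 (fun a => decide (Ker G A (φ' ∘ φ) a))
    have h4 : (List.filter (fun a => decide (Ker G' A' φ' a)) (G''.rot (f' (f v)))).filter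
        (fun a => decide (Ker G A (φ' ∘ φ) a)) =
        (G''.rot (f' (f v))).filter (fun a => decide (Ker G A (φ' ∘ φ) a)) := by
      rw [List.filter_filter]
      refine List.filter_congr fun a _ => ?_
      by_cases ha : Ker G A (φ' ∘ φ) a
      · simp [ha, kk a ha]
      · simp [ha]
    have h5 : ((G'.rot (f v)).map φ').filter (fun a => decide (Ker G A (φ' ∘ φ) a)) =
        ((G'.rot (f v)).filter (fun a => decide (Ker G A φ a))).map φ' := by
      rw [List.filter_map]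
      congr 1
      refine List.filter_congr fun a ha => ?_
      have := (G'.mem_rot _ _).1 ha
      simp only [Function.comp_apply, decide_eq_decide]
      exact kk' a this.1 (this.2 ▸ E.f_mem v hv)
    rw [h4, h5] at h3
    simpa [Function.comp] using h3.trans (h2.map φ')
  · intro x hx
    have hdomP : ∀ a, (∃ b, P a b) ↔ (∃ b, N a b) ∨ ∃ b, M' a b := by
      intro a
      simp only [hP, exists_or]
    have h1 := E'.nc x hx
    -- restrict to the used half-edges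
    have h2 : NC M' ((G''.rot x).filter
        (fun a => decide (Ker G A (φ' ∘ φ) a ∨ ∃ b, P a b))) := by
      have := h1.filter (fun a => decide (Ker G A (φ' ∘ φ) a ∨ ∃ b, P a b)) ?_
      · rw [List.filter_filter] at this
        convert this using 1
        refine List.filter_congr fun a _ => ?_
        by_cases ha : Ker G A (φ' ∘ φ) a ∨ ∃ b, P a b
        · have : Ker G' A' φ' a ∨ ∃ b, M' a b := by
            rcases ha with ha | ⟨b, hb | hb⟩
            · exact Or.inl (kk a ha)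
            · exact Or.inl (Nker _ _ hb)
            · exact Or.inr ⟨b, hb⟩
          simp only [ha, this, decide_true, Bool.and_self]
        · simp only [ha, decide_false, Bool.false_and]
      · rintro a _ ⟨b, hb | hb⟩
        · simp only [decide_eq_true_eq]
          exact Or.inr ⟨b, Or.inr hb⟩
        · simp only [decide_eq_true_eq]
          exact Or.inr ⟨b, Or.inr (E'.M_symm _ _ hb)⟩
    refine NC.trans (M₁ := N) (M₂ := M') (fun a b => Iff.rfl) E'.M_symm h2 ?_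
    have h3 : ((G''.rot x).filter (fun a => decide (Ker G A (φ' ∘ φ) a ∨ ∃ b, P a b))).filter
        (fun a => decide (∀ b, ¬ M' a b)) =
        (((G''.rot x).filter (fun a => decide (Ker G' A' φ' a))).filter
          (fun a => decide (Ker G A (φ' ∘ φ) a ∨ ∃ b, N a b))) := by
      rw [List.filter_filter, List.filter_filter]
      refine List.filter_congr fun a _ => ?_
      rw [← Bool.decide_and, ← Bool.decide_and, decide_eq_decide, hdomP]
      constructor
      · rintro ⟨h1, h2 | h2 | ⟨b, h2⟩⟩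
        · exact ⟨Or.inl h2, kk a h2⟩
        · exact ⟨Or.inr h2, Nker _ _ h2.choose_spec⟩
        · exact absurd h2 (h1 b)
      · rintro ⟨h1, h2⟩
        refine ⟨fun b hb => E'.M_ker _ _ hb h2, ?_⟩
        rcases h1 with h1 | h1
        · exact Or.inl h1
        · exact Or.inr (Or.inl h1)
    rw [h3]
    by_cases hxf : ∃ w ∈ A', f' w = x
    · obtain ⟨w, hw, rfl⟩ := hxf
      have h4 := E'.rot_eq w hw
      have h5 := IsRotated.filter' h4 (fun a => decide (Ker G A (φ' ∘ φ) a ∨ ∃ b, N a b))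
      refine NC.of_isRotated ?_ h5.symm
      have h6 : ((G'.rot w).map φ').filter (fun a => decide (Ker G A (φ' ∘ φ) a ∨ ∃ b, N a b)) =
          ((G'.rot w).filter (fun a => decide (Ker G A φ a ∨ ∃ b, M a b))).map φ' := by
        rw [List.filter_map]
        congr 1
        refine List.filter_congr fun a ha => ?_
        have := (G'.mem_rot _ _).1 ha
        have hA : G'.base a ∈ A' := this.2 ▸ hw
        simp only [Function.comp_apply, decide_eq_decide]
        rw [kk' a this.1 hA]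
        constructor
        · rintro (h | ⟨b, h⟩)
          · exact Or.inl h
          · exact Or.inr (NM a this.1 hA b h)
        · rintro (h | ⟨b, h⟩)
          · exact Or.inl h
          · exact Or.inr ⟨φ' b, a, b, h, rfl, rfl⟩
      rw [h6]
      refine (E.nc w hw).map (fun a b hab => ⟨a, b, hab, rfl, rfl⟩) fun a ha c hc => ?_
      have ha' := (G'.mem_rot _ _).1 (List.mem_of_mem_filter ha)
      exact NM a ha'.1 (ha'.2 ▸ hw) c hc
    · refine .done _ fun a ha b hab => ?_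
      have h4 := Nker _ _ hab
      obtain ⟨y, h5, h6, rfl⟩ := h4
      have h7 := List.mem_of_mem_filter ha
      have h8 := List.mem_of_mem_filter h7
      have h9 := (G''.mem_rot _ _).1 h8
      rw [E'.φ_base _ h5 h6] at h9
      exact hxf ⟨_, h6, h9.2⟩
  · intro h h1 h2 h3
    obtain ⟨y, h4, h5⟩ := E.run_in h h1 h2 h3
    have h6 : G'.base (φ h) ∈ A' := by
      rw [E.φ_base h h1 h2]
      exact E.f_mem _ h2
    obtain ⟨h7, h8, h9⟩ := PE.lift_run E E' (E.φ_mem h h1 h2) h6 h4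
    have h10 : G'.base (G'.opp y) ∈ A' := by
      rw [h5, E.φ_base _ (G.opp_mem h h1) h3]
      exact E.f_mem _ h3
    obtain ⟨z, hz, hz'⟩ := E'.run_in y h8 h9 h10
    refine ⟨z, h7.trans (hz.mono fun a b h => Or.inr h), ?_⟩
    rw [hz', h5]
    rfl
  · intro h hh
    obtain ⟨h1, h2, h3⟩ := mem_bd.1 hh
    have h6 : G'.base (φ h) ∈ A' := by
      rw [E.φ_base h h1 h2]
      exact E.f_mem _ h2
    obtain ⟨h7, h8, h9⟩ := PE.lift_run E E' (E.φ_mem h h1 h2) h6 (E.run_out h hh)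
    exact h7.trans ((E'.run_out _ (E.β_bij.mapsTo hh)).mono fun a b h => Or.inr h)
  · exact E'.β_bij.comp E.β_bij

/-! ### Gluing -/

theorem PE.union {r : V → V' → Prop} {G : RotGraph V H} {A₁ A₂ : Finset V}
    {G' : RotGraph V' H'} {A₁' A₂' : Finset V'} {β₁ β₂ : H → H'}
    (hA : Disjoint A₁ A₂) (hA' : Disjoint A₁' A₂')
    (h₁ : PE r G A₁ G' A₁' β₁) (h₂ : PE r G A₂ G' A₂' β₂)
    (h12 : ∀ h ∈ bd G A₁, G.base (G.opp h) ∈ A₂ → G'.opp (β₁ h) = β₂ (G.opp h))
    (h1o : ∀ h ∈ bd G A₁, G.base (G.opp h) ∉ A₂ → G'.base (G'.opp (β₁ h)) ∉ A₂')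
    (h2o : ∀ h ∈ bd G A₂, G.base (G.opp h) ∉ A₁ → G'.base (G'.opp (β₂ h)) ∉ A₁') :
    PE r G (A₁ ∪ A₂) G' (A₁' ∪ A₂') (fun h => if G.base h ∈ A₁ then β₁ h else β₂ h) := by
  obtain ⟨f₁, φ₁, M₁, E₁⟩ := h₁
  obtain ⟨f₂, φ₂, M₂, E₂⟩ := h₂
  have hd : ∀ v, v ∈ A₁ → v ∈ A₂ → False := fun v h1 h2 => Finset.disjoint_left.1 hA h1 h2
  have hd' : ∀ v, v ∈ A₁' → v ∈ A₂' → False := fun v h1 h2 => Finset.disjoint_left.1 hA' h1 h2
  set f : V → V' := fun v => if v ∈ A₁ then f₁ v else f₂ v with hf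
  set φ : H → H' := fun h => if G.base h ∈ A₁ then φ₁ h else φ₂ h with hφ
  set M : H' → H' → Prop := fun a b => M₁ a b ∨ M₂ a b with hM
  have f1 : ∀ v ∈ A₁, f v = f₁ v := fun v hv => by simp [hf, hv]
  have f2 : ∀ v ∈ A₂, f v = f₂ v := fun v hv => by
    have : v ∉ A₁ := fun h => hd v h hv
    simp [hf, this]
  have φ1 : ∀ h, G.base h ∈ A₁ → φ h = φ₁ h := fun v hv => by simp [hφ, hv]
  have φ2 : ∀ h, G.base h ∈ A₂ → φ h = φ₂ h := fun v hv => by
    have : G.base v ∉ A₁ := fun h => hd _ h hv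
    simp [hφ, this]
  have K1 : ∀ a, Ker G A₁ φ₁ a → G'.base a ∈ A₁' := by
    rintro a ⟨h, h1, h2, rfl⟩
    rw [E₁.φ_base h h1 h2]
    exact E₁.f_mem _ h2
  have K2 : ∀ a, Ker G A₂ φ₂ a → G'.base a ∈ A₂' := by
    rintro a ⟨h, h1, h2, rfl⟩
    rw [E₂.φ_base h h1 h2]
    exact E₂.f_mem _ h2
  have hKer : ∀ a, Ker G (A₁ ∪ A₂) φ a ↔ Ker G A₁ φ₁ a ∨ Ker G A₂ φ₂ a := by
    intro a
    constructor
    · rintro ⟨h, h1, h2, rfl⟩
      rcases Finset.mem_union.1 h2 with h3 | h3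
      · exact Or.inl ⟨h, h1, h3, (φ1 h h3).symm⟩
      · exact Or.inr ⟨h, h1, h3, (φ2 h h3).symm⟩
    · rintro (⟨h, h1, h2, rfl⟩ | ⟨h, h1, h2, rfl⟩)
      · exact ⟨h, h1, Finset.mem_union_left _ h2, φ1 h h2⟩
      · exact ⟨h, h1, Finset.mem_union_right _ h2, φ2 h h2⟩
  -- the pairing across, seen from the other side
  have h21 : ∀ h ∈ bd G A₂, G.base (G.opp h) ∈ A₁ → G'.opp (β₂ h) = β₁ (G.opp h) := by
    intro h hh hb
    obtain ⟨h1, h2, h3⟩ := mem_bd.1 hh
    have h4 : G.opp h ∈ bd G A₁ := by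
      rw [mem_bd, G.opp_opp h h1]
      exact ⟨G.opp_mem h h1, hb, fun h => hd _ h h2⟩
    have h5 := h12 _ h4 (by rw [G.opp_opp h h1]; exact h2)
    rw [G.opp_opp h h1] at h5
    have h6 := (mem_bd.1 (E₁.β_bij.mapsTo h4)).1
    rw [← h5, G'.opp_opp _ h6]
  have base1 : ∀ a b, M₁ a b → G'.base a ∈ A₁' := fun a b h => (E₁.M_base a b h).1
  have base2 : ∀ a b, M₂ a b → G'.base a ∈ A₂' := fun a b h => (E₂.M_base a b h).1
  refine ⟨f, φ, M, ?_⟩
  refine ⟨?_, ?_, ?_, ?_, ?_, ?_, ?_, ?_, ?_, ?_, ?_, ?_, ?_, ?_, ?_, ?_⟩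
  · intro v hv
    rcases Finset.mem_union.1 hv with h | h
    · rw [f1 v h]; exact Finset.mem_union_left _ (E₁.f_mem v h)
    · rw [f2 v h]; exact Finset.mem_union_right _ (E₂.f_mem v h)
  · intro v hv
    rcases Finset.mem_union.1 hv with h | h
    · rw [f1 v h]; exact E₁.f_rel v h
    · rw [f2 v h]; exact E₂.f_rel v h
  · intro v hv w hw hvw
    rcases Finset.mem_union.1 hv with h | h <;> rcases Finset.mem_union.1 hw with h' | h'
    · rw [f1 v h, f1 w h'] at hvw
      exact E₁.f_inj h h' hvw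
    · rw [f1 v h, f2 w h'] at hvw
      exact (hd' _ (E₁.f_mem v h) (hvw ▸ E₂.f_mem w h')).elim
    · rw [f2 v h, f1 w h'] at hvw
      exact (hd' _ (E₁.f_mem w h') (hvw ▸ E₂.f_mem v h)).elim
    · rw [f2 v h, f2 w h'] at hvw
      exact E₂.f_inj h h' hvw
  · rintro a b (h | h)
    · exact Or.inl (E₁.M_symm _ _ h)
    · exact Or.inr (E₂.M_symm _ _ h)
  · rintro a b c (h | h) (h' | h')
    · exact E₁.M_fun _ _ _ h h'
    · exact (hd' _ (base1 _ _ h) (base2 _ _ h')).elim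
    · exact (hd' _ (base1 _ _ h') (base2 _ _ h)).elim
    · exact E₂.M_fun _ _ _ h h'
  · rintro a b (h | h)
    · exact E₁.M_mem _ _ h
    · exact E₂.M_mem _ _ h
  · rintro a b (h | h)
    · exact ⟨Finset.mem_union_left _ (base1 _ _ h), (E₁.M_base _ _ h).2⟩
    · exact ⟨Finset.mem_union_right _ (base2 _ _ h), (E₂.M_base _ _ h).2⟩
  · rintro a b (h | h) hk
    · rcases (hKer a).1 hk with h' | h'
      · exact E₁.M_ker _ _ h h'
      · exact hd' _ (base1 _ _ h) (K2 _ h')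
    · rcases (hKer a).1 hk with h' | h'
      · exact hd' _ (K1 _ h') (base2 _ _ h)
      · exact E₂.M_ker _ _ h h'
  · intro h h1 h2
    rcases Finset.mem_union.1 h2 with h3 | h3
    · rw [φ1 h h3]; exact E₁.φ_mem h h1 h3
    · rw [φ2 h h3]; exact E₂.φ_mem h h1 h3
  · intro h h1 h2
    rcases Finset.mem_union.1 h2 with h3 | h3
    · rw [φ1 h h3, f1 _ h3]; exact E₁.φ_base h h1 h3
    · rw [φ2 h h3, f2 _ h3]; exact E₂.φ_base h h1 h3
  · intro h h1 k k1 h2 k2 hk
    have hK1 : ∀ h ∈ G.darts, G.base h ∈ A₁ → G'.base (φ₁ h) ∈ A₁' := fun h h1 h2 =>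
      K1 _ ⟨h, h1, h2, rfl⟩
    have hK2 : ∀ h ∈ G.darts, G.base h ∈ A₂ → G'.base (φ₂ h) ∈ A₂' := fun h h1 h2 =>
      K2 _ ⟨h, h1, h2, rfl⟩
    rcases Finset.mem_union.1 h2 with h3 | h3 <;> rcases Finset.mem_union.1 k2 with k3 | k3
    · rw [φ1 h h3, φ1 k k3] at hk
      exact E₁.φ_inj _ h1 _ k1 h3 k3 hk
    · rw [φ1 h h3, φ2 k k3] at hk
      exact (hd' _ (hK1 h h1 h3) (hk ▸ hK2 k k1 k3)).elim
    · rw [φ2 h h3, φ1 k k3] at hk
      exact (hd' _ (hK1 k k1 k3) (hk ▸ hK2 h h1 h3)).elim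
    · rw [φ2 h h3, φ2 k k3] at hk
      exact E₂.φ_inj _ h1 _ k1 h3 k3 hk
  · intro v hv
    rcases Finset.mem_union.1 hv with h | h
    · rw [f1 v h]
      have h1 : (G'.rot (f₁ v)).filter (fun a => decide (Ker G (A₁ ∪ A₂) φ a)) =
          (G'.rot (f₁ v)).filter (fun a => decide (Ker G A₁ φ₁ a)) := by
        refine List.filter_congr fun a ha => ?_
        have h2 := (G'.mem_rot _ _).1 ha
        rw [decide_eq_decide, hKer]
        refine ⟨fun h' => h'.resolve_right fun h'' => hd' _ (E₁.f_mem v h) ?_, Or.inl⟩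
        rw [← h2.2]; exact K2 _ h''
      have h2 : (G.rot v).map φ = (G.rot v).map φ₁ := by
        refine List.map_congr_left fun a ha => ?_
        have h2 := (G.mem_rot _ _).1 ha
        exact φ1 a (h2.2 ▸ h)
      rw [h1, h2]
      exact E₁.rot_eq v h
    · rw [f2 v h]
      have h1 : (G'.rot (f₂ v)).filter (fun a => decide (Ker G (A₁ ∪ A₂) φ a)) =
          (G'.rot (f₂ v)).filter (fun a => decide (Ker G A₂ φ₂ a)) := by
        refine List.filter_congr fun a ha => ?_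
        have h2 := (G'.mem_rot _ _).1 ha
        rw [decide_eq_decide, hKer]
        refine ⟨fun h' => h'.resolve_left fun h'' => hd' _ ?_ (E₂.f_mem v h), Or.inr⟩
        rw [← h2.2]; exact K1 _ h''
      have h2 : (G.rot v).map φ = (G.rot v).map φ₂ := by
        refine List.map_congr_left fun a ha => ?_
        have h2 := (G.mem_rot _ _).1 ha
        exact φ2 a (h2.2 ▸ h)
      rw [h1, h2]
      exact E₂.rot_eq v h
  · intro x hx
    rcases Finset.mem_union.1 hx with h | h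
    · have h1 : (G'.rot x).filter (fun a => decide (Ker G (A₁ ∪ A₂) φ a ∨ ∃ b, M a b)) =
          (G'.rot x).filter (fun a => decide (Ker G A₁ φ₁ a ∨ ∃ b, M₁ a b)) := by
        refine List.filter_congr fun a ha => ?_
        have h2 := (G'.mem_rot _ _).1 ha
        have h2' : G'.base a ∈ A₁' := h2.2 ▸ h
        rw [decide_eq_decide, hKer]
        constructor
        · rintro ((h3 | h3) | ⟨b, h3 | h3⟩)
          · exact Or.inl h3
          · exact (hd' _ h2' (K2 _ h3)).elim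
          · exact Or.inr ⟨b, h3⟩
          · exact (hd' _ h2' (base2 _ _ h3)).elim
        · rintro (h3 | ⟨b, h3⟩)
          · exact Or.inl (Or.inl h3)
          · exact Or.inr ⟨b, Or.inl h3⟩
      rw [h1]
      refine (E₁.nc x h).weaken (fun a b h => Or.inl h) fun a ha b hab => ?_
      have h2 := (G'.mem_rot _ _).1 (List.mem_of_mem_filter ha)
      rcases hab with hab | hab
      · exact ⟨b, hab⟩
      · exact (hd' _ (h2.2 ▸ h) (base2 _ _ hab)).elim
    · have h1 : (G'.rot x).filter (fun a => decide (Ker G (A₁ ∪ A₂) φ a ∨ ∃ b, M a b)) =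
          (G'.rot x).filter (fun a => decide (Ker G A₂ φ₂ a ∨ ∃ b, M₂ a b)) := by
        refine List.filter_congr fun a ha => ?_
        have h2 := (G'.mem_rot _ _).1 ha
        have h2' : G'.base a ∈ A₂' := h2.2 ▸ h
        rw [decide_eq_decide, hKer]
        constructor
        · rintro ((h3 | h3) | ⟨b, h3 | h3⟩)
          · exact (hd' _ (K1 _ h3) h2').elim
          · exact Or.inl h3
          · exact (hd' _ (base1 _ _ h3) h2').elim
          · exact Or.inr ⟨b, h3⟩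
        · rintro (h3 | ⟨b, h3⟩)
          · exact Or.inl (Or.inr h3)
          · exact Or.inr ⟨b, Or.inr h3⟩
      rw [h1]
      refine (E₂.nc x h).weaken (fun a b h => Or.inr h) fun a ha b hab => ?_
      have h2 := (G'.mem_rot _ _).1 (List.mem_of_mem_filter ha)
      rcases hab with hab | hab
      · exact (hd' _ (base1 _ _ hab) (h2.2 ▸ h)).elim
      · exact ⟨b, hab⟩
  · intro h h1 h2 h3
    rcases Finset.mem_union.1 h2 with h4 | h4 <;> rcases Finset.mem_union.1 h3 with h5 | h5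
    · obtain ⟨y, h6, h7⟩ := E₁.run_in h h1 h4 h5
      rw [φ1 h h4, φ1 _ h5]
      exact ⟨y, h6.mono fun a b h => Or.inl h, h7⟩
    · -- from `A₁` to `A₂`
      have hb1 : h ∈ bd G A₁ := mem_bd.2 ⟨h1, h4, fun h => hd _ h h5⟩
      have hb2 : G.opp h ∈ bd G A₂ := by
        rw [mem_bd, G.opp_opp h h1]
        exact ⟨G.opp_mem h h1, h5, fun h => hd _ h4 h⟩
      have h6 := E₁.run_out h hb1
      have h7 := (E₂.run_out _ hb2).reverse E₂.M_symm
        (fun a b h => G'.opp_opp a (E₂.M_mem a b h))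
      rw [← h12 h hb1 h5, G'.opp_opp _ (mem_bd.1 (E₁.β_bij.mapsTo hb1)).1] at h7
      rw [φ1 h h4, φ2 _ h5]
      refine ⟨_, (h6.mono fun a b h => Or.inl h).trans (h7.mono fun a b h => Or.inr h), ?_⟩
      exact G'.opp_opp _ (E₂.φ_mem _ (G.opp_mem h h1) h5)
    · have hb1 : h ∈ bd G A₂ := mem_bd.2 ⟨h1, h4, fun h => hd _ h5 h⟩
      have hb2 : G.opp h ∈ bd G A₁ := by
        rw [mem_bd, G.opp_opp h h1]
        exact ⟨G.opp_mem h h1, h5, fun h => hd _ h h4⟩
      have h6 := E₂.run_out h hb1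
      have h7 := (E₁.run_out _ hb2).reverse E₁.M_symm
        (fun a b h => G'.opp_opp a (E₁.M_mem a b h))
      rw [← h21 h hb1 h5, G'.opp_opp _ (mem_bd.1 (E₂.β_bij.mapsTo hb1)).1] at h7
      rw [φ2 h h4, φ1 _ h5]
      refine ⟨_, (h6.mono fun a b h => Or.inr h).trans (h7.mono fun a b h => Or.inl h), ?_⟩
      exact G'.opp_opp _ (E₁.φ_mem _ (G.opp_mem h h1) h5)
    · obtain ⟨y, h6, h7⟩ := E₂.run_in h h1 h4 h5
      rw [φ2 h h4, φ2 _ h5]
      exact ⟨y, h6.mono fun a b h => Or.inr h, h7⟩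
  · intro h hh
    obtain ⟨h1, h2, h3⟩ := mem_bd.1 hh
    rw [Finset.mem_union, not_or] at h3
    rcases Finset.mem_union.1 h2 with h4 | h4
    · have := E₁.run_out h (mem_bd.2 ⟨h1, h4, h3.1⟩)
      simp only [h4, if_true]
      rw [φ1 h h4]
      exact this.mono fun a b h => Or.inl h
    · have := E₂.run_out h (mem_bd.2 ⟨h1, h4, h3.2⟩)
      have h5 : G.base h ∉ A₁ := fun h => hd _ h h4
      simp only [h5, if_false]
      rw [φ2 h h4]
      exact this.mono fun a b h => Or.inr h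
  · refine ⟨?_, ?_, ?_⟩
    · intro h hh
      obtain ⟨h1, h2, h3⟩ := mem_bd.1 (Finset.mem_coe.1 hh)
      rw [Finset.mem_union, not_or] at h3
      rw [Finset.mem_coe, mem_bd, Finset.mem_union, Finset.mem_union, not_or]
      rcases Finset.mem_union.1 h2 with h4 | h4
      · have hb : h ∈ bd G A₁ := mem_bd.2 ⟨h1, h4, h3.1⟩
        have h5 := mem_bd.1 (E₁.β_bij.mapsTo hb)
        simp only [h4, if_true]
        exact ⟨h5.1, Or.inl h5.2.1, h5.2.2, h1o h hb h3.2⟩
      · have hb : h ∈ bd G A₂ := mem_bd.2 ⟨h1, h4, h3.2⟩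
        have h5 := mem_bd.1 (E₂.β_bij.mapsTo hb)
        have h6 : G.base h ∉ A₁ := fun h => hd _ h h4
        simp only [h6, if_false]
        exact ⟨h5.1, Or.inr h5.2.1, h2o h hb h3.1, h5.2.2⟩
    · intro h hh k hk hhk
      obtain ⟨h1, h2, h3⟩ := mem_bd.1 (Finset.mem_coe.1 hh)
      obtain ⟨k1, k2, k3⟩ := mem_bd.1 (Finset.mem_coe.1 hk)
      rw [Finset.mem_union, not_or] at h3 k3
      rcases Finset.mem_union.1 h2 with h4 | h4 <;> rcases Finset.mem_union.1 k2 with k4 | k4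
      · simp only [h4, k4, if_true] at hhk
        exact E₁.β_bij.injOn (mem_bd.2 ⟨h1, h4, h3.1⟩) (mem_bd.2 ⟨k1, k4, k3.1⟩) hhk
      · have k5 : G.base k ∉ A₁ := fun h => hd _ h k4
        simp only [h4, k5, if_true, if_false] at hhk
        have a1 := (mem_bd.1 (E₁.β_bij.mapsTo (Finset.mem_coe.2 (mem_bd.2 ⟨h1, h4, h3.1⟩)))).2.1
        have a2 := (mem_bd.1 (E₂.β_bij.mapsTo (Finset.mem_coe.2 (mem_bd.2 ⟨k1, k4, k3.2⟩)))).2.1
        rw [hhk] at a1
        exact (hd' _ a1 a2).elim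
      · have h5 : G.base h ∉ A₁ := fun h => hd _ h h4
        simp only [k4, h5, if_true, if_false] at hhk
        have a1 := (mem_bd.1 (E₁.β_bij.mapsTo (Finset.mem_coe.2 (mem_bd.2 ⟨k1, k4, k3.1⟩)))).2.1
        have a2 := (mem_bd.1 (E₂.β_bij.mapsTo (Finset.mem_coe.2 (mem_bd.2 ⟨h1, h4, h3.2⟩)))).2.1
        rw [← hhk] at a1
        exact (hd' _ a1 a2).elim
      · have h5 : G.base h ∉ A₁ := fun h => hd _ h h4
        have k5 : G.base k ∉ A₁ := fun h => hd _ h k4
        simp only [h5, k5, if_false] at hhk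
        exact E₂.β_bij.injOn (mem_bd.2 ⟨h1, h4, h3.2⟩) (mem_bd.2 ⟨k1, k4, k3.2⟩) hhk
    · intro y hy
      obtain ⟨y1, y2, y3⟩ := mem_bd.1 (Finset.mem_coe.1 hy)
      rw [Finset.mem_union, not_or] at y3
      rcases Finset.mem_union.1 y2 with y4 | y4
      · obtain ⟨h, hh, rfl⟩ := E₁.β_bij.surjOn (mem_bd.2 ⟨y1, y4, y3.1⟩)
        obtain ⟨h1, h2, h3⟩ := mem_bd.1 (Finset.mem_coe.1 hh)
        refine ⟨h, ?_, by simp [h2]⟩
        rw [Finset.mem_coe, mem_bd, Finset.mem_union, Finset.mem_union, not_or]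
        refine ⟨h1, Or.inl h2, h3, fun h4 => y3.2 ?_⟩
        rw [h12 h hh h4]
        refine (mem_bd.1 (E₂.β_bij.mapsTo ?_)).2.1
        rw [Finset.mem_coe, mem_bd, G.opp_opp h h1]
        exact ⟨G.opp_mem h h1, h4, fun h => hd _ h2 h⟩
      · obtain ⟨h, hh, rfl⟩ := E₂.β_bij.surjOn (mem_bd.2 ⟨y1, y4, y3.2⟩)
        obtain ⟨h1, h2, h3⟩ := mem_bd.1 (Finset.mem_coe.1 hh)
        have h5 : G.base h ∉ A₁ := fun h => hd _ h h2
        refine ⟨h, ?_, by simp [h5]⟩
        rw [Finset.mem_coe, mem_bd, Finset.mem_union, Finset.mem_union, not_or]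
        refine ⟨h1, Or.inr h2, fun h4 => y3.1 ?_, h3⟩
        rw [h21 h hh h4]
        refine (mem_bd.1 (E₁.β_bij.mapsTo ?_)).2.1
        rw [Finset.mem_coe, mem_bd, G.opp_opp h h1]
        exact ⟨G.opp_mem h h1, h4, fun h => hd _ h h2⟩

end RotWqo
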